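import Pool.Agent.Run7.h70.IHP.Disc

set_option autoImplicit false

/-! # Patterns whose exponent is larger than `n/2` -/

open Filter Topology Finset MeasureTheory

namespace Pool.Agent.Run7.h70.IHP

/-- the cross ratios -/
def crs (T : Set ℝ) (t₀ t₁ t₂ : ℝ) : Set ℝ :=
  {c | ∃ t ∈ T, t ≠ t₁ ∧ c = ((t - t₀) * (t₂ - t₁)) / ((t - t₁) * (t₂ - t₀))}

theorem cov_ev {n : ℕ} {W : Set (E n)} {y : ℝ} (hW : upperMinkowski W < (y : EReal)) :
    ∀ᶠ δ : ℝ in 𝓝[>] (0 : ℝ), (coverNum W δ : ℝ) ≤ δ ^ (-y) := by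
  have h3 : ∀ᶠ δ : ℝ in 𝓝[>] (0 : ℝ),
      ((Real.log (coverNum W δ) / Real.log (1 / δ) : ℝ) : EReal) < y :=
    eventually_lt_of_limsup_lt hW (by isBoundedDefault)
  filter_upwards [eventually_small, h3] with δ h1 h2
  have hL := log_inv_pos h1.1 h1.2
  have h2' : Real.log (coverNum W δ) / Real.log (1 / δ) < y := by exact_mod_cast h2
  rw [div_lt_iff₀ hL] at h2'
  rcases Nat.eq_zero_or_pos (coverNum W δ) with h5 | h5
  · rw [h5, Nat.cast_zero]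
    exact (Real.rpow_pos_of_pos h1.1 _).le
  · have h6 : (0 : ℝ) < coverNum W δ := by exact_mod_cast h5
    rw [← Real.log_le_log_iff h6 (Real.rpow_pos_of_pos h1.1 _), Real.log_rpow h1.1]
    rw [one_div, Real.log_inv] at h2'
    linarith

theorem volume_cube_ne (n : ℕ) : volume (cube n) ≠ 0 := by
  intro hcube
  have hball : Metric.ball (WithLp.toLp 2 (fun _ => (1 / 2 : ℝ)) : E n) (1 / 2) ⊆ cube n := by
    intro r hr i
    rw [Metric.mem_ball, dist_eq_norm] at hr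
    have h1 := PiLp.norm_apply_le (r - (WithLp.toLp 2 (fun _ => (1 / 2 : ℝ)) : E n)) i
    rw [PiLp.sub_apply, Real.norm_eq_abs] at h1
    have h2 := abs_le.mp (h1.trans hr.le)
    simp only at h2
    constructor <;> linarith [h2.1, h2.2]
  have hpos : 0 < volume (Metric.ball (WithLp.toLp 2 (fun _ => (1 / 2 : ℝ)) : E n) (1 / 2)) :=
    Metric.measure_ball_pos volume _ (by norm_num)
  exact hpos.ne' (measure_mono_null hball hcube)

/-- localisation of a pattern in pieces of small upper Minkowski dimension -/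
theorem localise {n : ℕ} (T : Finset ℝ) {y : ℝ} (h : fP T n < (y : EReal)) :
    ∃ (U : ℝ → Set (E n)) (R : Set (E n)), R ⊆ cube n ∧ 0 < volume R ∧
      (∀ t ∈ T, Bornology.IsBounded (U t)) ∧ (∀ t ∈ T, upperMinkowski (U t) < (y : EReal)) ∧
      ∀ r ∈ R, ∃ a : E n, ∀ t ∈ T, a + t • r ∈ U t := by
  classical
  unfold fP at h
  simp only [iInf_lt_iff] at h
  obtain ⟨B, hB, hpat, hdim⟩ := h
  unfold packingDim at hdim
  rw [sInf_lt_iff] at hdim
  obtain ⟨d, ⟨V, hV1, hV2, hV3⟩, hd⟩ := hdim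
  set U : (T → ℕ) → ℝ → Set (E n) := fun ι t => if ht : t ∈ T then V (ι ⟨t, ht⟩) else ∅ with hU
  set R : (T → ℕ) → Set (E n) := fun ι => {r | r ∈ cube n ∧ ∃ a : E n, ∀ t ∈ T, a + t • r ∈ U ι t}
    with hR
  have hcov : cube n ⊆ ⋃ ι, R ι := by
    intro r hr
    obtain ⟨a, ha⟩ := hpat r hr
    have h1 : ∀ t : T, ∃ i, a + (t : ℝ) • r ∈ V i := fun t =>
      Set.mem_iUnion.mp (hV2 (ha t t.2))
    choose ι hι using h1
    refine Set.mem_iUnion.mpr ⟨ι, hr, a, fun t ht => ?_⟩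
    simp only [hU, dif_pos ht]
    exact hι ⟨t, ht⟩
  have hex : ∃ ι, volume (R ι) ≠ 0 := by
    by_contra hcon
    push Not at hcon
    exact volume_cube_ne n (measure_mono_null hcov (measure_iUnion_null hcon))
  obtain ⟨ι, hι⟩ := hex
  refine ⟨U ι, R ι, fun r hr => hr.1, pos_iff_ne_zero.mpr hι, fun t ht => ?_, fun t ht => ?_,
    fun r hr => hr.2⟩
  · simp only [hU, dif_pos ht]
    exact hV1 _
  · simp only [hU, dif_pos ht]
    exact (hV3 _).trans_lt hd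

/-- **Patterns whose exponent is larger than `n/2`.** -/
theorem strict {n : ℕ} (hn : 1 ≤ n) (T : Finset ℝ) {t₀ t₁ t₂ : ℝ} (m₀ : t₀ ∈ T) (m₁ : t₁ ∈ T)
    (m₂ : t₂ ∈ T) (h₁ : t₁ ≠ t₀) (h₂ : t₂ ≠ t₁) (h₃ : t₂ ≠ t₀)
    (hρ : (t₂ - t₀) / (t₁ - t₀) ∈ Subfield.closure (crs T t₀ t₁ t₂)) :
    ((n / 2 : ℝ) : EReal) < fP T n := by
  classical
  by_contra hcon
  push Not at hcon
  have hnr : (1 : ℝ) ≤ n := by exact_mod_cast hn
  have d10 : t₁ - t₀ ≠ 0 := sub_ne_zero.mpr h₁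
  have d21 : t₂ - t₁ ≠ 0 := sub_ne_zero.mpr h₂
  have d20 : t₂ - t₀ ≠ 0 := sub_ne_zero.mpr h₃
  have hν : (t₂ - t₁) / (t₂ - t₀) ∈ Subfield.closure (crs T t₀ t₁ t₂) := by
    have e : (t₂ - t₁) / (t₂ - t₀) = 1 - ((t₂ - t₀) / (t₁ - t₀))⁻¹ := by
      field_simp
      ring
    rw [e]
    exact sub_mem (one_mem _) (inv_mem hρ)
  obtain ⟨K, K₀, hK₀, hdisc⟩ := discretise n h₁ h₂ h₃
  set c : ENNReal := volume (Metric.ball (0 : E n) 1) with hc
  have hc1 : c ≠ ⊤ := measure_ball_lt_top.ne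
  have hc0 : 0 < c := Metric.measure_ball_pos volume _ one_pos
  have hcr : 0 < c.toReal := ENNReal.toReal_pos hc0.ne' hc1
  -- the configurations
  have hconf : ∀ k : ℕ, ∃ (D : ℝ) (F : Finset ((Fin n → ℤ) × (Fin n → ℤ))), (k : ℝ) + 1 < D ∧
      D ^ (-(1 / ((k : ℝ) + 1))) ≤ F.card * K₀ * (((n : ℝ) + 1) ^ n * (D ^ (n : ℝ))⁻¹ * c.toReal) ∧
      ((F.image Prod.fst).card : ℝ) ≤ D ^ ((n : ℝ) / 2 + 1 / ((k : ℝ) + 1)) * K₀ ∧
      ((F.image Prod.snd).card : ℝ) ≤ D ^ ((n : ℝ) / 2 + 1 / ((k : ℝ) + 1)) * K₀ ∧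
      (∀ t ∈ T, t ≠ t₁ →
        ((F.image (phi (((t - t₀) * (t₂ - t₁)) / ((t - t₁) * (t₂ - t₀))))).card : ℝ) ≤
          D ^ ((n : ℝ) / 2 + 1 / ((k : ℝ) + 1)) * K t) ∧
      ∀ v, (F.filter fun q => phi ((t₂ - t₁) / (t₂ - t₀)) q = v).card ≤ K₀ := by
    intro k
    have hk : 0 < 1 / ((k : ℝ) + 1) := by positivity
    have hlt : fP T n < (((n : ℝ) / 2 + 1 / ((k : ℝ) + 1) : ℝ) : EReal) :=
      hcon.trans_lt (by
        rw [EReal.coe_lt_coe_iff]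
        linarith)
    obtain ⟨U, R, hR1, hR2, hU1, hU2, hU3⟩ := localise T hlt
    obtain ⟨ρ, hρ0, hρ1⟩ := ENNReal.lt_iff_exists_nnreal_btwn.mp hR2
    have hρpos : (0 : ℝ) < ρ := by exact_mod_cast hρ0
    have hev1 : ∀ᶠ δ : ℝ in 𝓝[>] (0 : ℝ), ∀ t ∈ T,
        (coverNum (U t) δ : ℝ) ≤ δ ^ (-((n : ℝ) / 2 + 1 / ((k : ℝ) + 1))) :=
      (Filter.eventually_all_finset T).mpr fun t ht => cov_ev (hU2 t ht)
    have hev2 : ∀ᶠ δ : ℝ in 𝓝[>] (0 : ℝ), δ < 1 / ((k : ℝ) + 1) :=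
      mem_of_superset (Ioo_mem_nhdsGT hk) fun δ hδ => hδ.2
    have hev3 : ∀ᶠ δ : ℝ in 𝓝[>] (0 : ℝ), δ ^ (1 / ((k : ℝ) + 1)) ≤ (ρ : ℝ) := by
      have l1 : Tendsto (fun δ : ℝ => δ ^ (1 / ((k : ℝ) + 1))) (𝓝[>] (0 : ℝ)) (𝓝 0) := by
        have := (Real.continuousAt_rpow_const 0 (1 / ((k : ℝ) + 1)) (Or.inr hk.le)).tendsto
        rw [Real.zero_rpow hk.ne'] at this
        exact this.mono_left nhdsWithin_le_nhds
      exact l1.eventually (ge_mem_nhds hρpos)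
    obtain ⟨δ, hδ1, hδ2, hδ3, hδ4⟩ :=
      (eventually_small.and (hev1.and (hev2.and hev3))).exists
    obtain ⟨F, f1, f2, f3, f4, f5⟩ := hdisc δ hδ1.1 T m₀ m₁ R hR1 U hU3 hU1 _ hδ2
    have hinv : ∀ s : ℝ, (δ⁻¹) ^ s = δ ^ (-s) := fun s => by
      rw [Real.inv_rpow hδ1.1.le, Real.rpow_neg hδ1.1.le]
    refine ⟨δ⁻¹, F, ?_, ?_, ?_, ?_, ?_, f5⟩
    · rw [lt_inv_comm₀ (by positivity) hδ1.1]
      rw [one_div] at hδ3
      exact hδ3
    · have g1 : (ρ : ENNReal) ≤ F.card * K₀ * (ENNReal.ofReal (((n : ℝ) + 1) ^ n * δ ^ n) * c) :=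
        hρ1.le.trans f1
      have g2 : (F.card * K₀ * (ENNReal.ofReal (((n : ℝ) + 1) ^ n * δ ^ n) * c) : ENNReal) ≠ ⊤ :=
        ENNReal.mul_ne_top (ENNReal.mul_ne_top (ENNReal.natCast_ne_top _)
          (ENNReal.natCast_ne_top _)) (ENNReal.mul_ne_top ENNReal.ofReal_ne_top hc1)
      have g3 := ENNReal.toReal_mono g2 g1
      rw [ENNReal.coe_toReal, ENNReal.toReal_mul, ENNReal.toReal_mul, ENNReal.toReal_mul,
        ENNReal.toReal_natCast, ENNReal.toReal_natCast,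
        ENNReal.toReal_ofReal (by have := hδ1.1; positivity)] at g3
      rw [hinv, neg_neg, hinv, Real.rpow_neg hδ1.1.le, inv_inv, Real.rpow_natCast]
      exact hδ4.trans g3
    · rw [hinv]; exact f2
    · rw [hinv]; exact f3
    · intro t ht hne
      rw [hinv]; exact f4 t ht hne
  choose D F hD hF1 hF2 hF3 hF4 hF5 using hconf
  have hDpos : ∀ k, 0 < D k := fun k => lt_trans (by positivity) (hD k)
  have hD1 : ∀ k, 1 ≤ D k := fun k => by
    have := hD k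
    have h0 : (0 : ℝ) ≤ k := Nat.cast_nonneg k
    linarith
  have hDt : Tendsto D atTop atTop := by
    refine tendsto_atTop_mono (fun k => ?_) tendsto_natCast_atTop_atTop
    have := hD k
    linarith
  set N : ℕ → ℝ := fun k => (D k) ^ ((n : ℝ) / 2) with hN
  have hNt : Tendsto N atTop atTop := (tendsto_rpow_atTop (by positivity)).comp hDt
  have hpow : ∀ (k : ℕ) (s : ℝ), (N k) ^ s = (D k) ^ ((n : ℝ) / 2 * s) := fun k s => by
    simp only [hN]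
    rw [← Real.rpow_mul (hDpos k).le]
  have hsmall : ∀ η : ℝ, 0 < η → ∀ᶠ k : ℕ in atTop, 1 / ((k : ℝ) + 1) ≤ (n : ℝ) / 2 * η := by
    intro η hη
    have := tendsto_one_div_add_atTop_nhds_zero_nat (𝕜 := ℝ)
    exact this.eventually (ge_mem_nhds (by positivity))
  have hM : Up N 1 (fun k : ℕ => (D k) ^ ((n : ℝ) / 2 + 1 / ((k : ℝ) + 1))) := by
    intro η hη
    filter_upwards [hsmall η hη] with k hk
    rw [hpow]
    exact Real.rpow_le_rpow_of_exponent_le (hD1 k) (by linarith)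
  have hE : Lo N 2 (fun k => ((F k).card : ℝ)) := by
    have a1 : Lo N 2 (fun k : ℕ => (D k) ^ ((n : ℝ) - 1 / ((k : ℝ) + 1))) := by
      intro η hη
      filter_upwards [hsmall η hη] with k hk
      rw [hpow]
      exact Real.rpow_le_rpow_of_exponent_le (hD1 k) (by linarith)
    have hK₀r : (0 : ℝ) < K₀ := by exact_mod_cast hK₀
    refine (a1.cmul hNt (C := (K₀ * (((n : ℝ) + 1) ^ n * c.toReal))⁻¹) (by positivity)).mono
      (Eventually.of_forall fun k => ?_)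
    rw [← div_eq_mul_inv, div_le_iff₀ (by positivity)]
    have e1 : (D k) ^ ((n : ℝ) - 1 / ((k : ℝ) + 1)) =
        (D k) ^ (n : ℝ) * (D k) ^ (-(1 / ((k : ℝ) + 1))) := by
      rw [← Real.rpow_add (hDpos k)]
      congr 1
    rw [e1]
    have hDn : 0 < (D k) ^ (n : ℝ) := Real.rpow_pos_of_pos (hDpos k) _
    calc (D k) ^ (n : ℝ) * (D k) ^ (-(1 / ((k : ℝ) + 1)))
        ≤ (D k) ^ (n : ℝ) * ((F k).card * K₀ * (((n : ℝ) + 1) ^ n * ((D k) ^ (n : ℝ))⁻¹ *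
            c.toReal)) := mul_le_mul_of_nonneg_left (hF1 k) hDn.le
      _ = (F k).card * (K₀ * (((n : ℝ) + 1) ^ n * c.toReal)) := by
          field_simp
  refine no_config hNt F (crs T t₀ t₁ t₂) hν hE
    ((hM.cmul hNt (C := (K₀ : ℝ)) (by positivity)).mono (Eventually.of_forall hF2))
    ((hM.cmul hNt (C := (K₀ : ℝ)) (by positivity)).mono (Eventually.of_forall hF3)) ?_ K₀ hF5
  intro b hb
  have hone : ∀ t ∈ T, t ≠ t₁ → b = ((t - t₀) * (t₂ - t₁)) / ((t - t₁) * (t₂ - t₀)) →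
      Up N 1 (fun j => (((F j).image (phi b)).card : ℝ)) := by
    intro t ht hne hb'
    rw [hb']
    exact (hM.cmul hNt (C := (K t : ℝ)) (by positivity)).mono
      (Eventually.of_forall fun k => hF4 k t ht hne)
  rcases hb with hb | ⟨t, ht, hne, hb⟩
  · refine hone t₂ m₂ h₂ ?_
    rw [hb, mul_comm, div_self (mul_ne_zero d21 d20)]
  · exact hone t ht hne hb

end Pool.Agent.Run7.h70.IHP
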