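import Pool.Agent.Run7.h70.IHP.Series
import Pool.Agent.Run7.h70.IHP.Strict

set_option autoImplicit false

/-! # The classification of the finite patterns -/

open Filter Topology Finset

namespace Pool.Agent.Run7.h70.IHP.CF

/-- infinite patterns -/
theorem infinite_pattern (K : Subfield ℝ) [Countable K] {θ : ℝ} (hθ : θ ∉ K)
    (n : ℕ) : ∃ B : Set (E n), packingDim B ≤ ((n / 2 : ℝ) : EReal) ∧
      ∀ r : E n, ∃ a : E n, ∀ u ∈ K, ∀ v ∈ K, (u, v) ≠ 0 → a + (v / (u + θ * v)) • r ∈ B := by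
  have := countable_idx K
  obtain ⟨B, hB, hr⟩ := (lines K hθ).infinite n
  refine ⟨B, hB, fun r => (hr r).imp fun a ha u hu v hv hne => ?_⟩
  exact ha ⟨(u, v), hu, hv, hne⟩

/-- finite patterns -/
theorem finite_pattern (K : Subfield ℝ) [Countable K] (T : Finset ℝ)
    {t₀ t₁ t₂ : ℝ} (h₁ : t₁ ≠ t₀) (h₂ : t₂ ≠ t₁) (h₃ : t₂ ≠ t₀)
    (hρ : (t₂ - t₀) / (t₁ - t₀) ∉ K)
    (hc : ∀ t ∈ T, t ≠ t₁ → ((t - t₀) * (t₂ - t₁)) / ((t - t₁) * (t₂ - t₀)) ∈ K) (n : ℕ) :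
    ∃ B : Set (E n), Bornology.IsBounded B ∧ HasPattern T (cube n) B ∧
      upperMinkowski B ≤ ((n / 2 : ℝ) : EReal) := by
  classical
  set ρ : ℝ := (t₂ - t₀) / (t₁ - t₀) with hρd
  set ν : ℝ := (t₂ - t₁) / (t₂ - t₀) with hν
  have d10 : t₁ - t₀ ≠ 0 := sub_ne_zero.mpr h₁
  have d21 : t₂ - t₁ ≠ 0 := sub_ne_zero.mpr h₂
  have d20 : t₂ - t₀ ≠ 0 := sub_ne_zero.mpr h₃
  have hρ0 : ρ ≠ 0 := div_ne_zero d20 d10
  have hνρ : ν = 1 - ρ⁻¹ := by
    rw [hν, hρd]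
    field_simp
    ring
  have hθ : -ν ∉ K := by
    intro h
    apply hρ
    have h4 : ν ∈ K := by
      have := K.neg_mem h
      rwa [neg_neg] at this
    have h5 : ρ⁻¹ ∈ K := by
      have h6 : ρ⁻¹ = 1 - ν := by rw [hνρ]; ring
      rw [h6]
      exact K.sub_mem K.one_mem h4
    have := K.inv_mem h5
    rwa [inv_inv] at this
  have hidx : ∀ t : ℝ, ∃ p : Idx K, t ∈ T →
      t = t₁ + ((t₁ - t₀) * ν) * time K (-ν) p := by
    intro t
    by_cases ht : t ∈ T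
    · by_cases h1 : t = t₁
      · refine ⟨⟨(1, 0), K.one_mem, K.zero_mem, fun h => one_ne_zero (congrArg Prod.fst h)⟩,
          fun _ => ?_⟩
        simp [time, h1]
      · have hcK := hc t ht h1
        refine ⟨⟨(((t - t₀) * (t₂ - t₁)) / ((t - t₁) * (t₂ - t₀)), 1), hcK, K.one_mem,
          fun h => one_ne_zero (congrArg Prod.snd h)⟩, fun _ => ?_⟩
        have d : t - t₁ ≠ 0 := sub_ne_zero.mpr h1
        simp only [time]
        have e1 : ((t - t₀) * (t₂ - t₁)) / ((t - t₁) * (t₂ - t₀)) + -ν * 1 =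
            ((t₁ - t₀) * (t₂ - t₁)) / ((t - t₁) * (t₂ - t₀)) := by
          rw [hν]
          field_simp
          ring
        rw [e1, hν]
        field_simp
        ring
    · exact ⟨Classical.arbitrary _, fun h => absurd h ht⟩
  choose p hp using hidx
  have hl := (((lines K hθ).affine t₁ ((t₁ - t₀) * ν)).comp p)
  obtain ⟨B, hB1, hB2, hB3⟩ := hl.finite n T
  refine ⟨B, hB1, fun r hr => ?_, hB2⟩
  obtain ⟨a, ha⟩ := hB3 r hr
  refine ⟨a, fun t ht => ?_⟩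
  have h6 := ha t ht
  rwa [← hp t ht] at h6

theorem countable_crs (T : Finset ℝ) (t₀ t₁ t₂ : ℝ) :
    Countable (Subfield.closure (crs T t₀ t₁ t₂)) := by
  have h1 : (crs (T : Set ℝ) t₀ t₁ t₂).Countable := by
    refine Set.Countable.mono ?_ ((T.countable_toSet).image
      (fun t => ((t - t₀) * (t₂ - t₁)) / ((t - t₁) * (t₂ - t₀))))
    rintro c ⟨t, ht, _, rfl⟩
    exact ⟨t, ht, rfl⟩
  have h2 := Subfield.cardinalMk_closure_le_max (crs (T : Set ℝ) t₀ t₁ t₂)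
  have h3 : Cardinal.mk (crs (T : Set ℝ) t₀ t₁ t₂) ≤ Cardinal.aleph0 :=
    Cardinal.le_aleph0_iff_set_countable.mpr h1
  rw [max_eq_right h3] at h2
  exact Cardinal.mk_le_aleph0_iff.mp h2

theorem finite_value (T : Finset ℝ) {t₀ t₁ t₂ : ℝ} (m₀ : t₀ ∈ T) (m₁ : t₁ ∈ T) (h₁ : t₁ ≠ t₀)
    (h₂ : t₂ ≠ t₁) (h₃ : t₂ ≠ t₀)
    (hρ : (t₂ - t₀) / (t₁ - t₀) ∉ Subfield.closure (crs T t₀ t₁ t₂)) (n : ℕ) :
    fP T n = ((n / 2 : ℝ) : EReal) ∧ fM T n = ((n / 2 : ℝ) : EReal) ∧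
      ∃ B : Set (E n), Bornology.IsBounded B ∧ HasPattern T (cube n) B ∧
        upperMinkowski B = ((n / 2 : ℝ) : EReal) := by
  have := countable_crs T t₀ t₁ t₂
  obtain ⟨B, hB1, hB2, hB3⟩ := finite_pattern (Subfield.closure (crs T t₀ t₁ t₂)) T h₁ h₂ h₃ hρ
    (fun t ht hne => Subfield.subset_closure ⟨t, ht, hne, rfl⟩) n
  have l1 := le_fP (T := (T : Set ℝ)) (Finset.mem_coe.mpr m₁) (Finset.mem_coe.mpr m₀) h₁ n
  have l2 := fP_le_fM (T : Set ℝ) n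
  have l3 : fM T n ≤ upperMinkowski B := by
    unfold fM
    exact iInf_le_of_le B (iInf_le_of_le hB1 (iInf_le_of_le hB2 le_rfl))
  exact ⟨le_antisymm ((l2.trans l3).trans hB3) l1, le_antisymm (l3.trans hB3) (l1.trans l2),
    B, hB1, hB2, le_antisymm hB3 ((l1.trans l2).trans l3)⟩

/-- three terms -/
theorem three {t₀ t₁ t₂ : ℝ} (h₁ : t₁ ≠ t₀) (h₂ : t₂ ≠ t₁) (h₃ : t₂ ≠ t₀) {n : ℕ} (hn : 1 ≤ n) :
    fM {t₀, t₁, t₂} n = ((n / 2 : ℝ) : EReal) ↔ Irrational ((t₂ - t₀) / (t₁ - t₀)) := by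
  classical
  have e : (({t₀, t₁, t₂} : Finset ℝ) : Set ℝ) = {t₀, t₁, t₂} := by simp
  constructor
  · intro h
    rintro ⟨q, hq⟩
    have hmem : (t₂ - t₀) / (t₁ - t₀) ∈
        Subfield.closure (crs (({t₀, t₁, t₂} : Finset ℝ) : Set ℝ) t₀ t₁ t₂) := by
      rw [← hq]
      exact SubfieldClass.ratCast_mem _ q
    have h4 := (strict hn ({t₀, t₁, t₂} : Finset ℝ) (t₀ := t₀) (t₁ := t₁) (t₂ := t₂)
      (by simp) (by simp) (by simp) h₁ h₂ h₃ hmem).trans_le (fP_le_fM _ n)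
    rw [e, h] at h4
    exact lt_irrefl _ h4
  · intro h
    have h5 : (t₂ - t₀) / (t₁ - t₀) ∉
        Subfield.closure (crs (({t₀, t₁, t₂} : Finset ℝ) : Set ℝ) t₀ t₁ t₂) := by
      intro hmem
      have hle : Subfield.closure (crs (({t₀, t₁, t₂} : Finset ℝ) : Set ℝ) t₀ t₁ t₂) ≤
          (algebraMap ℚ ℝ).fieldRange := by
        rw [Subfield.closure_le]
        rintro c ⟨t, ht, hne, rfl⟩
        rw [e] at ht
        simp only [Set.mem_insert_iff, Set.mem_singleton_iff] at ht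
        rcases ht with rfl | rfl | rfl
        · rw [sub_self, zero_mul, zero_div]
          exact zero_mem _
        · exact absurd rfl hne
        · have e2 : ((t - t₀) * (t - t₁)) / ((t - t₁) * (t - t₀)) = 1 := by
            rw [mul_comm]
            exact div_self (mul_ne_zero (sub_ne_zero.mpr hne) (sub_ne_zero.mpr h₃))
          rw [e2]
          exact one_mem _
      obtain ⟨q, hq⟩ := hle hmem
      exact h ⟨q, hq⟩
    have h6 := (finite_value ({t₀, t₁, t₂} : Finset ℝ) (t₀ := t₀) (t₁ := t₁) (t₂ := t₂)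
      (by simp) (by simp) h₁ h₂ h₃ h5 n).2.1
    rw [e] at h6
    exact h6

end Pool.Agent.Run7.h70.IHP.CF
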