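import Mathlib

set_option autoImplicit false

/-! # Exponents along a sequence -/

open Filter Topology

namespace Pool.Agent.Run7.h70.IHP

/-- `f ≤ N ^ (e + o(1))` -/
def Up (N : ℕ → ℝ) (e : ℝ) (f : ℕ → ℝ) : Prop :=
  ∀ η : ℝ, 0 < η → ∀ᶠ j in atTop, f j ≤ (N j) ^ (e + η)

/-- `f ≥ N ^ (e - o(1))` -/
def Lo (N : ℕ → ℝ) (e : ℝ) (f : ℕ → ℝ) : Prop :=
  ∀ η : ℝ, 0 < η → ∀ᶠ j in atTop, (N j) ^ (e - η) ≤ f j

variable {N f g : ℕ → ℝ} {e e' : ℝ}

theorem Up.mono (h : Up N e g) (hfg : ∀ᶠ j in atTop, f j ≤ g j) : Up N e f := by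
  intro η hη
  filter_upwards [h η hη, hfg] with j h1 h2
  exact h2.trans h1

theorem Lo.mono (h : Lo N e f) (hfg : ∀ᶠ j in atTop, f j ≤ g j) : Lo N e g := by
  intro η hη
  filter_upwards [h η hη, hfg] with j h1 h2
  exact h1.trans h2

theorem Up.mul (hN : Tendsto N atTop atTop) (hf : Up N e f) (hg : Up N e' g)
    (g0 : ∀ j, 0 ≤ g j) : Up N (e + e') (fun j => f j * g j) := by
  intro η hη
  filter_upwards [hf (η / 2) (by linarith), hg (η / 2) (by linarith),
    hN.eventually (eventually_gt_atTop 0)] with j h1 h2 h3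
  calc f j * g j ≤ (N j) ^ (e + η / 2) * (N j) ^ (e' + η / 2) :=
        mul_le_mul h1 h2 (g0 j) (Real.rpow_pos_of_pos h3 _).le
    _ = (N j) ^ (e + e' + η) := by
        rw [← Real.rpow_add h3]
        congr 1
        ring

theorem Up.const (hN : Tendsto N atTop atTop) (C : ℝ) : Up N 0 (fun _ => C) := by
  intro η hη
  have h1 := (tendsto_rpow_atTop hη).comp hN
  filter_upwards [h1.eventually (eventually_ge_atTop C)] with j hj
  simpa using hj

theorem Lo.const (hN : Tendsto N atTop atTop) {C : ℝ} (hC : 0 < C) : Lo N 0 (fun _ => C) := by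
  intro η hη
  have h1 := (tendsto_rpow_atTop hη).comp hN
  filter_upwards [h1.eventually (eventually_ge_atTop C⁻¹), hN.eventually (eventually_gt_atTop 0)]
    with j hj h3
  simp only [Function.comp] at hj
  rw [zero_sub, Real.rpow_neg h3.le]
  rw [inv_le_comm₀ (Real.rpow_pos_of_pos h3 _) hC]
  exact hj

theorem Up.cmul (hN : Tendsto N atTop atTop) (hf : Up N e f) {C : ℝ} (hC : 0 ≤ C) :
    Up N e (fun j => f j * C) := by
  have := hf.mul hN (Up.const hN C) (fun _ => hC)
  rwa [add_zero] at this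

theorem Up.div (hN : Tendsto N atTop atTop) (hf : Up N e f) (hg : Lo N e' g) :
    Up N (e - e') (fun j => f j / g j) := by
  intro η hη
  filter_upwards [hf (η / 2) (by linarith), hg (η / 2) (by linarith),
    hN.eventually (eventually_gt_atTop 0)] with j h1 h2 h3
  have h4 := Real.rpow_pos_of_pos h3 (e' - η / 2)
  calc f j / g j ≤ (N j) ^ (e + η / 2) / (N j) ^ (e' - η / 2) :=
        div_le_div₀ (Real.rpow_pos_of_pos h3 _).le h1 h4 h2
    _ = (N j) ^ (e - e' + η) := by
        rw [← Real.rpow_sub h3]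
        congr 1
        ring

theorem Lo.div (hN : Tendsto N atTop atTop) (hf : Lo N e f) (hg : Up N e' g)
    (g0 : ∀ᶠ j in atTop, 0 < g j) : Lo N (e - e') (fun j => f j / g j) := by
  intro η hη
  filter_upwards [hf (η / 2) (by linarith), hg (η / 2) (by linarith),
    hN.eventually (eventually_gt_atTop 0), g0] with j h1 h2 h3 h5
  have h4 := Real.rpow_pos_of_pos h3 (e - η / 2)
  calc (N j) ^ (e - e' - η) = (N j) ^ (e - η / 2) / (N j) ^ (e' + η / 2) := by
        rw [← Real.rpow_sub h3]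
        congr 1
        ring
    _ ≤ f j / g j := div_le_div₀ (h4.le.trans h1) h1 h5 h2

theorem Lo.mul (hN : Tendsto N atTop atTop) (hf : Lo N e f) (hg : Lo N e' g) :
    Lo N (e + e') (fun j => f j * g j) := by
  intro η hη
  filter_upwards [hf (η / 2) (by linarith), hg (η / 2) (by linarith),
    hN.eventually (eventually_gt_atTop 0)] with j h1 h2 h3
  have h4 := Real.rpow_pos_of_pos h3 (e - η / 2)
  have h5 := Real.rpow_pos_of_pos h3 (e' - η / 2)
  calc (N j) ^ (e + e' - η) = (N j) ^ (e - η / 2) * (N j) ^ (e' - η / 2) := by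
        rw [← Real.rpow_add h3]
        congr 1
        ring
    _ ≤ f j * g j := mul_le_mul h1 h2 h5.le (h4.le.trans h1)

theorem Lo.cmul (hN : Tendsto N atTop atTop) (hf : Lo N e f) {C : ℝ} (hC : 0 < C) :
    Lo N e (fun j => f j * C) := by
  have := hf.mul hN (Lo.const hN hC)
  rwa [add_zero] at this

theorem Up.add (hN : Tendsto N atTop atTop) (hf : Up N e f) (hg : Up N e g) :
    Up N e (fun j => f j + g j) := by
  intro η hη
  filter_upwards [hf (η / 2) (by linarith), hg (η / 2) (by linarith),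
    hN.eventually (eventually_gt_atTop 0), Up.const hN 2 (η / 2) (by linarith)] with j h1 h2 h3 h4
  calc f j + g j ≤ (N j) ^ (e + η / 2) * 2 := by linarith
    _ ≤ (N j) ^ (e + η / 2) * (N j) ^ (0 + η / 2) :=
        mul_le_mul_of_nonneg_left h4 (Real.rpow_pos_of_pos h3 _).le
    _ = (N j) ^ (e + η) := by
        rw [← Real.rpow_add h3]
        congr 1
        ring

theorem Up.congr_exp (h : Up N e f) (he : e = e') : Up N e' f := he ▸ h

theorem Lo.congr_exp (h : Lo N e f) (he : e = e') : Lo N e' f := he ▸ h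

theorem Lo.pos (hN : Tendsto N atTop atTop) (h : Lo N e f) : ∀ᶠ j in atTop, 0 < f j := by
  filter_upwards [h 1 one_pos, hN.eventually (eventually_gt_atTop 0)] with j h1 h2
  exact (Real.rpow_pos_of_pos h2 _).trans_le h1

theorem Up.not_lo (hN : Tendsto N atTop atTop) (h : Up N e f) (h' : Lo N e' f) (he : e < e') :
    False := by
  have hη : 0 < (e' - e) / 3 := by linarith
  obtain ⟨j, h1, h2, h3⟩ := ((h _ hη).and ((h' _ hη).and
    (hN.eventually (eventually_gt_atTop 1)))).exists
  have h4 : (N j) ^ (e + (e' - e) / 3) < (N j) ^ (e' - (e' - e) / 3) :=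
    Real.rpow_lt_rpow_of_exponent_lt h3 (by linarith)
  linarith

end Pool.Agent.Run7.h70.IHP
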