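import Mathlib

set_option autoImplicit false

/-! # Digits with respect to an irrational number: the one dimensional construction -/

open Filter Topology Finset

namespace Pool.Agent.Run7.h70.IHP

/-- denominators `q ≥ 2` of good approximations of `θ` -/
def Good (θ : ℝ) (q : ℕ) : Prop :=
  2 ≤ q ∧ ∃ p : ℤ, IsCoprime p (q : ℤ) ∧ |θ - (p : ℝ) / q| < 1 / (q : ℝ) ^ 2

theorem good_unbounded {θ : ℝ} (hθ : Irrational θ) (N : ℕ) : ∃ q, N ≤ q ∧ Good θ q := by
  by_contra hcon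
  push Not at hcon
  have hinf := Real.infinite_rat_abs_sub_lt_one_div_den_sq_of_irrational hθ
  apply hinf
  set M : ℕ := N + 2 with hM
  obtain ⟨K, hK⟩ := exists_nat_gt ((|θ| + 1) * M)
  refine Set.Finite.subset ((Finset.finite_toSet
    ((Finset.Icc (-(K : ℤ)) K ×ˢ Finset.range M).image
      (fun p : ℤ × ℕ => (p.1 : ℚ) / (p.2 : ℚ))))) ?_
  intro r hr
  replace hr : |θ - (r : ℝ)| < 1 / (r.den : ℝ) ^ 2 := hr
  have hden : r.den < M := by
    by_contra h
    push Not at h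
    refine hcon r.den (by omega) ⟨by omega, r.num, ?_, ?_⟩
    · rw [Int.isCoprime_iff_gcd_eq_one]
      have := r.reduced
      rwa [Nat.Coprime] at this
    · have e : ((r.num : ℝ) / (r.den : ℝ)) = (r : ℝ) := by
        exact_mod_cast Rat.num_div_den r
      rw [e]
      exact hr
  have hpos : (0 : ℝ) < r.den := by exact_mod_cast r.pos
  have h1 : (1 : ℝ) ≤ r.den := by exact_mod_cast r.pos
  have h2 : 1 / (r.den : ℝ) ^ 2 ≤ 1 := by
    rw [div_le_one (by positivity)]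
    nlinarith
  have h3 : |(r : ℝ)| ≤ |θ| + 1 := by
    have h4 : |(r : ℝ)| ≤ |θ| + |(r : ℝ) - θ| := by
      have := abs_add_le θ ((r : ℝ) - θ)
      simpa using this
    have h5 : |(r : ℝ) - θ| = |θ - (r : ℝ)| := abs_sub_comm _ _
    rw [h5] at h4
    linarith [hr.trans_le h2]
  have h4 : |(r.num : ℝ)| ≤ (|θ| + 1) * M := by
    have e : (r.num : ℝ) = (r : ℝ) * r.den := by
      exact_mod_cast (Rat.mul_den_eq_num r).symm
    rw [e, abs_mul, abs_of_pos hpos]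
    have : (r.den : ℝ) ≤ M := by exact_mod_cast hden.le
    exact mul_le_mul h3 this hpos.le (by positivity)
  have h5 : |r.num| ≤ (K : ℤ) := by
    have : ((|r.num| : ℤ) : ℝ) ≤ (K : ℝ) := by
      push_cast
      linarith
    exact_mod_cast this
  rw [Finset.mem_coe, Finset.mem_image]
  refine ⟨(r.num, r.den), ?_, Rat.num_div_den r⟩
  rw [Finset.mem_product, Finset.mem_Icc, Finset.mem_range]
  exact ⟨abs_le.mp h5, hden⟩

/-- one step of the expansion -/
theorem step {θ : ℝ} {q : ℕ} (h : Good θ q) (z : ℝ) :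
    ∃ m₁ m₂ : ℤ, ∃ z' : ℝ, |(m₁ : ℝ)| ≤ q ∧ (|z| ≤ 1 → |(m₂ : ℝ)| ≤ (|θ| + 3) * q) ∧ |z'| ≤ 1 ∧
      z = ((m₂ : ℝ) - θ * m₁) / q + 2 / (q : ℝ) ^ 2 * z' := by
  obtain ⟨hq, p, ⟨a, b, hab⟩, hp⟩ := h
  have hq0 : (0 : ℤ) < q := by omega
  have hqr : (2 : ℝ) ≤ q := by exact_mod_cast hq
  have hqp : (0 : ℝ) < q := by linarith
  set N : ℤ := ⌊z * (q : ℝ) ^ 2⌋ with hN
  set m₁ : ℤ := (-N * a) % q with hm
  have hm0 : 0 ≤ m₁ := Int.emod_nonneg _ hq0.ne'
  have hm1 : m₁ < q := Int.emod_lt_of_pos _ hq0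
  have hdvd : (q : ℤ) ∣ N + p * m₁ := by
    have h1 : (q : ℤ) ∣ (-N * a) - m₁ := Int.dvd_self_sub_emod
    have h2 : N + p * m₁ = q * (b * N) - p * ((-N * a) - m₁) := by
      have : N = (a * p + b * q) * N := by rw [hab, one_mul]
      linear_combination this
    rw [h2]
    exact dvd_sub (dvd_mul_right _ _) (h1.mul_left _)
  obtain ⟨m₂, hm₂⟩ := hdvd
  have hm₂' : (N : ℝ) + p * m₁ = q * m₂ := by exact_mod_cast hm₂
  have hm0' : (0 : ℝ) ≤ m₁ := by exact_mod_cast hm0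
  have hm1' : (m₁ : ℝ) < q := by exact_mod_cast hm1
  have hN1 : (N : ℝ) ≤ z * (q : ℝ) ^ 2 := Int.floor_le _
  have hN2 : z * (q : ℝ) ^ 2 < N + 1 := Int.lt_floor_add_one _
  have hp' : |θ * q ^ 2 - p * q| < 1 := by
    have e : θ * q ^ 2 - p * q = (θ - p / q) * (q : ℝ) ^ 2 := by
      field_simp
    rw [e, abs_mul, abs_of_pos (by positivity : (0 : ℝ) < (q : ℝ) ^ 2)]
    rwa [lt_div_iff₀ (by positivity)] at hp
  refine ⟨m₁, m₂, (z - ((m₂ : ℝ) - θ * m₁) / q) * (q : ℝ) ^ 2 / 2, ?_, ?_, ?_, ?_⟩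
  · rw [abs_of_nonneg hm0']; exact hm1'.le
  · intro hz
    have h1 : |(q : ℝ) * m₂| ≤ q ^ 2 + 1 + (|θ| * q + 1) * q := by
      rw [← hm₂']
      have h2 : |(N : ℝ)| ≤ q ^ 2 + 1 := by
        rw [abs_le] at hz ⊢
        have h3 : z * (q : ℝ) ^ 2 ≤ 1 * (q : ℝ) ^ 2 := mul_le_mul_of_nonneg_right hz.2 (by positivity)
        have h4 : -1 * (q : ℝ) ^ 2 ≤ z * (q : ℝ) ^ 2 := mul_le_mul_of_nonneg_right hz.1 (by positivity)
        constructor <;> nlinarith
      have h5 : |(p : ℝ)| ≤ |θ| * q + 1 := by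
        have h6 : |(p : ℝ) * q| ≤ |θ * q ^ 2| + 1 := by
          have h7 := abs_sub_abs_le_abs_sub ((p : ℝ) * q) (θ * q ^ 2)
          rw [abs_sub_comm] at h7
          linarith
        rw [abs_mul, abs_mul, abs_of_pos hqp, abs_of_pos (by positivity : (0 : ℝ) < (q : ℝ) ^ 2)] at h6
        by_contra h8
        push Not at h8
        have h9 : (|θ| * q + 1) * q < |(p : ℝ)| * q := mul_lt_mul_of_pos_right h8 hqp
        nlinarith
      calc |(N : ℝ) + p * m₁| ≤ |(N : ℝ)| + |(p : ℝ) * m₁| := abs_add_le _ _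
        _ ≤ q ^ 2 + 1 + (|θ| * q + 1) * q := by
            rw [abs_mul, abs_of_nonneg hm0']
            have : |(p : ℝ)| * m₁ ≤ (|θ| * q + 1) * q :=
              mul_le_mul h5 hm1'.le hm0' (by positivity)
            linarith
    rw [abs_mul, abs_of_pos hqp] at h1
    by_contra h2
    push Not at h2
    have h3 : q * ((|θ| + 3) * q) < q * |(m₂ : ℝ)| := mul_lt_mul_of_pos_left h2 hqp
    nlinarith
  · have e : (z - ((m₂ : ℝ) - θ * m₁) / q) * (q : ℝ) ^ 2
        = (z * (q : ℝ) ^ 2 - N) + (θ * q ^ 2 - p * q) * (m₁ / q) := by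
      have : (N : ℝ) = q * m₂ - p * m₁ := by linarith
      rw [this]
      field_simp
      ring
    rw [e, abs_div, abs_of_pos (by norm_num : (0 : ℝ) < 2), div_le_one (by norm_num)]
    have h1 : |z * (q : ℝ) ^ 2 - N| ≤ 1 := by
      rw [abs_le]; constructor <;> linarith
    have h2 : |(θ * q ^ 2 - p * q) * ((m₁ : ℝ) / q)| ≤ 1 := by
      rw [abs_mul]
      have h3 : |(m₁ : ℝ) / q| ≤ 1 := by
        rw [abs_div, abs_of_nonneg hm0', abs_of_pos hqp, div_le_one hqp]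
        exact hm1'.le
      calc |θ * (q : ℝ) ^ 2 - p * q| * |(m₁ : ℝ) / q| ≤ 1 * 1 :=
            mul_le_mul hp'.le h3 (abs_nonneg _) zero_le_one
        _ = 1 := one_mul 1
    calc |(z * (q : ℝ) ^ 2 - N) + (θ * q ^ 2 - p * q) * (m₁ / q)|
        ≤ |z * (q : ℝ) ^ 2 - N| + |(θ * q ^ 2 - p * q) * (m₁ / q)| := abs_add_le _ _
      _ ≤ 2 := by linarith
  · field_simp
    ring

/-- the denominators: they tend to infinity slowly -/
theorem exists_dens {θ : ℝ} (hθ : Irrational θ) :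
    ∃ (q : ℕ → ℕ) (Q : ℕ), (∀ i, Good θ (q i)) ∧ (∀ i, q i ≤ i + Q) ∧ Tendsto q atTop atTop := by
  classical
  obtain ⟨Q, _, hQ⟩ := good_unbounded hθ 0
  refine ⟨fun i => Nat.findGreatest (Good θ) (i + Q), Q, fun i => ?_, fun i => ?_, ?_⟩
  · exact Nat.findGreatest_spec (P := Good θ) (Nat.le_add_left Q i) hQ
  · exact Nat.findGreatest_le _
  · rw [tendsto_atTop]
    intro b
    obtain ⟨q, hq, hg⟩ := good_unbounded hθ b
    filter_upwards [eventually_ge_atTop q] with i hi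
    exact hq.trans (Nat.le_findGreatest (by omega) hg)

/-- the scales `κ_i` -/
noncomputable def kap (q : ℕ → ℕ) (i : ℕ) : ℝ := ∏ l ∈ range i, 2 / (q l : ℝ) ^ 2

theorem kap_succ (q : ℕ → ℕ) (i : ℕ) : kap q (i + 1) = kap q i * (2 / (q i : ℝ) ^ 2) := by
  rw [kap, prod_range_succ, kap]

theorem kap_pos {q : ℕ → ℕ} (h2 : ∀ i, 2 ≤ q i) (i : ℕ) : 0 < kap q i := by
  unfold kap
  refine prod_pos fun l _ => ?_
  have : (2 : ℝ) ≤ q l := by exact_mod_cast h2 l
  positivity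

theorem kap_step {q : ℕ → ℕ} (h2 : ∀ i, 2 ≤ q i) (i : ℕ) : kap q (i + 1) ≤ kap q i * (1 / 2) := by
  rw [kap_succ]
  refine mul_le_mul_of_nonneg_left ?_ (kap_pos h2 i).le
  have : (2 : ℝ) ≤ q i := by exact_mod_cast h2 i
  rw [div_le_div_iff₀ (by positivity) (by norm_num)]
  nlinarith

theorem kap_add {q : ℕ → ℕ} (h2 : ∀ i, 2 ≤ q i) (i l : ℕ) :
    kap q (l + i) ≤ kap q i * (1 / 2) ^ l := by
  induction l with
  | zero => simp
  | succ l ih =>
    have := kap_step h2 (l + i)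
    rw [show l + 1 + i = l + i + 1 by ring, pow_succ]
    linarith

theorem kap_tendsto {q : ℕ → ℕ} (h2 : ∀ i, 2 ≤ q i) : Tendsto (kap q) atTop (𝓝 0) := by
  refine squeeze_zero (fun i => (kap_pos h2 i).le) (fun i => ?_)
    (tendsto_pow_atTop_nhds_zero_of_lt_one (r := (1 / 2 : ℝ)) (by norm_num) (by norm_num))
  have := kap_add h2 0 i
  simpa [kap] using this

/-- growth of the number of the partial sums -/
theorem growth {q : ℕ → ℕ} {Q : ℕ} (h2 : ∀ i, 2 ≤ q i) (hQ : ∀ i, q i ≤ i + Q)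
    (ht : Tendsto q atTop atTop) {K : ℝ} (hK : 1 ≤ K) {ε : ℝ} (hε : 0 < ε) :
    ∃ C : ℝ, 0 < C ∧ ∀ i, ∏ l ∈ range (i + 1), K * (q l : ℝ) ≤ C * kap q i ^ (-(1 / 2 + ε)) := by
  have hq0 : ∀ i, (0 : ℝ) < q i := fun i => by
    have := h2 i
    exact_mod_cast (by omega : 0 < q i)
  -- the inequality for one large factor
  have hev : ∀ᶠ l in atTop, 2 * (K * (q l : ℝ)) ≤ (2 / (q l : ℝ) ^ 2) ^ (-(1 / 2 + ε)) := by
    have h1 : Tendsto (fun x : ℝ => x ^ (2 * ε)) atTop atTop := tendsto_rpow_atTop (by linarith)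
    have h3 : Tendsto (fun l => ((q l : ℕ) : ℝ)) atTop atTop := tendsto_natCast_atTop_atTop.comp ht
    have h4 := (h1.comp h3).eventually (eventually_ge_atTop (2 * K * (2 : ℝ) ^ (1 / 2 + ε)))
    filter_upwards [h4] with l hl
    simp only [Function.comp] at hl
    have e : (2 / (q l : ℝ) ^ 2) ^ (-(1 / 2 + ε)) =
        (q l : ℝ) * (q l : ℝ) ^ (2 * ε) / (2 : ℝ) ^ (1 / 2 + ε) := by
      rw [Real.rpow_neg (by positivity), Real.div_rpow (by norm_num) (by positivity), inv_div]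
      congr 1
      rw [← Real.rpow_natCast, ← Real.rpow_mul (hq0 l).le, ← Real.rpow_one_add' (hq0 l).le (by positivity)]
      congr 1
      push_cast
      ring
    rw [e, le_div_iff₀ (by positivity)]
    calc 2 * (K * (q l : ℝ)) * (2 : ℝ) ^ (1 / 2 + ε)
        = q l * (2 * K * (2 : ℝ) ^ (1 / 2 + ε)) := by ring
      _ ≤ q l * (q l : ℝ) ^ (2 * ε) := mul_le_mul_of_nonneg_left hl (hq0 l).le
  obtain ⟨l₀, hl₀⟩ := eventually_atTop.mp hev
  -- the normalised products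
  set R : ℕ → ℝ := fun i => 2 ^ i * (∏ l ∈ range i, K * (q l : ℝ)) * kap q i ^ (1 / 2 + ε) with hR
  have hKq : ∀ l, 0 < K * (q l : ℝ) := fun l => mul_pos (by linarith) (hq0 l)
  have hRpos : ∀ i, 0 < R i := fun i => by
    have h5 : 0 < ∏ l ∈ range i, K * (q l : ℝ) := prod_pos fun l _ => hKq l
    have h6 := Real.rpow_pos_of_pos (kap_pos h2 i) (1 / 2 + ε)
    positivity
  have hstep : ∀ i, l₀ ≤ i → R (i + 1) ≤ R i := by
    intro i hi
    have h5 := hl₀ i hi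
    have h6 : 0 < 2 / (q i : ℝ) ^ 2 := by
      have := hq0 i
      positivity
    have h7 : 2 * (K * (q i : ℝ)) * (2 / (q i : ℝ) ^ 2) ^ (1 / 2 + ε) ≤ 1 := by
      have h8 := mul_le_mul_of_nonneg_right h5 (Real.rpow_pos_of_pos h6 (1 / 2 + ε)).le
      rwa [← Real.rpow_add h6, neg_add_cancel, Real.rpow_zero] at h8
    have e : R (i + 1) = R i * (2 * (K * (q i : ℝ)) * (2 / (q i : ℝ) ^ 2) ^ (1 / 2 + ε)) := by
      simp only [hR]
      rw [pow_succ, prod_range_succ, kap_succ, Real.mul_rpow (kap_pos h2 i).le h6.le]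
      ring
    rw [e]
    calc R i * _ ≤ R i * 1 := mul_le_mul_of_nonneg_left h7 (hRpos i).le
      _ = R i := mul_one _
  have hbound : ∀ i, R i ≤ ∑ j ∈ range (l₀ + 1), R j := by
    intro i
    rcases le_or_gt i l₀ with h | h
    · exact single_le_sum (f := R) (fun j _ => (hRpos j).le) (mem_range.mpr (by omega))
    · have h9 : ∀ j, R (l₀ + j) ≤ R l₀ := by
        intro j
        induction j with
        | zero => simp
        | succ j ih => exact (hstep (l₀ + j) (by omega)).trans ih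
      have h10 := h9 (i - l₀)
      rw [show l₀ + (i - l₀) = i by omega] at h10
      exact h10.trans (single_le_sum (f := R) (fun j _ => (hRpos j).le) (mem_range.mpr (by omega)))
  set C₁ : ℝ := ∑ j ∈ range (l₀ + 1), R j with hC₁
  have hC₁pos : 0 < C₁ := sum_pos (fun j _ => hRpos j) ⟨0, mem_range.mpr (by omega)⟩
  refine ⟨K * (1 + Q) * C₁, by positivity, fun i => ?_⟩
  have h11 : ∏ l ∈ range i, K * (q l : ℝ) ≤ C₁ * kap q i ^ (-(1 / 2 + ε)) / 2 ^ i := by
    rw [le_div_iff₀ (by positivity), Real.rpow_neg (kap_pos h2 i).le, ← div_eq_mul_inv,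
      le_div_iff₀ (Real.rpow_pos_of_pos (kap_pos h2 i) _)]
    calc (∏ l ∈ range i, K * (q l : ℝ)) * 2 ^ i * kap q i ^ (1 / 2 + ε) = R i := by
          simp only [hR]; ring
      _ ≤ C₁ := hbound i
  have h12 : (q i : ℝ) ≤ (1 + Q) * 2 ^ i := by
    have h13 : (q i : ℝ) ≤ i + Q := by exact_mod_cast hQ i
    have h14 : (i : ℝ) ≤ 2 ^ i := by exact_mod_cast (Nat.lt_two_pow_self).le
    have h15 : (1 : ℝ) ≤ 2 ^ i := one_le_pow₀ (by norm_num)
    have h16 : (Q : ℝ) ≤ Q * 2 ^ i := le_mul_of_one_le_right (by positivity) h15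
    linarith
  rw [prod_range_succ]
  have hk := Real.rpow_pos_of_pos (kap_pos h2 i) (-(1 / 2 + ε))
  calc (∏ l ∈ range i, K * (q l : ℝ)) * (K * (q i : ℝ))
      ≤ (C₁ * kap q i ^ (-(1 / 2 + ε)) / 2 ^ i) * (K * ((1 + Q) * 2 ^ i)) := by
        refine mul_le_mul h11 (mul_le_mul_of_nonneg_left h12 (by linarith)) (hKq i).le (by positivity)
    _ = K * (1 + Q) * C₁ * kap q i ^ (-(1 / 2 + ε)) := by
        field_simp

end Pool.Agent.Run7.h70.IHP
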