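import Pool.Agent.Run7.h70.IHP.Field

set_option autoImplicit false

/-! # Patterns -/

open Filter Topology Finset

namespace Pool.Agent.Run7.h70.IHP

/-- `B` contains the pattern `a + t r`, `t ∈ T`, for every `r ∈ R`. -/
def HasPattern {n : ℕ} (T : Set ℝ) (R B : Set (E n)) : Prop :=
  ∀ r ∈ R, ∃ a : E n, ∀ t ∈ T, a + t • r ∈ B

/-- the Minkowski exponent of a pattern -/
noncomputable def fM (T : Set ℝ) (n : ℕ) : EReal :=
  ⨅ (B : Set (E n)) (_ : Bornology.IsBounded B) (_ : HasPattern T (cube n) B), upperMinkowski B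

/-- the packing exponent of a pattern -/
noncomputable def fP (T : Set ℝ) (n : ℕ) : EReal :=
  ⨅ (B : Set (E n)) (_ : Bornology.IsBounded B) (_ : HasPattern T (cube n) B), packingDim B

theorem fP_le_fM (T : Set ℝ) (n : ℕ) : fP T n ≤ fM T n := by
  unfold fP fM
  exact iInf_mono fun B => iInf_mono fun hB => iInf_mono fun _ => packingDim_le hB

theorem le_fP {T : Set ℝ} {t₁ t₂ : ℝ} (h₁ : t₁ ∈ T) (h₂ : t₂ ∈ T) (hne : t₁ ≠ t₂) (n : ℕ) :
    ((n / 2 : ℝ) : EReal) ≤ fP T n := by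
  unfold fP
  refine le_iInf fun B => le_iInf fun _ => le_iInf fun h => ?_
  refine lower hne fun r hr => ?_
  obtain ⟨a, ha⟩ := h r hr
  exact ⟨a, ha _ h₁, ha _ h₂⟩

/-- infinite patterns -/
theorem infinite_pattern (K : IntermediateField ℚ ℝ) [FiniteDimensional ℚ K] {θ : ℝ} (hθ : θ ∉ K)
    (n : ℕ) : ∃ B : Set (E n), packingDim B ≤ ((n / 2 : ℝ) : EReal) ∧
      ∀ r : E n, ∃ a : E n, ∀ u ∈ K, ∀ v ∈ K, (u, v) ≠ 0 → a + (v / (u + θ * v)) • r ∈ B := by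
  have := NF.countable_idx K
  obtain ⟨B, hB, hr⟩ := (NF.lines K hθ).infinite n
  refine ⟨B, hB, fun r => (hr r).imp fun a ha u hu v hv hne => ?_⟩
  exact ha ⟨(u, v), hu, hv, hne⟩

/-- finite patterns -/
theorem finite_pattern (K : IntermediateField ℚ ℝ) [FiniteDimensional ℚ K] (T : Finset ℝ)
    {t₀ t₁ t₂ : ℝ} (h₁ : t₁ ≠ t₀) (h₂ : t₂ ≠ t₁) (h₃ : t₂ ≠ t₀)
    (hρ : (t₂ - t₀) / (t₁ - t₀) ∉ K)
    (hc : ∀ t ∈ T, t ≠ t₁ → ((t - t₀) * (t₂ - t₁)) / ((t - t₁) * (t₂ - t₀)) ∈ K) (n : ℕ) :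
    ∃ B : Set (E n), Bornology.IsBounded B ∧ HasPattern T (cube n) B ∧
      upperMinkowski B ≤ ((n / 2 : ℝ) : EReal) := by
  classical
  -- the affine normalisation
  set ρ : ℝ := (t₂ - t₀) / (t₁ - t₀) with hρd
  set ν : ℝ := (t₂ - t₁) / (t₂ - t₀) with hν
  have d10 : t₁ - t₀ ≠ 0 := sub_ne_zero.mpr h₁
  have d21 : t₂ - t₁ ≠ 0 := sub_ne_zero.mpr h₂
  have d20 : t₂ - t₀ ≠ 0 := sub_ne_zero.mpr h₃
  have hρ0 : ρ ≠ 0 := div_ne_zero d20 d10
  have hνρ : ν = 1 - ρ⁻¹ := by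
    rw [hν, hρd]
    field_simp
    ring
  have hθ : -ν ∉ K := by
    intro h
    apply hρ
    have h4 : ν ∈ K := by
      have := K.neg_mem h
      rwa [neg_neg] at this
    have h5 : ρ⁻¹ ∈ K := by
      have h6 : ρ⁻¹ = 1 - ν := by rw [hνρ]; ring
      rw [h6]
      exact K.sub_mem K.one_mem h4
    have := K.inv_mem h5
    rwa [inv_inv] at this
  -- the index of a time
  have hidx : ∀ t : ℝ, ∃ p : NF.Idx K, t ∈ T →
      t = t₁ + ((t₁ - t₀) * ν) * NF.time K (-ν) p := by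
    intro t
    by_cases ht : t ∈ T
    · by_cases h1 : t = t₁
      · refine ⟨⟨(1, 0), K.one_mem, K.zero_mem, fun h => one_ne_zero (congrArg Prod.fst h)⟩,
          fun _ => ?_⟩
        simp [NF.time, h1]
      · have hcK := hc t ht h1
        refine ⟨⟨(((t - t₀) * (t₂ - t₁)) / ((t - t₁) * (t₂ - t₀)), 1), hcK, K.one_mem,
          fun h => one_ne_zero (congrArg Prod.snd h)⟩, fun _ => ?_⟩
        have d : t - t₁ ≠ 0 := sub_ne_zero.mpr h1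
        simp only [NF.time]
        have e1 : ((t - t₀) * (t₂ - t₁)) / ((t - t₁) * (t₂ - t₀)) + -ν * 1 =
            ((t₁ - t₀) * (t₂ - t₁)) / ((t - t₁) * (t₂ - t₀)) := by
          rw [hν]
          field_simp
          ring
        rw [e1, hν]
        field_simp
        ring
    · exact ⟨Classical.arbitrary _, fun h => absurd h ht⟩
  choose p hp using hidx
  have hl := (((NF.lines K hθ).affine t₁ ((t₁ - t₀) * ν)).comp p)
  obtain ⟨B, hB1, hB2, hB3⟩ := hl.finite n T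
  refine ⟨B, hB1, fun r hr => ?_, hB2⟩
  obtain ⟨a, ha⟩ := hB3 r hr
  refine ⟨a, fun t ht => ?_⟩
  have h6 := ha t ht
  rwa [← hp t ht] at h6

theorem finite_value (K : IntermediateField ℚ ℝ) [FiniteDimensional ℚ K] (T : Finset ℝ)
    {t₀ t₁ t₂ : ℝ} (m₀ : t₀ ∈ T) (m₁ : t₁ ∈ T) (h₁ : t₁ ≠ t₀) (h₂ : t₂ ≠ t₁) (h₃ : t₂ ≠ t₀)
    (hρ : (t₂ - t₀) / (t₁ - t₀) ∉ K)
    (hc : ∀ t ∈ T, t ≠ t₁ → ((t - t₀) * (t₂ - t₁)) / ((t - t₁) * (t₂ - t₀)) ∈ K) (n : ℕ) :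
    fP T n = ((n / 2 : ℝ) : EReal) ∧ fM T n = ((n / 2 : ℝ) : EReal) ∧
      ∃ B : Set (E n), Bornology.IsBounded B ∧ HasPattern T (cube n) B ∧
        upperMinkowski B = ((n / 2 : ℝ) : EReal) := by
  obtain ⟨B, hB1, hB2, hB3⟩ := finite_pattern K T h₁ h₂ h₃ hρ hc n
  have l1 := le_fP (T := (T : Set ℝ)) (Finset.mem_coe.mpr m₁) (Finset.mem_coe.mpr m₀) h₁ n
  have l2 := fP_le_fM (T : Set ℝ) n
  have l3 : fM T n ≤ upperMinkowski B := by
    unfold fM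
    exact iInf_le_of_le B (iInf_le_of_le hB1 (iInf_le_of_le hB2 le_rfl))
  exact ⟨le_antisymm ((l2.trans l3).trans hB3) l1, le_antisymm (l3.trans hB3) (l1.trans l2),
    B, hB1, hB2, le_antisymm hB3 ((l1.trans l2).trans l3)⟩

end Pool.Agent.Run7.h70.IHP
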