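import Pool.Agent.Run7.h84.US.Neg

set_option autoImplicit false

/-! # Finite sets which are almost closed under finitely many operations of a field -/

open Filter Topology Finset

namespace Pool.Agent.Run7.h70.IHP

open Pool.Agent.Run7.h84.US (PV pv_step pv_mono pv_finite card_pv_le two_le_pv)

theorem slow_growth (k : ℕ) {ε : ℝ} (hε : 0 < ε) (N : ℕ → ℕ) (h2 : ∀ j, 1 ≤ j → 2 ≤ N j)
    (hN : ∀ j, N j ≤ (2 ^ j) ^ ((j + 1) ^ k)) :
    ∃ j, 1 ≤ j ∧ (N (j + 4) : ℝ) ≤ (N j : ℝ) ^ (1 + ε) := by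
  by_contra hcon
  push Not at hcon
  have hpos : ∀ j, 1 ≤ j → (0 : ℝ) < N j := fun j hj => by
    have := h2 j hj
    exact_mod_cast (by omega : 0 < N j)
  have hlog : ∀ i : ℕ, (1 + ε) ^ i * Real.log 2 ≤ Real.log (N (1 + 4 * i)) := by
    intro i
    induction i with
    | zero =>
      rw [pow_zero, one_mul]
      exact Real.log_le_log (by norm_num) (by exact_mod_cast h2 1 le_rfl)
    | succ i ih =>
      have h3 := hcon (1 + 4 * i) (by omega)
      have h4 := Real.log_le_log (Real.rpow_pos_of_pos (hpos _ (by omega)) _) h3.le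
      rw [Real.log_rpow (hpos _ (by omega))] at h4
      have e : 1 + 4 * (i + 1) = 1 + 4 * i + 4 := by ring
      rw [e, pow_succ]
      calc (1 + ε) ^ i * (1 + ε) * Real.log 2 = (1 + ε) * ((1 + ε) ^ i * Real.log 2) := by ring
        _ ≤ (1 + ε) * Real.log (N (1 + 4 * i)) := mul_le_mul_of_nonneg_left ih (by linarith)
        _ ≤ _ := h4
  have hup : ∀ i : ℕ, Real.log (N (1 + 4 * i)) ≤ ((i : ℝ) + 1) ^ (k + 1) * 4 ^ (k + 1) := by
    intro i
    have h3 : (N (1 + 4 * i) : ℝ) ≤ (2 ^ (1 + 4 * i)) ^ ((1 + 4 * i + 1) ^ k) := by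
      exact_mod_cast hN (1 + 4 * i)
    have h4 := Real.log_le_log (hpos _ (by omega)) h3
    rw [Real.log_pow, Real.log_pow] at h4
    have h5 : Real.log 2 ≤ 1 := by
      have := Real.log_two_lt_d9
      linarith
    have h6 : (0 : ℝ) ≤ Real.log 2 := Real.log_nonneg (by norm_num)
    refine h4.trans ?_
    push_cast
    have h7 : ((1 : ℝ) + 4 * i + 1) ≤ (i + 1) * 4 := by
      have : (0 : ℝ) ≤ i := Nat.cast_nonneg i
      linarith
    have h8 : ((1 : ℝ) + 4 * i) ≤ (i + 1) * 4 := by linarith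
    have h0 : (0 : ℝ) ≤ (i : ℝ) := Nat.cast_nonneg i
    calc ((1 : ℝ) + 4 * i + 1) ^ k * ((1 + 4 * i) * Real.log 2)
        ≤ (((i : ℝ) + 1) * 4) ^ k * (((i + 1) * 4) * 1) := by
          refine mul_le_mul (pow_le_pow_left₀ (by positivity) h7 _)
            (mul_le_mul h8 h5 h6 (by positivity)) (by positivity) (by positivity)
      _ = ((i : ℝ) + 1) ^ (k + 1) * 4 ^ (k + 1) := by rw [mul_one, ← pow_succ, mul_pow]
  have hlim := tendsto_pow_const_div_const_pow_of_one_lt (k + 1) (r := 1 + ε) (by linarith)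
  have hl2 : (0 : ℝ) < Real.log 2 := Real.log_pos (by norm_num)
  set c : ℝ := Real.log 2 / (4 ^ (k + 1) * (1 + ε)) / 2 with hc
  have hc0 : 0 < c := by positivity
  have h9 := (hlim.comp (tendsto_add_atTop_nat 1)).eventually (gt_mem_nhds hc0)
  obtain ⟨i, hi⟩ := h9.exists
  simp only [Function.comp] at hi
  rw [div_lt_iff₀ (by positivity)] at hi
  have h10 := (hlog i).trans (hup i)
  push_cast at hi
  have h11 : ((i : ℝ) + 1) ^ (k + 1) * 4 ^ (k + 1) < c * (1 + ε) ^ (i + 1) * 4 ^ (k + 1) :=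
    mul_lt_mul_of_pos_right hi (by positivity)
  have h12 : c * (1 + ε) ^ (i + 1) * 4 ^ (k + 1) = (1 + ε) ^ i * Real.log 2 / 2 := by
    rw [hc]
    field_simp
    ring
  have h13 : (0 : ℝ) < (1 + ε) ^ i * Real.log 2 := by positivity
  linarith

theorem exists_P (K : Subfield ℝ) (Q : Finset (ℝ × ℝ)) (hQ : ∀ q ∈ Q, q.1 ∈ K ∧ q.2 ∈ K)
    {ε : ℝ} (hε : 0 < ε) :
    ∃ P : Finset ℝ, 2 ≤ P.card ∧ (∀ x ∈ P, x ∈ K) ∧ ∀ q ∈ Q,
      ((((P ×ˢ P) ×ˢ (P ×ˢ P)).image
        (fun p => q.1 * (p.1.1 - p.1.2) + q.2 * (p.2.1 - p.2.2))).card : ℝ) ≤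
        (P.card : ℝ) ^ (1 + ε) := by
  classical
  set G : Finset ℝ := Q.image (fun q => q.1) ∪ Q.image (fun q => -q.1) ∪
    (Q.image (fun q => q.2) ∪ Q.image (fun q => -q.2)) with hG
  set μ : Fin G.card → ℝ := fun i => (G.equivFin.symm i : ℝ) with hμ
  have hidx : ∀ g ∈ G, ∃ i, μ i = g := fun g hg =>
    ⟨G.equivFin ⟨g, hg⟩, by simp only [hμ, Equiv.symm_apply_apply]⟩
  have hGK : ∀ g ∈ G, g ∈ K := by
    intro g hg
    simp only [hG, mem_union, mem_image] at hg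
    rcases hg with (⟨q, hq, rfl⟩ | ⟨q, hq, rfl⟩) | (⟨q, hq, rfl⟩ | ⟨q, hq, rfl⟩)
    · exact (hQ q hq).1
    · exact neg_mem (hQ q hq).1
    · exact (hQ q hq).2
    · exact neg_mem (hQ q hq).2
  have hμK : ∀ i, μ i ∈ K := fun i => hGK _ (G.equivFin.symm i).2
  set N : ℕ → ℕ := fun j => (PV μ j).ncard with hN
  obtain ⟨j, hj1, hj⟩ := slow_growth G.card hε N (fun j hj =>
    (two_le_pv μ).trans (Set.ncard_le_ncard (pv_mono μ hj) (pv_finite μ j)))
    (fun j => card_pv_le μ j)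
  have hcard : (pv_finite μ j).toFinset.card = N j :=
    (Set.ncard_eq_toFinset_card _ (pv_finite μ j)).symm
  refine ⟨(pv_finite μ j).toFinset, ?_, ?_, ?_⟩
  · rw [hcard]
    exact (two_le_pv μ).trans (Set.ncard_le_ncard (pv_mono μ hj1) (pv_finite μ j))
  · intro x hx
    rw [Set.Finite.mem_toFinset] at hx
    obtain ⟨p, _, rfl⟩ := hx
    simp only
    rw [MvPolynomial.aeval_def, MvPolynomial.eval₂_eq']
    refine sum_mem fun d _ => mul_mem ?_ (prod_mem fun i _ => pow_mem (hμK i) _)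
    exact natCast_mem K _
  · intro q hq
    rw [hcard]
    refine le_trans ?_ hj
    rw [hN]
    simp only
    rw [Set.ncard_eq_toFinset_card _ (pv_finite μ (j + 4))]
    refine Nat.cast_le.mpr (card_le_card ?_)
    intro v hv
    obtain ⟨p, hp, rfl⟩ := mem_image.mp hv
    rw [mem_product, mem_product, mem_product] at hp
    obtain ⟨⟨h1, h2⟩, h3, h4⟩ := hp
    rw [Set.Finite.mem_toFinset] at h1 h2 h3 h4 ⊢
    obtain ⟨i1, hi1⟩ := hidx q.1 (by simp only [hG, mem_union, mem_image]; exact Or.inl (Or.inl ⟨q, hq, rfl⟩))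
    obtain ⟨i2, hi2⟩ := hidx (-q.1) (by simp only [hG, mem_union, mem_image]; exact Or.inl (Or.inr ⟨q, hq, rfl⟩))
    obtain ⟨i3, hi3⟩ := hidx q.2 (by simp only [hG, mem_union, mem_image]; exact Or.inr (Or.inl ⟨q, hq, rfl⟩))
    obtain ⟨i4, hi4⟩ := hidx (-q.2) (by simp only [hG, mem_union, mem_image]; exact Or.inr (Or.inr ⟨q, hq, rfl⟩))
    have hzero : (0 : ℝ) ∈ PV μ j := ⟨0, fun m => by simp, by simp⟩
    have a1 := pv_step μ j i1 hzero h1
    have a2 := pv_step μ (j + 1) i2 a1 (pv_mono μ (by omega) h2)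
    have a3 := pv_step μ (j + 1 + 1) i3 a2 (pv_mono μ (by omega) h3)
    have a4 := pv_step μ (j + 1 + 1 + 1) i4 a3 (pv_mono μ (by omega) h4)
    rw [hi1, hi2, hi3, hi4] at a4
    have e : q.1 * (p.1.1 - p.1.2) + q.2 * (p.2.1 - p.2.2) =
        0 + q.1 * p.1.1 + -q.1 * p.1.2 + q.2 * p.2.1 + -q.2 * p.2.2 := by ring
    rw [e]
    exact a4

end Pool.Agent.Run7.h70.IHP
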