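import Pool.Agent.Run7.h70.IHP.NFLine

set_option autoImplicit false

/-! # The family of times attached to a real number field and a number outside of it -/

open Filter Topology Finset

namespace Pool.Agent.Run7.h70.IHP.NF

theorem ell_smul {D : ℕ} (ω : Fin D → ℝ) (c : ℤ) (a : Fin D → ℤ) :
    ell ω (fun i => c * a i) = c * ell ω a := by
  simp only [ell, mul_sum]
  refine sum_congr rfl fun i _ => ?_
  push_cast
  ring

theorem mulvec {K : Set ℝ} (F : Frame K) {u : ℝ} (hu : u ∈ K) :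
    ∃ (w : ℕ) (M : Fin F.D → Fin F.D → ℤ), 0 < w ∧
      ∀ m : Fin F.D → ℤ, (w : ℝ) * u * ell F.ω m = ell F.ω (fun j => ∑ i, m i * M i j) := by
  obtain ⟨w, M, hw, h⟩ := F.mul u hu
  refine ⟨w, M, hw, fun m => ?_⟩
  unfold ell
  rw [mul_sum]
  have h1 : ∀ i, (w : ℝ) * u * ((m i : ℝ) * F.ω i) = ∑ j, (m i : ℝ) * (M i j : ℝ) * F.ω j := by
    intro i
    calc (w : ℝ) * u * ((m i : ℝ) * F.ω i) = (m i : ℝ) * ((w : ℝ) * u * F.ω i) := by ring
      _ = _ := by rw [h i, mul_sum]; exact sum_congr rfl fun j _ => by ring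
  rw [sum_congr rfl fun i _ => h1 i, sum_comm]
  refine sum_congr rfl fun j _ => ?_
  push_cast
  rw [sum_mul]

/-- the values of `w (u x + v y)` -/
theorem combine {K : Set ℝ} (F : Frame K) {θ A : ℝ} {L : ℕ → ℕ} (S : Seq F θ A L) {u v : ℝ}
    (hu : u ∈ K) (hv : v ∈ K) :
    ∃ (w : ℕ) (B : ℝ), 0 < w ∧ 1 ≤ B ∧ ∀ m₁ m₂ : ℕ → Fin F.D → ℤ,
      (∀ l i, |(m₁ l i : ℝ)| ≤ A * L l) → (∀ l i, |(m₂ l i : ℝ)| ≤ A * L l) →
      (w : ℝ) * (u * val F A L m₁ + v * val F A L m₂) ∈ sums F A L B := by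
  obtain ⟨wu, Mu, hwu, hmu⟩ := mulvec F hu
  obtain ⟨wv, Mv, hwv, hmv⟩ := mulvec F hv
  have hA := S.hA
  set T : ℝ := ∑ i, ∑ j, ((wv : ℝ) * |(Mu i j : ℝ)| + wu * |(Mv i j : ℝ)|) with hT
  have hT0 : 0 ≤ T := sum_nonneg fun i _ => sum_nonneg fun j _ => by positivity
  refine ⟨wu * wv, A * T + 1, Nat.mul_pos hwu hwv, by nlinarith, fun m₁ m₂ h1 h2 => ?_⟩
  set m' : ℕ → Fin F.D → ℤ := fun l =>
    (fun j => (wv : ℤ) * ∑ i, m₁ l i * Mu i j) + (fun j => (wu : ℤ) * ∑ i, m₂ l i * Mv i j) with hm'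
  refine ⟨m', fun l j => ?_, ?_⟩
  · have hL : (1 : ℝ) ≤ L l := by exact_mod_cast S.hL l
    have e1 : (m' l j : ℝ) = ∑ i, ((wv : ℝ) * ((m₁ l i : ℝ) * Mu i j) +
        (wu : ℝ) * ((m₂ l i : ℝ) * Mv i j)) := by
      simp only [hm', Pi.add_apply]
      push_cast
      rw [mul_sum, mul_sum, ← sum_add_distrib]
    rw [e1]
    calc |∑ i, ((wv : ℝ) * ((m₁ l i : ℝ) * Mu i j) + (wu : ℝ) * ((m₂ l i : ℝ) * Mv i j))|
        ≤ ∑ i, |(wv : ℝ) * ((m₁ l i : ℝ) * Mu i j) + (wu : ℝ) * ((m₂ l i : ℝ) * Mv i j)| :=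
          abs_sum_le_sum_abs _ _
      _ ≤ ∑ i, ((wv : ℝ) * |(Mu i j : ℝ)| + wu * |(Mv i j : ℝ)|) * (A * L l) := by
          refine sum_le_sum fun i _ => (abs_add_le _ _).trans ?_
          have a1 : |(wv : ℝ) * ((m₁ l i : ℝ) * Mu i j)| =
              wv * (|(m₁ l i : ℝ)| * |(Mu i j : ℝ)|) := by
            rw [abs_mul, abs_mul, abs_of_nonneg (Nat.cast_nonneg wv : (0 : ℝ) ≤ wv)]
          have a2 : |(wu : ℝ) * ((m₂ l i : ℝ) * Mv i j)| =
              wu * (|(m₂ l i : ℝ)| * |(Mv i j : ℝ)|) := by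
            rw [abs_mul, abs_mul, abs_of_nonneg (Nat.cast_nonneg wu : (0 : ℝ) ≤ wu)]
          rw [a1, a2]
          have g1 := mul_le_mul_of_nonneg_right (h1 l i)
            (by positivity : (0 : ℝ) ≤ wv * |(Mu i j : ℝ)|)
          have g2 := mul_le_mul_of_nonneg_right (h2 l i)
            (by positivity : (0 : ℝ) ≤ wu * |(Mv i j : ℝ)|)
          nlinarith
      _ ≤ T * (A * L l) := by
          rw [← sum_mul]
          refine mul_le_mul_of_nonneg_right ?_ (by positivity)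
          refine sum_le_sum fun i _ => ?_
          exact single_le_sum (f := fun j => ((wv : ℝ) * |(Mu i j : ℝ)| + wu * |(Mv i j : ℝ)|))
            (fun j _ => by positivity) (mem_univ j)
      _ ≤ (A * T + 1) * L l := by nlinarith
  · have e2 : ∀ l, ell F.ω (m' l) / L l =
        ((wu * wv : ℕ) : ℝ) * (u * (ell F.ω (m₁ l) / L l) + v * (ell F.ω (m₂ l) / L l)) := by
      intro l
      simp only [hm']
      rw [ell_add, ell_smul, ell_smul, ← hmu, ← hmv]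
      push_cast
      ring
    unfold val ser
    simp only [e2]
    rw [← tsum_mul_left, ← tsum_mul_left,
      ← Summable.tsum_add ((summable_ser S.fast (digit_le S h1)).mul_left _)
        ((summable_ser S.fast (digit_le S h2)).mul_left _), ← tsum_mul_left]
    exact tsum_congr fun l => by ring

/-- the times `v / (u + θ v)` for `u, v ∈ K`, not both zero -/
def Idx (K : IntermediateField ℚ ℝ) : Type := {p : ℝ × ℝ // p.1 ∈ K ∧ p.2 ∈ K ∧ p ≠ 0}

/-- the time of an index -/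
noncomputable def time (K : IntermediateField ℚ ℝ) (θ : ℝ) (p : Idx K) : ℝ :=
  p.1.2 / (p.1.1 + θ * p.1.2)

theorem denom_ne (K : IntermediateField ℚ ℝ) {θ : ℝ} (hθ : θ ∉ K) {u v : ℝ} (hu : u ∈ K)
    (hv : v ∈ K) (hne : (u, v) ≠ 0) : u + θ * v ≠ 0 := by
  intro h
  by_cases hv0 : v = 0
  · rw [hv0, mul_zero, add_zero] at h
    exact hne (by rw [h, hv0]; rfl)
  · apply hθ
    have h1 : θ = -u / v := by
      rw [eq_div_iff hv0]
      linarith
    rw [h1]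
    exact K.div_mem (K.neg_mem hu) hv

theorem lines (K : IntermediateField ℚ ℝ) [FiniteDimensional ℚ K] {θ : ℝ} (hθ : θ ∉ K) :
    Lines (time K θ) := by
  obtain ⟨F⟩ := exists_frame K
  have hθ' : ∀ a b : Fin F.D → ℤ, b ≠ 0 → ell F.ω a ≠ θ * ell F.ω b := by
    intro a b hb h
    have hb0 : ell F.ω b ≠ 0 := fun h0 => hb (F.indep _ h0)
    apply hθ
    have h1 : θ = ell F.ω a / ell F.ω b := by
      rw [eq_div_iff hb0]
      exact h.symm
    rw [h1]
    exact K.div_mem (F.mem a) (F.mem b)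
  obtain ⟨A, L, S⟩ := exists_seq F θ hθ'
  choose w B hw hB hcomb using fun p : Idx K => combine F S p.2.1 p.2.2.1
  refine ⟨fun p => (fun x => (1 / (w p * (p.1.1 + θ * p.1.2))) * x) '' sums F A L (B p),
    fun p => thinR_mul (thinR_sums S (hB p)) _, fun r hr => ?_⟩
  obtain ⟨m₁, m₂, hb1, hb2, hr'⟩ := expand S r hr
  refine ⟨val F A L m₁, fun p => ⟨_, hcomb p m₁ m₂ hb1 hb2, ?_⟩⟩
  have hd := denom_ne K hθ p.2.1 p.2.2.1 p.2.2.2
  have hw0 : (w p : ℝ) ≠ 0 := by exact_mod_cast (hw p).ne'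
  simp only [time]
  rw [hr']
  field_simp
  ring

instance (K : IntermediateField ℚ ℝ) : Nonempty (Idx K) :=
  ⟨⟨(1, 0), K.one_mem, K.zero_mem, fun h => one_ne_zero (congrArg Prod.fst h)⟩⟩

theorem countable_idx (K : IntermediateField ℚ ℝ) [FiniteDimensional ℚ K] : Countable (Idx K) := by
  have hK : Countable K := by
    have e := (Module.finBasis ℚ K).equivFun.toEquiv
    exact e.injective.countable
  have : Function.Injective (fun p : Idx K => ((⟨p.1.1, p.2.1⟩ : K), (⟨p.1.2, p.2.2.1⟩ : K))) := by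
    rintro ⟨⟨a, b⟩, h1, h2, h3⟩ ⟨⟨a', b'⟩, h1', h2', h3'⟩ h
    simp only [Prod.mk.injEq, Subtype.mk.injEq] at h
    exact Subtype.ext (Prod.ext h.1 h.2)
  exact this.countable

end Pool.Agent.Run7.h70.IHP.NF
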