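import Mathlib

set_option autoImplicit false

/-! # Real number fields: integral bases, conjugates, Liouville inequality -/

open Finset

namespace Pool.Agent.Run7.h70.IHP

/-- the linear form -/
def ell {D : ℕ} (ω : Fin D → ℝ) (a : Fin D → ℤ) : ℝ := ∑ i, (a i : ℝ) * ω i

/-- what is needed from the field -/
structure Frame (K : Set ℝ) where
  D : ℕ
  hD : 1 ≤ D
  ω : Fin D → ℝ
  C : ℝ
  hC : 1 ≤ C
  mem : ∀ a : Fin D → ℤ, ell ω a ∈ K
  bd : ∀ (X : ℝ) (a : Fin D → ℤ), (∀ i, |(a i : ℝ)| ≤ X) → |ell ω a| ≤ C * X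
  mul : ∀ u ∈ K, ∃ (w : ℕ) (M : Fin D → Fin D → ℤ), 0 < w ∧
    ∀ i, (w : ℝ) * u * ω i = ∑ j, (M i j : ℝ) * ω j
  indep : ∀ a : Fin D → ℤ, ell ω a = 0 → a = 0
  one : ∀ X : ℝ, 1 ≤ X → ∀ a : Fin D → ℤ, (∀ i, |(a i : ℝ)| ≤ X) → ell ω a ≠ 0 →
    1 ≤ C * X ^ (D - 1) * |ell ω a|
  det : ∀ X : ℝ, 1 ≤ X → ∀ a b a' b' : Fin D → ℤ, (∀ i, |(a i : ℝ)| ≤ X) → (∀ i, |(b i : ℝ)| ≤ X) →
    (∀ i, |(a' i : ℝ)| ≤ X) → (∀ i, |(b' i : ℝ)| ≤ X) →
    ell ω a * ell ω b' - ell ω a' * ell ω b ≠ 0 →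
    1 ≤ C * (X ^ 2) ^ (D - 1) * |ell ω a * ell ω b' - ell ω a' * ell ω b|

theorem real_emb (K : IntermediateField ℚ ℝ) :
    ∃ σ₀ : K →ₐ[ℚ] ℂ, ∀ x : K, ‖σ₀ x‖ = |(x : ℝ)| := by
  refine ⟨(Complex.ofRealHom.comp (algebraMap K ℝ)).toRatAlgHom, fun x => ?_⟩
  change ‖((x : ℝ) : ℂ)‖ = _
  rw [Complex.norm_real, Real.norm_eq_abs]

theorem liouville (K : IntermediateField ℚ ℝ) [FiniteDimensional ℚ K] (x : K)
    (hx : IsIntegral ℤ x) (h0 : x ≠ 0) (Z : ℝ) (hZ : ∀ σ : K →ₐ[ℚ] ℂ, ‖σ x‖ ≤ Z) :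
    1 ≤ |(x : ℝ)| * Z ^ (Module.finrank ℚ K - 1) := by
  classical
  have h1 : IsIntegral ℤ (Algebra.norm ℚ x) := Algebra.isIntegral_norm ℚ hx
  obtain ⟨n, hn⟩ := IsIntegrallyClosed.isIntegral_iff.mp h1
  have h2 : Algebra.norm ℚ x ≠ 0 := Algebra.norm_ne_zero_iff.mpr h0
  have h3 : n ≠ 0 := by
    rintro rfl
    apply h2
    rw [← hn]
    simp
  have h4 := Algebra.norm_eq_prod_embeddings ℚ ℂ x
  have h5 : (1 : ℝ) ≤ ∏ σ : K →ₐ[ℚ] ℂ, ‖σ x‖ := by
    rw [← norm_prod, ← h4, ← hn]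
    have h6 : (1 : ℤ) ≤ |n| := Int.one_le_abs h3
    have h7 : ‖(algebraMap ℚ ℂ) ((algebraMap ℤ ℚ) n)‖ = ((|n| : ℤ) : ℝ) := by
      simp
    rw [h7]
    exact_mod_cast h6
  obtain ⟨σ₀, hσ⟩ := real_emb K
  have h8 : ‖σ₀ x‖ = |(x : ℝ)| := hσ x
  rw [← Finset.mul_prod_erase univ _ (mem_univ σ₀), h8] at h5
  refine h5.trans (mul_le_mul_of_nonneg_left ?_ (abs_nonneg _))
  have h9 : (univ.erase σ₀).card = Module.finrank ℚ K - 1 := by
    rw [card_erase_of_mem (mem_univ _), card_univ, AlgHom.card]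
  calc ∏ σ ∈ univ.erase σ₀, ‖σ x‖ ≤ ∏ _σ ∈ univ.erase σ₀, Z :=
        prod_le_prod (fun _ _ => norm_nonneg _) (fun σ _ => hZ σ)
    _ = Z ^ (Module.finrank ℚ K - 1) := by rw [prod_const, h9]

theorem exists_frame (K : IntermediateField ℚ ℝ) [FiniteDimensional ℚ K] :
    Nonempty (Frame (K : Set ℝ)) := by
  classical
  have : NumberField K := { to_charZero := inferInstance, to_finiteDimensional := inferInstance }
  set b₀ := NumberField.integralBasis K with hb₀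
  have hcard : Fintype.card (Module.Free.ChooseBasisIndex ℤ (NumberField.RingOfIntegers K)) =
      Module.finrank ℚ K := by
    rw [Module.finrank_eq_card_basis b₀]
  set D := Module.finrank ℚ K with hD
  set b : Module.Basis (Fin D) ℚ K :=
    b₀.reindex (Fintype.equivFinOfCardEq hcard) with hb
  have hint : ∀ i, IsIntegral ℤ (b i) := by
    intro i
    rw [hb, Module.Basis.reindex_apply, hb₀, NumberField.integralBasis_apply]
    exact NumberField.RingOfIntegers.isIntegral_coe _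
  have hDpos : 1 ≤ D := Module.finrank_pos
  set e : (Fin D → ℤ) → K := fun a => ∑ i, (a i : K) * b i with he
  have hell : ∀ a, ((e a : K) : ℝ) = ell (fun i => ((b i : K) : ℝ)) a := by
    intro a
    simp only [he, ell]
    push_cast
    rfl
  have heint : ∀ a, IsIntegral ℤ (e a) := by
    intro a
    refine IsIntegral.sum _ fun i _ => ?_
    exact IsIntegral.mul (by
      have := isIntegral_algebraMap (R := ℤ) (A := K) (x := a i)
      simpa using this) (hint i)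
  set Cb : ℝ := ∑ i, ∑ σ : K →ₐ[ℚ] ℂ, ‖σ (b i)‖ + 1 with hCb
  have hCb1 : 1 ≤ Cb := by
    have : 0 ≤ ∑ i, ∑ σ : K →ₐ[ℚ] ℂ, ‖σ (b i)‖ :=
      sum_nonneg fun _ _ => sum_nonneg fun _ _ => norm_nonneg _
    linarith
  have hbd : ∀ (X : ℝ) (a : Fin D → ℤ), (∀ i, |(a i : ℝ)| ≤ X) → 0 ≤ X →
      ∀ σ : K →ₐ[ℚ] ℂ, ‖σ (e a)‖ ≤ Cb * X := by
    intro X a ha hX σ
    have h1 : σ (e a) = ∑ i, (a i : ℂ) * σ (b i) := by
      simp only [he]
      rw [map_sum]
      refine sum_congr rfl fun i _ => ?_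
      rw [map_mul, map_intCast]
    rw [h1]
    calc ‖∑ i, (a i : ℂ) * σ (b i)‖ ≤ ∑ i, ‖(a i : ℂ) * σ (b i)‖ := norm_sum_le _ _
      _ ≤ ∑ i, X * ∑ σ : K →ₐ[ℚ] ℂ, ‖σ (b i)‖ := by
          refine sum_le_sum fun i _ => ?_
          rw [norm_mul]
          refine mul_le_mul ?_ (single_le_sum (f := fun σ : K →ₐ[ℚ] ℂ => ‖σ (b i)‖)
            (fun _ _ => norm_nonneg _) (mem_univ σ)) (norm_nonneg _) hX
          rw [Complex.norm_intCast]
          exact ha i
      _ = (∑ i, ∑ σ : K →ₐ[ℚ] ℂ, ‖σ (b i)‖) * X := by rw [← mul_sum, mul_comm]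
      _ ≤ Cb * X := by
          refine mul_le_mul_of_nonneg_right ?_ hX
          simp only [hCb]
          linarith
  obtain ⟨σ₀, hσ0⟩ := real_emb K
  have hne : ∀ x : K, (x : ℝ) ≠ 0 → x ≠ 0 := by
    rintro x hx rfl
    exact hx (by simp)
  refine ⟨{
    D := D
    hD := hDpos
    ω := fun i => ((b i : K) : ℝ)
    C := (2 * Cb ^ 2) ^ D
    hC := one_le_pow₀ (by nlinarith)
    mem := fun a => ?_
    bd := fun X a ha => ?_
    mul := fun u hu => ?_
    indep := fun a ha => ?_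
    one := fun X hX a ha h0 => ?_
    det := fun X hX a b' a' b'' ha hb hc hd h0 => ?_ }⟩
  · rw [← hell]
    exact (e a).2
  · have hX0 : 0 ≤ X := (abs_nonneg _).trans (ha ⟨0, hDpos⟩)
    have h1 := hbd X a ha hX0 σ₀
    rw [hσ0, hell] at h1
    refine h1.trans (mul_le_mul_of_nonneg_right ?_ hX0)
    calc Cb ≤ 2 * Cb ^ 2 := by nlinarith
      _ ≤ (2 * Cb ^ 2) ^ D := le_self_pow₀ (by nlinarith) (by omega)
  · -- multiplication by `u`
    set U : Fin D → Fin D → ℚ := fun i j => b.repr ((⟨u, hu⟩ : K) * b i) j with hU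
    set w : ℕ := ∏ i, ∏ j, (U i j).den with hw
    have hw0 : 0 < w := prod_pos fun i _ => prod_pos fun j _ => (U i j).pos
    have hdiv : ∀ i j, ∃ m : ℤ, ((w : ℚ) * U i j) = m := by
      intro i j
      have h1 : (U i j).den ∣ w :=
        (dvd_prod_of_mem (fun j => (U i j).den) (mem_univ j)).trans
          (dvd_prod_of_mem (fun i => ∏ j, (U i j).den) (mem_univ i))
      obtain ⟨k, hk⟩ := h1
      refine ⟨k * (U i j).num, ?_⟩
      rw [hk]
      push_cast
      have := Rat.mul_den_eq_num (U i j)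
      calc ((U i j).den : ℚ) * k * U i j = k * (U i j * (U i j).den) := by ring
        _ = k * (U i j).num := by rw [this]
    choose M hM using hdiv
    refine ⟨w, M, hw0, fun i => ?_⟩
    have h2 : (⟨u, hu⟩ : K) * b i = ∑ j, U i j • b j := (b.sum_repr _).symm
    have h3 : u * ((b i : K) : ℝ) = ∑ j, (U i j : ℝ) * ((b j : K) : ℝ) := by
      have h4 : ((((⟨u, hu⟩ : K) * b i : K)) : ℝ) = ((∑ j, U i j • b j : K) : ℝ) := by rw [h2]
      have h5 : ((((⟨u, hu⟩ : K) * b i : K)) : ℝ) = u * ((b i : K) : ℝ) := rfl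
      rw [← h5, h4]
      push_cast
      refine sum_congr rfl fun j _ => ?_
      rw [Rat.smul_def]
    rw [mul_assoc, h3, mul_sum]
    refine sum_congr rfl fun j _ => ?_
    rw [← mul_assoc]
    congr 1
    have := hM i j
    exact_mod_cast this
  · have h1 : e a = 0 := by
      have := hell a
      rw [ha] at this
      exact_mod_cast this
    have h2 : ∑ i, (a i : ℚ) • b i = 0 := by
      rw [← h1]
      simp only [he]
      refine sum_congr rfl fun i _ => ?_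
      rw [Algebra.smul_def]
      congr 1
    have h3 := Fintype.linearIndependent_iff.mp b.linearIndependent _ h2
    funext i
    exact_mod_cast h3 i
  · have h1 := liouville K (e a) (heint a) (hne _ (by rw [hell]; exact h0)) (Cb * X)
      (hbd X a ha (by linarith))
    rw [hell] at h1
    refine h1.trans ?_
    rw [mul_comm]
    refine mul_le_mul_of_nonneg_right ?_ (abs_nonneg _)
    rw [mul_pow]
    refine mul_le_mul_of_nonneg_right ?_ (by positivity)
    calc Cb ^ (Module.finrank ℚ K - 1) ≤ Cb ^ D := pow_le_pow_right₀ hCb1 (by omega)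
      _ ≤ (2 * Cb ^ 2) ^ D := pow_le_pow_left₀ (by linarith) (by nlinarith) _
  · set x : K := e a * e b'' - e a' * e b' with hx
    have hxr : (x : ℝ) = ell (fun i => ((b i : K) : ℝ)) a * ell (fun i => ((b i : K) : ℝ)) b'' -
        ell (fun i => ((b i : K) : ℝ)) a' * ell (fun i => ((b i : K) : ℝ)) b' := by
      rw [hx]
      push_cast
      rw [hell, hell, hell, hell]
    have hX0 : 0 ≤ X := by linarith
    have h1 := liouville K x (((heint a).mul (heint b'')).sub ((heint a').mul (heint b')))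
      (hne _ (by rw [hxr]; exact h0)) (2 * Cb ^ 2 * X ^ 2) (fun σ => by
        rw [hx, map_sub, map_mul, map_mul]
        have e1 := hbd X a ha hX0 σ
        have e2 := hbd X b'' hd hX0 σ
        have e3 := hbd X a' hc hX0 σ
        have e4 := hbd X b' hb hX0 σ
        have hCX : 0 ≤ Cb * X := by positivity
        calc ‖σ (e a) * σ (e b'') - σ (e a') * σ (e b')‖
            ≤ ‖σ (e a) * σ (e b'')‖ + ‖σ (e a') * σ (e b')‖ := norm_sub_le _ _
          _ = ‖σ (e a)‖ * ‖σ (e b'')‖ + ‖σ (e a')‖ * ‖σ (e b')‖ := by rw [norm_mul, norm_mul]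
          _ ≤ (Cb * X) * (Cb * X) + (Cb * X) * (Cb * X) :=
              add_le_add (mul_le_mul e1 e2 (norm_nonneg _) hCX)
                (mul_le_mul e3 e4 (norm_nonneg _) hCX)
          _ = 2 * Cb ^ 2 * X ^ 2 := by ring)
    rw [hxr] at h1
    refine h1.trans ?_
    rw [mul_comm]
    refine mul_le_mul_of_nonneg_right ?_ (abs_nonneg _)
    rw [mul_pow]
    refine mul_le_mul_of_nonneg_right ?_ (by positivity)
    exact pow_le_pow_right₀ (by nlinarith) (by omega)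

end Pool.Agent.Run7.h70.IHP
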