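import Pool.Agent.Run7.h70.IHP.Frame

set_option autoImplicit false

/-! # Good heights and the covering property -/

open Finset

namespace Pool.Agent.Run7.h70.IHP

variable {K : Set ℝ}

/-- `L` is a good height: the nonzero values of the form `ell a - θ ell b` at height `2 L` are at least
`c L ^ (1 - 2 D)`. -/
def GoodL (F : Frame K) (θ c : ℝ) (L : ℕ) : Prop :=
  1 ≤ L ∧ ∀ a b : Fin F.D → ℤ, (∀ i, |a i| ≤ 2 * (L : ℤ)) → (∀ i, |b i| ≤ 2 * (L : ℤ)) →
    (a ≠ 0 ∨ b ≠ 0) → c ≤ (L : ℝ) ^ (2 * F.D - 1) * |ell F.ω a - θ * ell F.ω b|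

theorem goodL_unbounded (F : Frame K) (θ : ℝ)
    (hθ : ∀ a b : Fin F.D → ℤ, b ≠ 0 → ell F.ω a ≠ θ * ell F.ω b) :
    ∃ c : ℝ, 0 < c ∧ ∀ N : ℕ, ∃ L, N ≤ L ∧ GoodL F θ c L := by
  have hC := F.hC
  have hC0 : 0 < F.C := by linarith
  set c : ℝ := 1 / (4 * F.C ^ 2 * 4 ^ (2 * F.D - 1)) with hc
  have hc0 : 0 < c := by positivity
  refine ⟨c, hc0, fun N₀ => ?_⟩
  by_contra hcon
  push Not at hcon
  set N : ℕ := N₀ + 1 with hN
  have hbad : ∀ L, N ≤ L → ∃ a b : Fin F.D → ℤ, (∀ i, |a i| ≤ 2 * (L : ℤ)) ∧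
      (∀ i, |b i| ≤ 2 * (L : ℤ)) ∧ (a ≠ 0 ∨ b ≠ 0) ∧
      (L : ℝ) ^ (2 * F.D - 1) * |ell F.ω a - θ * ell F.ω b| < c := by
    intro L hL
    have h1 := hcon L (by omega)
    unfold GoodL at h1
    push Not at h1
    obtain ⟨a, b, h2, h3, h4, h5⟩ := h1 (by omega)
    exact ⟨a, b, h2, h3, h4, h5⟩
  choose! a b ha hb hne hlt using hbad
  have hcast : ∀ (v : Fin F.D → ℤ) (L : ℕ), (∀ i, |v i| ≤ 2 * (L : ℤ)) →
      ∀ i, |(v i : ℝ)| ≤ 2 * (L : ℝ) := by
    intro v L h i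
    have := h i
    exact_mod_cast this
  -- the second component does not vanish
  have hb0 : ∀ L, N ≤ L → b L ≠ 0 := by
    intro L hL h0
    have hL1 : (1 : ℝ) ≤ L := by exact_mod_cast (by omega : 1 ≤ L)
    have ha0 : a L ≠ 0 := by
      rcases hne L hL with h | h
      · exact h
      · exact absurd h0 h
    have h1 : ell F.ω (a L) ≠ 0 := fun h => ha0 (F.indep _ h)
    have h2 := F.one (2 * L) (by linarith) (a L) (hcast _ L (ha L hL)) h1
    have h3 := hlt L hL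
    have h4 : ell F.ω (b L) = 0 := by rw [h0]; simp [ell]
    rw [h4, mul_zero, sub_zero] at h3
    have h5 : (2 * (L : ℝ)) ^ (F.D - 1) ≤ 4 ^ (2 * F.D - 1) * (L : ℝ) ^ (2 * F.D - 1) := by
      rw [← mul_pow]
      calc (2 * (L : ℝ)) ^ (F.D - 1) ≤ (4 * L) ^ (F.D - 1) :=
            pow_le_pow_left₀ (by positivity) (by linarith) _
        _ ≤ (4 * (L : ℝ)) ^ (2 * F.D - 1) := pow_le_pow_right₀ (by linarith) (by omega)
    have h6 : F.C * (2 * (L : ℝ)) ^ (F.D - 1) * |ell F.ω (a L)| ≤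
        F.C * 4 ^ (2 * F.D - 1) * ((L : ℝ) ^ (2 * F.D - 1) * |ell F.ω (a L)|) := by
      calc F.C * (2 * (L : ℝ)) ^ (F.D - 1) * |ell F.ω (a L)|
          ≤ F.C * (4 ^ (2 * F.D - 1) * (L : ℝ) ^ (2 * F.D - 1)) * |ell F.ω (a L)| := by gcongr
        _ = _ := by ring
    have h7 : F.C * 4 ^ (2 * F.D - 1) * ((L : ℝ) ^ (2 * F.D - 1) * |ell F.ω (a L)|) <
        F.C * 4 ^ (2 * F.D - 1) * c := mul_lt_mul_of_pos_left h3 (by positivity)
    have h8 : F.C * 4 ^ (2 * F.D - 1) * c ≤ 1 := by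
      rw [hc, mul_one_div, div_le_one (by positivity)]
      have : (0 : ℝ) < 4 ^ (2 * F.D - 1) := by positivity
      nlinarith
    linarith
  have heb : ∀ L, N ≤ L → ell F.ω (b L) ≠ 0 := fun L hL h => hb0 L hL (F.indep _ h)
  -- consecutive vectors are proportional
  have hprop : ∀ L, N ≤ L → ell F.ω (a L) / ell F.ω (b L) =
      ell F.ω (a (L + 1)) / ell F.ω (b (L + 1)) := by
    intro L hL
    rw [div_eq_div_iff (heb L hL) (heb (L + 1) (by omega))]
    by_contra hdet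
    have hL1 : (1 : ℝ) ≤ L := by exact_mod_cast (by omega : 1 ≤ L)
    set X : ℝ := 4 * L with hX
    have hX1 : 1 ≤ X := by linarith
    have hXL : 2 * ((L + 1 : ℕ) : ℝ) ≤ X := by push_cast; linarith
    have e1 : ∀ i, |(a L i : ℝ)| ≤ X := fun i => (hcast _ L (ha L hL) i).trans (by linarith)
    have e2 : ∀ i, |(b L i : ℝ)| ≤ X := fun i => (hcast _ L (hb L hL) i).trans (by linarith)
    have e3 : ∀ i, |(a (L + 1) i : ℝ)| ≤ X := fun i =>
      (hcast _ (L + 1) (ha (L + 1) (by omega)) i).trans hXL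
    have e4 : ∀ i, |(b (L + 1) i : ℝ)| ≤ X := fun i =>
      (hcast _ (L + 1) (hb (L + 1) (by omega)) i).trans hXL
    have h1 := F.det X hX1 (a L) (b L) (a (L + 1)) (b (L + 1)) e1 e2 e3 e4 (sub_ne_zero.mpr hdet)
    set u := ell F.ω (a L) - θ * ell F.ω (b L) with hu
    set v := ell F.ω (a (L + 1)) - θ * ell F.ω (b (L + 1)) with hv
    have hdu : ell F.ω (a L) * ell F.ω (b (L + 1)) - ell F.ω (a (L + 1)) * ell F.ω (b L) =
        u * ell F.ω (b (L + 1)) - v * ell F.ω (b L) := by rw [hu, hv]; ring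
    have hLp : (0 : ℝ) < (L : ℝ) ^ (2 * F.D - 1) := by positivity
    have hu1 : (L : ℝ) ^ (2 * F.D - 1) * |u| < c := hlt L hL
    have hv1 : (L : ℝ) ^ (2 * F.D - 1) * |v| < c := by
      refine lt_of_le_of_lt ?_ (hlt (L + 1) (by omega))
      refine mul_le_mul_of_nonneg_right ?_ (abs_nonneg _)
      refine pow_le_pow_left₀ (by positivity) ?_ _
      push_cast
      linarith
    have h2 := F.bd X _ e2
    have h3 := F.bd X _ e4
    have h4 : (L : ℝ) ^ (2 * F.D - 1) * |u * ell F.ω (b (L + 1)) - v * ell F.ω (b L)| ≤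
        2 * c * (F.C * X) := by
      calc (L : ℝ) ^ (2 * F.D - 1) * |u * ell F.ω (b (L + 1)) - v * ell F.ω (b L)|
          ≤ (L : ℝ) ^ (2 * F.D - 1) * (|u| * |ell F.ω (b (L + 1))| + |v| * |ell F.ω (b L)|) := by
            refine mul_le_mul_of_nonneg_left ?_ hLp.le
            rw [← abs_mul, ← abs_mul]
            exact abs_sub _ _
        _ = ((L : ℝ) ^ (2 * F.D - 1) * |u|) * |ell F.ω (b (L + 1))| +
            ((L : ℝ) ^ (2 * F.D - 1) * |v|) * |ell F.ω (b L)| := by ring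
        _ ≤ c * (F.C * X) + c * (F.C * X) := by
            refine add_le_add (mul_le_mul hu1.le h3 (abs_nonneg _) hc0.le)
              (mul_le_mul hv1.le h2 (abs_nonneg _) hc0.le)
        _ = 2 * c * (F.C * X) := by ring
    rw [hdu] at h1
    have h5 : (X ^ 2) ^ (F.D - 1) * X = 4 ^ (2 * F.D - 1) * (L : ℝ) ^ (2 * F.D - 1) := by
      rw [← pow_mul, ← pow_succ, ← mul_pow]
      congr 1
      have := F.hD
      omega
    have h6 : (L : ℝ) ^ (2 * F.D - 1) ≤
        F.C * (X ^ 2) ^ (F.D - 1) * (2 * c * (F.C * X)) := by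
      calc (L : ℝ) ^ (2 * F.D - 1) = (L : ℝ) ^ (2 * F.D - 1) * 1 := by ring
        _ ≤ (L : ℝ) ^ (2 * F.D - 1) * (F.C * (X ^ 2) ^ (F.D - 1) *
            |u * ell F.ω (b (L + 1)) - v * ell F.ω (b L)|) := mul_le_mul_of_nonneg_left h1 hLp.le
        _ = F.C * (X ^ 2) ^ (F.D - 1) * ((L : ℝ) ^ (2 * F.D - 1) *
            |u * ell F.ω (b (L + 1)) - v * ell F.ω (b L)|) := by ring
        _ ≤ _ := mul_le_mul_of_nonneg_left h4 (by positivity)
    have h7 : F.C * (X ^ 2) ^ (F.D - 1) * (2 * c * (F.C * X)) =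
        2 * c * F.C ^ 2 * 4 ^ (2 * F.D - 1) * (L : ℝ) ^ (2 * F.D - 1) := by
      calc F.C * (X ^ 2) ^ (F.D - 1) * (2 * c * (F.C * X))
          = 2 * c * F.C ^ 2 * ((X ^ 2) ^ (F.D - 1) * X) := by ring
        _ = _ := by rw [h5]; ring
    have h8 : 2 * c * F.C ^ 2 * 4 ^ (2 * F.D - 1) = 1 / 2 := by
      rw [hc]
      field_simp
      norm_num
    rw [h7, h8] at h6
    linarith
  set κ : ℝ := ell F.ω (a N) / ell F.ω (b N) with hκ
  have hall : ∀ j, ell F.ω (a (N + j)) / ell F.ω (b (N + j)) = κ := by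
    intro j
    induction j with
    | zero => rfl
    | succ j ih => rw [← ih]; exact (hprop (N + j) (by omega)).symm
  have hκθ : 0 < |κ - θ| := by
    rw [abs_pos, sub_ne_zero, hκ]
    intro h
    rw [div_eq_iff (heb N le_rfl)] at h
    exact hθ _ _ (hb0 N le_rfl) h
  -- the final contradiction
  obtain ⟨j, hj⟩ := exists_nat_gt (c * F.C * 2 ^ (F.D - 1) / |κ - θ|)
  set L : ℕ := N + j with hL
  have hLN : N ≤ L := by omega
  have hL1 : (1 : ℝ) ≤ L := by exact_mod_cast (by omega : 1 ≤ L)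
  have h1 := F.one (2 * L) (by linarith) (b L) (hcast _ L (hb L hLN)) (heb L hLN)
  have h2 := hlt L hLN
  have h3 : ell F.ω (a L) - θ * ell F.ω (b L) = (κ - θ) * ell F.ω (b L) := by
    have := hall j
    rw [← hL, div_eq_iff (heb L hLN)] at this
    rw [this]; ring
  rw [h3, abs_mul] at h2
  have hLp : (0 : ℝ) < (L : ℝ) ^ (2 * F.D - 1) := by positivity
  have h4 : (L : ℝ) ^ (2 * F.D - 1) * |κ - θ| ≤ F.C * (2 * (L : ℝ)) ^ (F.D - 1) * c := by
    calc (L : ℝ) ^ (2 * F.D - 1) * |κ - θ| = (L : ℝ) ^ (2 * F.D - 1) * |κ - θ| * 1 := by ring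
      _ ≤ (L : ℝ) ^ (2 * F.D - 1) * |κ - θ| * (F.C * (2 * L) ^ (F.D - 1) * |ell F.ω (b L)|) :=
          mul_le_mul_of_nonneg_left h1 (by positivity)
      _ = F.C * (2 * (L : ℝ)) ^ (F.D - 1) *
          ((L : ℝ) ^ (2 * F.D - 1) * (|κ - θ| * |ell F.ω (b L)|)) := by ring
      _ ≤ _ := mul_le_mul_of_nonneg_left h2.le (by positivity)
  have h5 : (L : ℝ) ^ (2 * F.D - 1) = (L : ℝ) ^ (F.D - 1) * (L : ℝ) ^ F.D := by
    rw [← pow_add]
    congr 1
    have := F.hD
    omega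
  rw [h5, mul_pow] at h4
  have hLq : (0 : ℝ) < (L : ℝ) ^ (F.D - 1) := by positivity
  have h6 : (L : ℝ) ^ F.D * |κ - θ| ≤ c * F.C * 2 ^ (F.D - 1) := by
    refine le_of_mul_le_mul_left ?_ hLq
    calc (L : ℝ) ^ (F.D - 1) * ((L : ℝ) ^ F.D * |κ - θ|)
        = (L : ℝ) ^ (F.D - 1) * (L : ℝ) ^ F.D * |κ - θ| := by ring
      _ ≤ F.C * (2 ^ (F.D - 1) * (L : ℝ) ^ (F.D - 1)) * c := h4
      _ = _ := by ring
  have h7 : (L : ℝ) ≤ (L : ℝ) ^ F.D := le_self_pow₀ hL1 (by have := F.hD; omega)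
  have h8 : (j : ℝ) ≤ L := by exact_mod_cast (by omega : j ≤ L)
  rw [div_lt_iff₀ hκθ] at hj
  have h9 : (j : ℝ) * |κ - θ| ≤ (L : ℝ) ^ F.D * |κ - θ| :=
    mul_le_mul_of_nonneg_right (h8.trans h7) hκθ.le
  linarith

/-- the values of the form at height `X` -/
def G (F : Frame K) (θ : ℝ) (X : ℕ) : Set ℝ :=
  {x | ∃ a b : Fin F.D → ℤ, (∀ i, |a i| ≤ (X : ℤ)) ∧ (∀ i, |b i| ≤ (X : ℤ)) ∧
    x = ell F.ω a - θ * ell F.ω b}

theorem G_finite (F : Frame K) (θ : ℝ) (X : ℕ) : (G F θ X).Finite := by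
  classical
  refine Set.Finite.subset (Finset.finite_toSet
    ((Fintype.piFinset (fun _ : Fin F.D => Finset.Icc (-(X : ℤ)) X) ×ˢ
      Fintype.piFinset (fun _ : Fin F.D => Finset.Icc (-(X : ℤ)) X)).image
      (fun p => ell F.ω p.1 - θ * ell F.ω p.2))) ?_
  rintro x ⟨a, b, ha, hb, rfl⟩
  rw [Finset.mem_coe, Finset.mem_image]
  refine ⟨(a, b), ?_, rfl⟩
  rw [Finset.mem_product, Fintype.mem_piFinset, Fintype.mem_piFinset]
  exact ⟨fun i => Finset.mem_Icc.mpr (abs_le.mp (ha i)),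
    fun i => Finset.mem_Icc.mpr (abs_le.mp (hb i))⟩

theorem G_zero (F : Frame K) (θ : ℝ) (X : ℕ) : (0 : ℝ) ∈ G F θ X :=
  ⟨0, 0, fun i => by simp, fun i => by simp, by simp [ell]⟩

theorem ell_add {D : ℕ} (ω : Fin D → ℝ) (a b : Fin D → ℤ) :
    ell ω (a + b) = ell ω a + ell ω b := by
  simp only [ell, Pi.add_apply, ← sum_add_distrib]
  refine sum_congr rfl fun i _ => ?_
  push_cast
  ring

theorem ell_sub {D : ℕ} (ω : Fin D → ℝ) (a b : Fin D → ℤ) :
    ell ω (a - b) = ell ω a - ell ω b := by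
  simp only [ell, Pi.sub_apply, ← sum_sub_distrib]
  refine sum_congr rfl fun i _ => ?_
  push_cast
  ring

theorem G_mono (F : Frame K) (θ : ℝ) {X Y : ℕ} (h : X ≤ Y) : G F θ X ⊆ G F θ Y := by
  rintro x ⟨a, b, ha, hb, rfl⟩
  have : (X : ℤ) ≤ Y := by exact_mod_cast h
  exact ⟨a, b, fun i => (ha i).trans this, fun i => (hb i).trans this, rfl⟩

theorem G_add_sub (F : Frame K) (θ : ℝ) {X L : ℕ} {x g g' : ℝ} (hx : x ∈ G F θ X)
    (hg : g ∈ G F θ L) (hg' : g' ∈ G F θ L) : x + g - g' ∈ G F θ (X + 2 * L) := by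
  obtain ⟨a, b, ha, hb, rfl⟩ := hx
  obtain ⟨a₁, b₁, ha₁, hb₁, rfl⟩ := hg
  obtain ⟨a₂, b₂, ha₂, hb₂, rfl⟩ := hg'
  refine ⟨a + a₁ - a₂, b + b₁ - b₂, fun i => ?_, fun i => ?_, ?_⟩
  · have h1 := abs_le.mp (ha i)
    have h2 := abs_le.mp (ha₁ i)
    have h3 := abs_le.mp (ha₂ i)
    simp only [Pi.add_apply, Pi.sub_apply]
    push_cast
    rw [abs_le]
    constructor <;> linarith
  · have h1 := abs_le.mp (hb i)
    have h2 := abs_le.mp (hb₁ i)
    have h3 := abs_le.mp (hb₂ i)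
    simp only [Pi.add_apply, Pi.sub_apply]
    push_cast
    rw [abs_le]
    constructor <;> linarith
  · rw [ell_sub, ell_add, ell_sub, ell_add]
    ring

/-- **The covering property at good heights.** -/
theorem cover (F : Frame K) (θ : ℝ) {c : ℝ} (hc : 0 < c) :
    ∃ A : ℝ, 1 ≤ A ∧ ∀ L : ℕ, GoodL F θ c L → ∀ z : ℝ, |z| ≤ L →
      ∃ m₁ m₂ : Fin F.D → ℤ, (∀ i, |(m₁ i : ℝ)| ≤ A * L) ∧ (∀ i, |(m₂ i : ℝ)| ≤ A * L) ∧
        |z - (ell F.ω m₂ - θ * ell F.ω m₁)| * (L : ℝ) ^ (2 * F.D - 1) ≤ A := by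
  classical
  have hC := F.hC
  set M₀ : ℝ := 1 + F.C + |θ| * F.C with hM₀
  have hM₀1 : 0 < M₀ := by positivity
  obtain ⟨J, hJ⟩ := exists_nat_gt (2 * M₀ / c + 5)
  refine ⟨2 * J + 2 * J * c + 1, by
    have : (0 : ℝ) ≤ 2 * J + 2 * J * c := by positivity
    linarith, fun L hL => ?_⟩
  obtain ⟨hL1, hgood⟩ := hL
  have hLr : (1 : ℝ) ≤ L := by exact_mod_cast hL1
  set P : ℝ := (L : ℝ) ^ (2 * F.D - 1) with hP
  have hP0 : 0 < P := by positivity
  set η : ℝ := c / P with hη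
  have hη0 : 0 < η := by positivity
  -- the distances
  have key : ∀ z : ℝ, |z| ≤ L → Metric.infDist z (G F θ (2 * L * J)) ≤ 2 * J * η := by
    intro z hz
    by_contra hcon
    push Not at hcon
    set X : ℕ → ℕ := fun j => 2 * L * (J - j) with hX
    have hXle : ∀ j, X j ≤ 2 * L * J := fun j => Nat.mul_le_mul_left _ (Nat.sub_le _ _)
    have hex : ∀ j : ℕ, ∃ y : ℝ, j ≤ J →
        |y| ≤ L ∧ Metric.infDist y (G F θ (X j)) = 2 * ((J : ℝ) - j) * η := by
      intro j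
      rcases lt_or_ge J j with h | h
      · exact ⟨0, fun h' => absurd h (by omega)⟩
      · have hcont : ContinuousOn (fun y => Metric.infDist y (G F θ (X j))) (Set.uIcc 0 z) :=
          (Metric.continuous_infDist_pt _).continuousOn
        have hiv := intermediate_value_uIcc hcont
        have h0 : Metric.infDist 0 (G F θ (X j)) = 0 := Metric.infDist_zero_of_mem (G_zero F θ _)
        have h1 : 2 * (J : ℝ) * η < Metric.infDist z (G F θ (X j)) :=
          hcon.trans_le (Metric.infDist_le_infDist_of_subset (G_mono F θ (hXle j))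
            ⟨0, G_zero F θ _⟩)
        have hjr : (j : ℝ) ≤ J := by exact_mod_cast h
        have hjn : (0 : ℝ) ≤ j := Nat.cast_nonneg j
        have hmem : 2 * ((J : ℝ) - j) * η ∈ Set.uIcc (Metric.infDist 0 (G F θ (X j)))
            (Metric.infDist z (G F θ (X j))) := by
          rw [h0]
          refine Set.mem_uIcc.mpr (Or.inl ⟨?_, ?_⟩)
          · have : 0 ≤ (J : ℝ) - j := by linarith
            positivity
          · have : (j : ℝ) * η ≥ 0 := by positivity
            nlinarith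
        obtain ⟨y, hy, hy2⟩ := hiv hmem
        refine ⟨y, fun _ => ⟨?_, hy2⟩⟩
        refine le_trans ?_ hz
        rcases Set.mem_uIcc.mp hy with h2 | h2
        · rw [abs_of_nonneg h2.1]
          exact h2.2.trans (le_abs_self _)
        · rw [abs_of_nonpos h2.2]
          exact (neg_le_neg h2.1).trans (neg_le_abs _)
    choose y hy using hex
    -- separation of the translates
    have hsep1 : ∀ i j : ℕ, i < j → j ≤ J → ∀ g ∈ G F θ L, ∀ g' ∈ G F θ L,
        η ≤ |(y j + g) - (y i + g')| := by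
      intro i j hij hjJ g hg g' hg'
      by_contra hlt
      push Not at hlt
      obtain ⟨w, hw, hwd⟩ := (G_finite F θ (X j)).isCompact.exists_infDist_eq_dist
        ⟨0, G_zero F θ _⟩ (y j)
      rw [(hy j hjJ).2] at hwd
      have h1 : w + g - g' ∈ G F θ (X i) := by
        refine G_mono F θ ?_ (G_add_sub F θ hw hg hg')
        simp only [hX]
        obtain ⟨k, hk⟩ : ∃ k, J - i = (J - j) + 1 + k := ⟨J - i - (J - j) - 1, by omega⟩
        rw [hk]
        nlinarith [Nat.zero_le (2 * L * k)]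
      have h2 := Metric.infDist_le_dist_of_mem (x := y i) h1
      rw [(hy i (by omega)).2, Real.dist_eq] at h2
      rw [Real.dist_eq] at hwd
      have h3 : |y i - (w + g - g')| ≤ |(y j + g) - (y i + g')| + |y j - w| := by
        have e : y i - (w + g - g') = -((y j + g) - (y i + g')) + (y j - w) := by ring
        rw [e]
        refine (abs_add_le _ _).trans ?_
        rw [abs_neg]
      have h4 : (i : ℝ) + 1 ≤ j := by exact_mod_cast hij
      nlinarith
    have hsep2 : ∀ a b a' b' : Fin F.D → ℤ, (∀ i, |a i| ≤ (L : ℤ)) → (∀ i, |b i| ≤ (L : ℤ)) →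
        (∀ i, |a' i| ≤ (L : ℤ)) → (∀ i, |b' i| ≤ (L : ℤ)) → (a ≠ a' ∨ b ≠ b') →
        η ≤ |(ell F.ω a - θ * ell F.ω b) - (ell F.ω a' - θ * ell F.ω b')| := by
      intro a b a' b' ha hb ha' hb' hne
      have hs : ∀ v v' : Fin F.D → ℤ, (∀ i, |v i| ≤ (L : ℤ)) → (∀ i, |v' i| ≤ (L : ℤ)) →
          ∀ i, |(v - v') i| ≤ 2 * (L : ℤ) := by
        intro v v' hv hv' i
        have h1 := abs_le.mp (hv i)
        have h2 := abs_le.mp (hv' i)
        rw [Pi.sub_apply, abs_le]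
        constructor <;> linarith
      have h1 := hgood (a - a') (b - b') (hs _ _ ha ha') (hs _ _ hb hb') (by
        rcases hne with h | h
        · exact Or.inl (sub_ne_zero.mpr h)
        · exact Or.inr (sub_ne_zero.mpr h))
      rw [hη, div_le_iff₀ hP0, mul_comm]
      rw [ell_sub, ell_sub] at h1
      have e : (ell F.ω a - θ * ell F.ω b) - (ell F.ω a' - θ * ell F.ω b') =
          ell F.ω a - ell F.ω a' - θ * (ell F.ω b - ell F.ω b') := by ring
      rw [e]
      exact h1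
    -- counting
    set Bx : Finset (Fin F.D → ℤ) :=
      Fintype.piFinset (fun _ : Fin F.D => Finset.Icc (-(L : ℤ)) L) with hBx
    have hBxm : ∀ v, v ∈ Bx ↔ ∀ i, |v i| ≤ (L : ℤ) := by
      intro v
      rw [hBx, Fintype.mem_piFinset]
      exact forall_congr' fun i => by rw [Finset.mem_Icc, abs_le]
    have hBxc : Bx.card = (2 * L + 1) ^ F.D := by
      rw [hBx, Fintype.card_piFinset]
      simp only [Int.card_Icc, prod_const, card_univ, Fintype.card_fin]
      congr 1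
      omega
    set Φ : ℕ × ((Fin F.D → ℤ) × (Fin F.D → ℤ)) → ℝ :=
      fun p => y p.1 + (ell F.ω p.2.1 - θ * ell F.ω p.2.2) with hΦ
    set S : Finset (ℕ × ((Fin F.D → ℤ) × (Fin F.D → ℤ))) := range (J + 1) ×ˢ (Bx ×ˢ Bx) with hS
    have hΦsep : ∀ p ∈ S, ∀ p' ∈ S, p ≠ p' → η ≤ |Φ p - Φ p'| := by
      rintro ⟨j, a, b⟩ hp ⟨j', a', b'⟩ hp' hne
      rw [hS, mem_product, mem_product, mem_range, hBxm, hBxm] at hp hp'
      obtain ⟨hj, ha, hb⟩ := hp
      obtain ⟨hj', ha', hb'⟩ := hp'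
      simp only at hj hj' ha hb ha' hb'
      simp only [hΦ]
      have hg : ell F.ω a - θ * ell F.ω b ∈ G F θ L := ⟨a, b, ha, hb, rfl⟩
      have hg' : ell F.ω a' - θ * ell F.ω b' ∈ G F θ L := ⟨a', b', ha', hb', rfl⟩
      rcases lt_trichotomy j j' with h | h | h
      · rw [abs_sub_comm]
        exact hsep1 j j' h (by omega) _ hg' _ hg
      · subst h
        have hne' : a ≠ a' ∨ b ≠ b' := by
          by_contra hh
          push Not at hh
          exact hne (by rw [hh.1, hh.2])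
        have := hsep2 a b a' b' ha hb ha' hb' hne'
        rwa [add_sub_add_left_eq_sub]
      · exact hsep1 j' j h (by omega) _ hg _ hg'
    have hΦbd : ∀ p ∈ S, |Φ p| ≤ M₀ * L := by
      rintro ⟨j, a, b⟩ hp
      rw [hS, mem_product, mem_product, mem_range, hBxm, hBxm] at hp
      obtain ⟨hj, ha, hb⟩ := hp
      simp only at hj ha hb
      simp only [hΦ]
      have h1 := (hy j (by omega)).1
      have h2 := F.bd L a (fun i => by have := ha i; exact_mod_cast this)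
      have h3 := F.bd L b (fun i => by have := hb i; exact_mod_cast this)
      calc |y j + (ell F.ω a - θ * ell F.ω b)| ≤ |y j| + |ell F.ω a - θ * ell F.ω b| :=
            abs_add_le _ _
        _ ≤ |y j| + (|ell F.ω a| + |θ * ell F.ω b|) := by
            have := abs_sub (ell F.ω a) (θ * ell F.ω b)
            linarith
        _ ≤ L + (F.C * L + |θ| * (F.C * L)) := by
            rw [abs_mul]
            have h4 : |θ| * |ell F.ω b| ≤ |θ| * (F.C * L) :=
              mul_le_mul_of_nonneg_left h3 (abs_nonneg _)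
            linarith
        _ = M₀ * L := by simp only [hM₀]; ring
    set R : ℤ := ⌈M₀ * L / η⌉ + 1 with hR
    have hR0 : (0 : ℤ) ≤ R := by
      have : (0 : ℤ) ≤ ⌈M₀ * L / η⌉ := Int.ceil_nonneg (by positivity)
      omega
    have hcardle : S.card ≤ (Finset.Icc (-R) R).card := by
      refine card_le_card_of_injOn (fun p => ⌊Φ p / η⌋) ?_ ?_
      · intro p hp
        have h1 := abs_le.mp (hΦbd p hp)
        have h2 : Φ p / η ≤ M₀ * L / η := div_le_div_of_nonneg_right h1.2 hη0.le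
        have h3 : -(M₀ * L / η) ≤ Φ p / η := by
          rw [← neg_div]
          exact div_le_div_of_nonneg_right h1.1 hη0.le
        have h4 := Int.le_ceil (M₀ * L / η)
        simp only [Finset.coe_Icc, Set.mem_Icc]
        constructor
        · refine Int.le_floor.mpr ?_
          rw [hR]
          push_cast
          linarith
        · have h5 : (⌊Φ p / η⌋ : ℝ) ≤ (R : ℝ) := by
            rw [hR]
            push_cast
            have := Int.floor_le (Φ p / η)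
            linarith
          exact_mod_cast h5
      · intro p hp p' hp' hpp
        by_contra hne
        have h1 := hΦsep p hp p' hp' hne
        simp only at hpp
        have h2 := Int.abs_sub_lt_one_of_floor_eq_floor hpp
        rw [← sub_div, abs_div, abs_of_pos hη0, div_lt_one hη0] at h2
        linarith
    have hScard : S.card = (J + 1) * ((2 * L + 1) ^ F.D * (2 * L + 1) ^ F.D) := by
      rw [hS, card_product, card_product, card_range, hBxc]
    have hIcc : ((Finset.Icc (-R) R).card : ℝ) = 2 * (R : ℝ) + 1 := by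
      rw [Int.card_Icc]
      have : ((R + 1 - -R).toNat : ℤ) = 2 * R + 1 := by
        rw [Int.toNat_of_nonneg (by omega)]; ring
      exact_mod_cast this
    have h1 : (S.card : ℝ) ≤ 2 * (R : ℝ) + 1 := by
      rw [← hIcc]
      exact_mod_cast hcardle
    have h2 : (R : ℝ) ≤ M₀ * L / η + 2 := by
      rw [hR]
      push_cast
      have := Int.ceil_lt_add_one (M₀ * L / η)
      linarith
    have hDpos := F.hD
    have h3 : M₀ * L / η = M₀ / c * (L : ℝ) ^ (2 * F.D) := by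
      rw [hη]
      have e : (L : ℝ) ^ (2 * F.D) = L * P := by
        rw [hP, ← pow_succ']
        congr 1
        omega
      rw [e]
      field_simp
    have h4 : (L : ℝ) ^ (2 * F.D) ≤ (2 * (L : ℝ) + 1) ^ F.D * (2 * (L : ℝ) + 1) ^ F.D := by
      rw [← pow_add, ← two_mul]
      exact pow_le_pow_left₀ (by positivity) (by linarith) _
    have h5 : (1 : ℝ) ≤ (L : ℝ) ^ (2 * F.D) := one_le_pow₀ hLr
    have h6 : ((J : ℝ) + 1) * (L : ℝ) ^ (2 * F.D) ≤ (S.card : ℝ) := by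
      rw [hScard]
      push_cast
      exact mul_le_mul_of_nonneg_left h4 (by positivity)
    have h7 : ((J : ℝ) + 1) * (L : ℝ) ^ (2 * F.D) ≤ (2 * M₀ / c + 5) * (L : ℝ) ^ (2 * F.D) := by
      calc ((J : ℝ) + 1) * (L : ℝ) ^ (2 * F.D) ≤ 2 * (M₀ / c * (L : ℝ) ^ (2 * F.D) + 2) + 1 := by
            rw [h3] at h2
            linarith
        _ ≤ (2 * M₀ / c + 5) * (L : ℝ) ^ (2 * F.D) := by
            have : 2 * (M₀ / c * (L : ℝ) ^ (2 * F.D) + 2) + 1 =
              2 * M₀ / c * (L : ℝ) ^ (2 * F.D) + 5 := by ring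
            rw [this, add_mul]
            linarith
    have h8 := le_of_mul_le_mul_right h7 (by linarith)
    linarith
  intro z hz
  obtain ⟨w, ⟨m₂, m₁, hm₂, hm₁, rfl⟩, hwd⟩ :=
    (G_finite F θ (2 * L * J)).isCompact.exists_infDist_eq_dist ⟨0, G_zero F θ _⟩ z
  have h1 := key z hz
  rw [hwd, Real.dist_eq] at h1
  have hcast : ∀ (v : Fin F.D → ℤ), (∀ i, |v i| ≤ ((2 * L * J : ℕ) : ℤ)) →
      ∀ i, |(v i : ℝ)| ≤ (2 * J + 2 * J * c + 1) * L := by
    intro v hv i
    have h2 : |(v i : ℝ)| ≤ 2 * L * J := by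
      have := hv i
      push_cast at this
      exact_mod_cast this
    have h3 : (0 : ℝ) ≤ (2 * J * c + 1) * L := by positivity
    nlinarith
  refine ⟨m₁, m₂, hcast m₁ hm₁, hcast m₂ hm₂, ?_⟩
  calc |z - (ell F.ω m₂ - θ * ell F.ω m₁)| * P ≤ (2 * J * η) * P :=
        mul_le_mul_of_nonneg_right h1 hP0.le
    _ = 2 * J * c := by rw [hη]; field_simp
    _ ≤ 2 * J + 2 * J * c + 1 := by
        have : (0 : ℝ) ≤ J := Nat.cast_nonneg J
        linarith

end Pool.Agent.Run7.h70.IHP
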