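import Mathlib

set_option autoImplicit false

/-! # Random dilates: few collisions -/

open Finset

namespace Pool.Agent.Run7.h70.IHP

/-- the number of pairs of indices with values within `s` -/
noncomputable def col {ι : Type} [Fintype ι] (v : ι → ℝ) (s : ℝ) : ℕ := by
  classical
  exact ((univ : Finset (ι × ι)).filter fun p => |v p.1 - v p.2| ≤ s).card

theorem count_grid {c Δ s η : ℝ} {R : ℕ} (hR : 1 ≤ R) (hη : 0 < η) (hΔ : η ≤ |Δ|) (hs : 0 ≤ s) :
    (((range R).filter fun k : ℕ => |c + ((k : ℝ) + 1) / R * Δ| ≤ s).card : ℝ) ≤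
      2 * s * R / η + 1 := by
  classical
  set S := (range R).filter fun k : ℕ => |c + ((k : ℝ) + 1) / R * Δ| ≤ s with hS
  have hRp : (0 : ℝ) < R := by exact_mod_cast hR
  rcases S.eq_empty_or_nonempty with h0 | h0
  · rw [h0, card_empty, Nat.cast_zero]
    positivity
  · set a := S.min' h0 with ha
    set b := S.max' h0 with hb
    have ham : a ∈ S := S.min'_mem h0
    have hbm : b ∈ S := S.max'_mem h0
    have hab : a ≤ b := S.min'_le _ hbm
    have hsub : S ⊆ Icc a b := fun k hk => mem_Icc.mpr ⟨S.min'_le _ hk, S.le_max' _ hk⟩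
    have h1 := (mem_filter.mp ham).2
    have h2 := (mem_filter.mp hbm).2
    have h3 : |((b : ℝ) - a) / R * Δ| ≤ 2 * s := by
      have e : ((b : ℝ) - a) / R * Δ =
          (c + ((b : ℝ) + 1) / R * Δ) - (c + ((a : ℝ) + 1) / R * Δ) := by ring
      rw [e]
      refine (abs_sub _ _).trans ?_
      linarith
    have habr : (a : ℝ) ≤ b := by exact_mod_cast hab
    have hnn : 0 ≤ ((b : ℝ) - a) / R := div_nonneg (by linarith) hRp.le
    rw [abs_mul, abs_of_nonneg hnn] at h3
    have h4 : ((b : ℝ) - a) / R * η ≤ 2 * s := (mul_le_mul_of_nonneg_left hΔ hnn).trans h3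
    have h5 : (b : ℝ) - a ≤ 2 * s * R / η := by
      rw [le_div_iff₀ hη]
      rw [div_mul_eq_mul_div, div_le_iff₀ hRp] at h4
      exact h4
    have h6 : (S.card : ℝ) ≤ (b : ℝ) - a + 1 := by
      have h7 := card_le_card hsub
      rw [Nat.card_Icc] at h7
      have h8 : (S.card : ℝ) ≤ ((b + 1 - a : ℕ) : ℝ) := by exact_mod_cast h7
      rw [Nat.cast_sub (by omega)] at h8
      push_cast at h8
      linarith
    linarith

/-- one more dilate -/
theorem one_dilate {ι A : Type} [Fintype ι] [Fintype A] [DecidableEq A] (v : ι → ℝ) (d : A → ℝ)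
    {η s : ℝ} (hη : 0 < η) (hs : 0 ≤ s) (hd : ∀ a b, a ≠ b → η ≤ |d a - d b|) {R : ℕ} (hR : 1 ≤ R) :
    ∃ κ : ℝ, 0 < κ ∧ κ ≤ 1 ∧
      (col (fun p : ι × A => v p.1 + κ * d p.2) s : ℝ) ≤
        Fintype.card A * col v s +
          ((Fintype.card ι : ℝ) * Fintype.card A) ^ 2 * (2 * s / η + 1 / R) := by
  classical
  have hRp : (0 : ℝ) < R := by exact_mod_cast hR
  set β : ℝ := 2 * s / η + 1 / R with hβ
  have hβ0 : 0 ≤ β := by positivity
  set f : ℕ → ℝ := fun k => (col (fun p : ι × A => v p.1 + ((k : ℝ) + 1) / R * d p.2) s : ℝ) with hf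
  set B : ℝ := Fintype.card A * col v s + ((Fintype.card ι : ℝ) * Fintype.card A) ^ 2 * β with hB
  have hsum : ∑ k ∈ range R, f k ≤ ∑ _k ∈ range R, B := by
    -- exchange the sums
    have e1 : ∑ k ∈ range R, f k = ∑ p : (ι × A) × (ι × A),
        (((range R).filter fun k : ℕ => |(v p.1.1 - v p.2.1) + ((k : ℝ) + 1) / R *
          (d p.1.2 - d p.2.2)| ≤ s).card : ℝ) := by
      have e2 : ∀ k, f k = ∑ p : (ι × A) × (ι × A),
          (if |(v p.1.1 - v p.2.1) + ((k : ℝ) + 1) / R * (d p.1.2 - d p.2.2)| ≤ s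
            then (1 : ℝ) else 0) := by
        intro k
        simp only [hf, col]
        rw [card_filter]
        push_cast
        refine sum_congr rfl fun p _ => ?_
        have e3 : v p.1.1 + ((k : ℝ) + 1) / R * d p.1.2 - (v p.2.1 + ((k : ℝ) + 1) / R * d p.2.2) =
            (v p.1.1 - v p.2.1) + ((k : ℝ) + 1) / R * (d p.1.2 - d p.2.2) := by ring
        rw [e3]
      rw [sum_congr rfl fun k _ => e2 k, sum_comm]
      refine sum_congr rfl fun p _ => ?_
      rw [card_filter]
      push_cast
      rfl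
    rw [e1]
    have e4 : ∀ p : (ι × A) × (ι × A),
        (((range R).filter fun k : ℕ => |(v p.1.1 - v p.2.1) + ((k : ℝ) + 1) / R *
          (d p.1.2 - d p.2.2)| ≤ s).card : ℝ) ≤
        (if p.1.2 = p.2.2 ∧ |v p.1.1 - v p.2.1| ≤ s then (R : ℝ) else 0) + R * β := by
      intro p
      by_cases h : p.1.2 = p.2.2
      · rw [h]
        simp only [sub_self, mul_zero, add_zero, true_and]
        by_cases h' : |v p.1.1 - v p.2.1| ≤ s
        · rw [if_pos h', filter_true_of_mem (fun _ _ => h'), card_range]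
          have : 0 ≤ R * β := by positivity
          linarith
        · rw [if_neg h', filter_false_of_mem (fun _ _ => h'), card_empty, Nat.cast_zero]
          positivity
      · rw [if_neg (fun h' => h h'.1), zero_add]
        refine (count_grid hR hη (hd _ _ h) hs).trans (le_of_eq ?_)
        rw [hβ]
        field_simp
    refine (sum_le_sum fun p _ => e4 p).trans ?_
    rw [sum_add_distrib, sum_const, card_univ, Fintype.card_prod, Fintype.card_prod, sum_const,
      card_range, nsmul_eq_mul, nsmul_eq_mul]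
    have e5 : ∑ p : (ι × A) × (ι × A),
        (if p.1.2 = p.2.2 ∧ |v p.1.1 - v p.2.1| ≤ s then (R : ℝ) else 0) =
        R * (Fintype.card A * col v s) := by
      rw [← sum_filter, sum_const, nsmul_eq_mul, mul_comm]
      congr 1
      have e6 : ((univ : Finset ((ι × A) × (ι × A))).filter
          fun p => p.1.2 = p.2.2 ∧ |v p.1.1 - v p.2.1| ≤ s).card =
          ((univ : Finset A) ×ˢ ((univ : Finset (ι × ι)).filter
            fun p => |v p.1 - v p.2| ≤ s)).card := by
        refine card_bij' (fun p _ => (p.1.2, (p.1.1, p.2.1)))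
          (fun q _ => ((q.2.1, q.1), (q.2.2, q.1))) ?_ ?_ ?_ ?_
        · intro p hp
          exact mem_product.mpr ⟨mem_univ _, mem_filter.mpr ⟨mem_univ _, (mem_filter.mp hp).2.2⟩⟩
        · intro q hq
          exact mem_filter.mpr ⟨mem_univ _, rfl, (mem_filter.mp (mem_product.mp hq).2).2⟩
        · rintro ⟨⟨i, a⟩, ⟨j, b⟩⟩ hp
          have : a = b := (mem_filter.mp hp).2.1
          simp only [this]
        · rintro ⟨a, ⟨i, j⟩⟩ _
          rfl
      rw [e6, card_product, card_univ]
      push_cast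
      simp only [col]
    rw [e5, hB]
    push_cast
    refine le_of_eq ?_
    ring
  obtain ⟨k, hk, hle⟩ := exists_le_of_sum_le (nonempty_range_iff.mpr (by omega)) hsum
  refine ⟨((k : ℝ) + 1) / R, by positivity, ?_, hle⟩
  rw [div_le_one hRp]
  have := mem_range.mp hk
  exact_mod_cast this

/-- Cauchy-Schwarz: many occupied cells -/
theorem many_cells {ι : Type} [Fintype ι] (v : ι → ℝ) {s : ℝ} (hs : 0 < s) :
    ∃ G : Finset ι, (∀ i ∈ G, ∀ j ∈ G, i ≠ j → s < |v i - v j|) ∧
      (Fintype.card ι : ℝ) ^ 2 ≤ 2 * G.card * col v s := by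
  classical
  set c : ι → ℤ := fun i => ⌊v i / s⌋ with hc
  set T : Finset ℤ := univ.image c with hT
  have hcs : (Fintype.card ι) ^ 2 ≤ T.card * col v s := by
    have h1 : (univ : Finset ι).card = ∑ y ∈ T, ((univ : Finset ι).filter fun x => c x = y).card :=
      card_eq_sum_card_fiberwise (fun x _ => mem_image_of_mem _ (mem_univ x))
    have h2 : ((univ : Finset (ι × ι)).filter fun x => c x.1 = c x.2).card
        = ∑ y ∈ T, ((univ : Finset ι).filter fun x => c x = y).card ^ 2 := by
      rw [card_eq_sum_card_fiberwise (f := fun x : ι × ι => c x.1) (t := T)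
        (fun x _ => mem_image_of_mem _ (mem_univ _))]
      refine sum_congr rfl fun y _ => ?_
      rw [sq, ← card_product]
      congr 1
      ext ⟨u, w⟩
      simp only [mem_filter, mem_product, mem_univ, true_and]
      constructor
      · rintro ⟨h, h'⟩
        exact ⟨h', by rw [← h, h']⟩
      · rintro ⟨h, h'⟩
        exact ⟨by rw [h, h'], h⟩
    have h3 : ((univ : Finset (ι × ι)).filter fun x => c x.1 = c x.2).card ≤ col v s := by
      unfold col
      refine card_le_card fun p hp => ?_
      refine mem_filter.mpr ⟨mem_univ _, ?_⟩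
      have h4 := Int.abs_sub_lt_one_of_floor_eq_floor (mem_filter.mp hp).2
      rw [← sub_div, abs_div, abs_of_pos hs, div_lt_one hs] at h4
      exact h4.le
    rw [← card_univ, h1]
    refine (sq_sum_le_card_mul_sum_sq).trans ?_
    rw [← h2]
    exact Nat.mul_le_mul_left _ h3
  -- one parity class
  obtain ⟨e, he⟩ : ∃ e : ℤ, T.card ≤ 2 * (T.filter fun t => t % 2 = e).card := by
    have h5 : T.card = (T.filter fun t => t % 2 = 0).card + (T.filter fun t => ¬ t % 2 = 0).card :=
      (card_filter_add_card_filter_not _).symm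
    have h6 : (T.filter fun t => ¬ t % 2 = 0) = T.filter fun t => t % 2 = 1 := by
      refine filter_congr fun t _ => ?_
      omega
    rw [h6] at h5
    rcases le_total (T.filter fun t => t % 2 = 0).card (T.filter fun t => t % 2 = 1).card with h | h
    · exact ⟨1, by omega⟩
    · exact ⟨0, by omega⟩
  set T' := T.filter fun t => t % 2 = e with hT'
  have hpick : ∀ t : ℤ, ∃ i : Option ι, t ∈ T' → ∃ j, i = some j ∧ c j = t := by
    intro t
    by_cases ht : t ∈ T'
    · obtain ⟨j, _, hj⟩ := mem_image.mp (mem_filter.mp ht).1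
      exact ⟨some j, fun _ => ⟨j, rfl, hj⟩⟩
    · exact ⟨none, fun h => absurd h ht⟩
  choose g hg using hpick
  refine ⟨(univ : Finset ι).filter (fun i => c i ∈ T' ∧ g (c i) = some i), ?_, ?_⟩
  · intro i hi j hj hij
    obtain ⟨_, hi1, hi2⟩ := mem_filter.mp hi
    obtain ⟨_, hj1, hj2⟩ := mem_filter.mp hj
    have hne : c i ≠ c j := by
      intro h
      rw [h] at hi2
      rw [hi2] at hj2
      exact hij (Option.some.inj hj2)
    have h7 := (mem_filter.mp hi1).2
    have h8 := (mem_filter.mp hj1).2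
    have f1 := Int.floor_le (v i / s)
    have f2 := Int.lt_floor_add_one (v i / s)
    have f3 := Int.floor_le (v j / s)
    have f4 := Int.lt_floor_add_one (v j / s)
    have h9 : c i + 2 ≤ c j ∨ c j + 2 ≤ c i := by omega
    have h10 : 1 < |v i / s - v j / s| := by
      rcases h9 with h | h
      · have h' : (c i : ℝ) + 2 ≤ c j := by exact_mod_cast h
        rw [abs_sub_comm]
        refine lt_of_lt_of_le ?_ (le_abs_self _)
        simp only [hc] at h'
        linarith
      · have h' : (c j : ℝ) + 2 ≤ c i := by exact_mod_cast h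
        refine lt_of_lt_of_le ?_ (le_abs_self _)
        simp only [hc] at h'
        linarith
    rw [← sub_div, abs_div, abs_of_pos hs, lt_div_iff₀ hs, one_mul] at h10
    exact h10
  · have h11 : T'.card ≤ ((univ : Finset ι).filter (fun i => c i ∈ T' ∧ g (c i) = some i)).card := by
      refine card_le_card_of_surjOn c ?_
      intro t ht
      obtain ⟨j, hj1, hj2⟩ := hg t (mem_coe.mp ht)
      refine ⟨j, mem_coe.mpr (mem_filter.mpr ⟨mem_univ _, ?_, ?_⟩), hj2⟩
      · rw [hj2]; exact mem_coe.mp ht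
      · rw [hj2]; exact hj1
    have h12 : (Fintype.card ι) ^ 2 ≤ 2 * ((univ : Finset ι).filter
        (fun i => c i ∈ T' ∧ g (c i) = some i)).card * col v s :=
      hcs.trans (Nat.mul_le_mul_right _ (he.trans (Nat.mul_le_mul_left _ h11)))
    exact_mod_cast h12

end Pool.Agent.Run7.h70.IHP
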