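import Pool.Agent.Run7.h70.IHP.Exact
import Pool.Agent.Run7.h70.IHP.Random

set_option autoImplicit false

/-! # One level of the construction for an arbitrary field -/

open Filter Topology Finset

namespace Pool.Agent.Run7.h70.IHP

/-- the sums of `J` random dilates of `P × P` -/
theorem tower (P : Finset ℝ) (hP : 2 ≤ P.card) (θ lam η s h σ : ℝ) (hη : 0 < η) (hs : 0 ≤ s)
    (hσ : 0 ≤ σ)
    (hsep : ∀ a b : {p : ℝ × ℝ // p ∈ P ×ˢ P}, a ≠ b →
      η ≤ |lam * (a.1.2 - θ * a.1.1) - lam * (b.1.2 - θ * b.1.1)|)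
    (hh : ∀ x ∈ P, |lam * x| ≤ h) (Q : Finset (ℝ × ℝ))
    (hQ : ∀ q ∈ Q, ((((P ×ˢ P) ×ˢ (P ×ˢ P)).image
        (fun p => q.1 * (p.1.1 - p.1.2) + q.2 * (p.2.1 - p.2.2))).card : ℝ) ≤ σ)
    (R : ℕ) (hR : 1 ≤ R) (J : ℕ) :
    ∃ (ι : Type) (_ : Fintype ι) (f g : ι → ℝ), Fintype.card ι = (P.card * P.card) ^ J ∧
      (col (fun i => g i - θ * f i) s : ℝ) ≤ ((P.card : ℝ) * P.card) ^ J +
        2 * (2 * s / η + 1 / R) * (((P.card : ℝ) * P.card) ^ J) ^ 2 ∧
      (∀ i, |f i| ≤ J * h ∧ |g i| ≤ J * h) ∧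
      ∀ q ∈ Q, (Set.range (fun p : ι × ι => q.1 * (f p.1 - f p.2) + q.2 * (g p.1 - g p.2))).ncard ≤
        σ ^ J := by
  classical
  set β : ℝ := 2 * s / η + 1 / R with hβ
  have hβ0 : 0 ≤ β := by positivity
  induction J with
  | zero =>
    refine ⟨Unit, inferInstance, fun _ => 0, fun _ => 0, by simp, ?_, by simp, fun q _ => ?_⟩
    · have h1 : (col (fun _ : Unit => (0 : ℝ) - θ * 0) s : ℝ) ≤ 1 := by
        unfold col
        have : ((univ : Finset (Unit × Unit)).filter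
            fun p => |((0 : ℝ) - θ * 0) - (0 - θ * 0)| ≤ s).card ≤ 1 :=
          (card_le_univ _).trans (by simp)
        exact_mod_cast this
      rw [pow_zero]
      have : 0 ≤ 2 * β * 1 ^ 2 := by positivity
      linarith
    · simp
  | succ J ih =>
    obtain ⟨ι, hι, f, g, h1, h2, h3, h4⟩ := ih
    have hcardA : Fintype.card {p : ℝ × ℝ // p ∈ P ×ˢ P} = P.card * P.card := by
      rw [Fintype.card_coe, card_product]
    obtain ⟨κ, hκ0, hκ1, hκ⟩ := one_dilate (A := {p : ℝ × ℝ // p ∈ P ×ˢ P})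
      (fun i => g i - θ * f i) (fun a => lam * (a.1.2 - θ * a.1.1)) hη hs hsep hR
    set M : ℝ := (P.card : ℝ) * P.card with hM
    have hM2 : 2 ≤ M := by
      have : (2 : ℝ) ≤ P.card := by exact_mod_cast hP
      nlinarith
    refine ⟨ι × {p : ℝ × ℝ // p ∈ P ×ˢ P}, inferInstance,
      fun p => f p.1 + κ * (lam * p.2.1.1), fun p => g p.1 + κ * (lam * p.2.1.2), ?_, ?_, ?_, ?_⟩
    · rw [Fintype.card_prod, h1, hcardA, pow_succ]
    · have e1 : (fun p : ι × {p : ℝ × ℝ // p ∈ P ×ˢ P} =>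
          g p.1 + κ * (lam * p.2.1.2) - θ * (f p.1 + κ * (lam * p.2.1.1))) =
          fun p => (g p.1 - θ * f p.1) + κ * (lam * (p.2.1.2 - θ * p.2.1.1)) := by
        funext p
        ring
      rw [e1]
      refine hκ.trans ?_
      rw [h1, hcardA]
      push_cast
      rw [← hM]
      have hMJ : 0 < M ^ J := by positivity
      calc M * (col (fun i => g i - θ * f i) s : ℝ) + (M ^ J * M) ^ 2 * β
          ≤ M * (M ^ J + 2 * β * (M ^ J) ^ 2) + (M ^ J * M) ^ 2 * β := by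
            have := mul_le_mul_of_nonneg_left h2 (by linarith : 0 ≤ M)
            linarith
        _ = M ^ (J + 1) + β * (M ^ J) ^ 2 * (2 * M + M ^ 2) := by ring
        _ ≤ M ^ (J + 1) + β * (M ^ J) ^ 2 * (2 * M ^ 2) := by
            have h5 : 2 * M + M ^ 2 ≤ 2 * M ^ 2 := by nlinarith
            have h6 := mul_le_mul_of_nonneg_left h5 (by positivity : 0 ≤ β * (M ^ J) ^ 2)
            linarith
        _ = _ := by ring
    · intro p
      have hx := hh p.2.1.1 (mem_product.mp p.2.2).1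
      have hy := hh p.2.1.2 (mem_product.mp p.2.2).2
      have hh0 : 0 ≤ h := (abs_nonneg _).trans hx
      have key : ∀ u w : ℝ, |u| ≤ J * h → |w| ≤ h → |u + κ * w| ≤ ((J + 1 : ℕ) : ℝ) * h := by
        intro u w hu hw
        calc |u + κ * w| ≤ |u| + |κ * w| := abs_add_le _ _
          _ ≤ J * h + 1 * h := by
              rw [abs_mul, abs_of_pos hκ0]
              exact add_le_add hu (mul_le_mul hκ1 hw (abs_nonneg _) zero_le_one)
          _ = ((J + 1 : ℕ) : ℝ) * h := by push_cast; ring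
      exact ⟨key _ _ (h3 p.1).1 hx, key _ _ (h3 p.1).2 hy⟩
    · intro q hq
      set S1 : Set ℝ := Set.range
        (fun p : ι × ι => q.1 * (f p.1 - f p.2) + q.2 * (g p.1 - g p.2)) with hS1
      set S2 : Finset ℝ := ((P ×ˢ P) ×ˢ (P ×ˢ P)).image
        (fun p => q.1 * (p.1.1 - p.1.2) + q.2 * (p.2.1 - p.2.2)) with hS2
      have hS1f : S1.Finite := Set.finite_range _
      have hsub : Set.range (fun p : (ι × {p : ℝ × ℝ // p ∈ P ×ˢ P}) ×
          (ι × {p : ℝ × ℝ // p ∈ P ×ˢ P}) =>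
          q.1 * ((f p.1.1 + κ * (lam * p.1.2.1.1)) - (f p.2.1 + κ * (lam * p.2.2.1.1))) +
          q.2 * ((g p.1.1 + κ * (lam * p.1.2.1.2)) - (g p.2.1 + κ * (lam * p.2.2.1.2)))) ⊆
          (fun z : ℝ × ℝ => z.1 + κ * lam * z.2) '' (S1 ×ˢ (S2 : Set ℝ)) := by
        rintro _ ⟨p, rfl⟩
        refine ⟨(q.1 * (f p.1.1 - f p.2.1) + q.2 * (g p.1.1 - g p.2.1),
          q.1 * (p.1.2.1.1 - p.2.2.1.1) + q.2 * (p.1.2.1.2 - p.2.2.1.2)), ⟨⟨(p.1.1, p.2.1), rfl⟩, ?_⟩, ?_⟩
        · rw [mem_coe, hS2, mem_image]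
          refine ⟨((p.1.2.1.1, p.2.2.1.1), (p.1.2.1.2, p.2.2.1.2)), ?_, rfl⟩
          have m1 := mem_product.mp p.1.2.2
          have m2 := mem_product.mp p.2.2.2
          exact mem_product.mpr ⟨mem_product.mpr ⟨m1.1, m2.1⟩, mem_product.mpr ⟨m1.2, m2.2⟩⟩
        · simp only
          ring
      have hfin : (S1 ×ˢ (S2 : Set ℝ)).Finite := hS1f.prod (Finset.finite_toSet _)
      have hle := (Set.ncard_le_ncard hsub (hfin.image _)).trans (Set.ncard_image_le hfin)
      rw [Set.ncard_prod, Set.ncard_coe_finset] at hle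
      rw [pow_succ]
      calc ((Set.range (fun p : (ι × {p : ℝ × ℝ // p ∈ P ×ˢ P}) ×
          (ι × {p : ℝ × ℝ // p ∈ P ×ˢ P}) =>
          q.1 * ((f p.1.1 + κ * (lam * p.1.2.1.1)) - (f p.2.1 + κ * (lam * p.2.2.1.1))) +
          q.2 * ((g p.1.1 + κ * (lam * p.1.2.1.2)) - (g p.2.1 + κ * (lam * p.2.2.1.2))))).ncard : ℝ)
          ≤ (S1.ncard * S2.card : ℕ) := by exact_mod_cast hle
        _ = (S1.ncard : ℝ) * S2.card := by push_cast; rfl
        _ ≤ σ ^ J * σ := mul_le_mul (h4 q hq) (hQ q hq) (by positivity) (by positivity)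

theorem exists_sep {A : Type} [Finite A] (d : A → ℝ) (hd : Function.Injective d) :
    ∃ η : ℝ, 0 < η ∧ ∀ a b, a ≠ b → η ≤ |d a - d b| := by
  classical
  have := Fintype.ofFinite A
  set S : Finset (A × A) := univ.filter fun p => p.1 ≠ p.2 with hS
  rcases S.eq_empty_or_nonempty with h | h
  · refine ⟨1, one_pos, fun a b hab => ?_⟩
    have : (a, b) ∈ S := mem_filter.mpr ⟨mem_univ _, hab⟩
    rw [h] at this
    exact absurd this (notMem_empty _)
  · obtain ⟨p, hp, hmin⟩ := exists_min_image S (fun p => |d p.1 - d p.2|) h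
    refine ⟨|d p.1 - d p.2|, abs_pos.mpr (sub_ne_zero.mpr fun h => (mem_filter.mp hp).2 (hd h)),
      fun a b hab => hmin (a, b) (mem_filter.mpr ⟨mem_univ _, hab⟩)⟩

theorem card_sep {α : Type*} (S : Finset α) (w : α → ℝ) {s H : ℝ} (hs : 0 < s)
    (hsep : ∀ a ∈ S, ∀ b ∈ S, a ≠ b → s < |w a - w b|) (hH : 0 ≤ H) (hb : ∀ a ∈ S, |w a| ≤ H) :
    (S.card : ℝ) ≤ 2 * (H / s) + 5 := by
  classical
  set R : ℤ := ⌈H / s⌉ + 1 with hR
  have hR0 : (0 : ℤ) ≤ R := by
    have : (0 : ℤ) ≤ ⌈H / s⌉ := Int.ceil_nonneg (by positivity)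
    omega
  have hcard : S.card ≤ (Finset.Icc (-R) R).card := by
    refine card_le_card_of_injOn (fun a => ⌊w a / s⌋) ?_ ?_
    · intro a ha
      have h1 := abs_le.mp (hb a ha)
      have h2 : w a / s ≤ H / s := div_le_div_of_nonneg_right h1.2 hs.le
      have h3 : -(H / s) ≤ w a / s := by
        rw [← neg_div]
        exact div_le_div_of_nonneg_right h1.1 hs.le
      have h4 := Int.le_ceil (H / s)
      simp only [Finset.coe_Icc, Set.mem_Icc]
      constructor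
      · refine Int.le_floor.mpr ?_
        rw [hR]
        push_cast
        linarith
      · have h5 : (⌊w a / s⌋ : ℝ) ≤ (R : ℝ) := by
          rw [hR]
          push_cast
          have := Int.floor_le (w a / s)
          linarith
        exact_mod_cast h5
    · intro a ha b hb' hab
      by_contra hne
      have h1 := hsep a ha b hb' hne
      simp only at hab
      have h2 := Int.abs_sub_lt_one_of_floor_eq_floor hab
      rw [← sub_div, abs_div, abs_of_pos hs, div_lt_one hs] at h2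
      linarith
  have hIcc : ((Finset.Icc (-R) R).card : ℝ) = 2 * (R : ℝ) + 1 := by
    rw [Int.card_Icc]
    have : ((R + 1 - -R).toNat : ℤ) = 2 * R + 1 := by
      rw [Int.toNat_of_nonneg (by omega)]; ring
    exact_mod_cast this
  have h1 : (S.card : ℝ) ≤ 2 * (R : ℝ) + 1 := by
    rw [← hIcc]
    exact_mod_cast hcard
  have h2 : (R : ℝ) ≤ H / s + 2 := by
    rw [hR]
    push_cast
    have := Int.ceil_lt_add_one (H / s)
    linarith
  linarith

/-- covering an interval by few translates of a difference set -/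
theorem few_translates {ι : Type} (G : Finset ι) (v : ι → ℝ) {s H : ℝ} (hs : 0 < s) (hH : 0 ≤ H)
    (hG : G.Nonempty) (hsep : ∀ i ∈ G, ∀ j ∈ G, i ≠ j → s < |v i - v j|)
    (hb : ∀ i ∈ G, |v i| ≤ H) :
    ∃ Z : Finset ℝ, (∀ z ∈ Z, |z| ≤ 1) ∧ ((Z.card : ℝ) * G.card ≤ 2 * ((H + 1) / s) + 5) ∧
      ∀ z, |z| ≤ 1 → ∃ z' ∈ Z, ∃ i ∈ G, ∃ j ∈ G, |z + v i - (z' + v j)| ≤ s := by
  classical
  set Pr : Finset ℝ → Prop := fun Z => (∀ z ∈ Z, |z| ≤ 1) ∧ ∀ z ∈ Z, ∀ z' ∈ Z, z ≠ z' →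
    ∀ i ∈ G, ∀ j ∈ G, s < |z + v i - (z' + v j)| with hPr
  have hcount : ∀ Z, Pr Z → ((Z.card : ℝ) * G.card ≤ 2 * ((H + 1) / s) + 5) := by
    intro Z hZ
    have h1 := card_sep (Z ×ˢ G) (fun p => p.1 + v p.2) (s := s) (H := H + 1) hs ?_ (by linarith) ?_
    · rw [card_product] at h1
      push_cast at h1
      exact h1
    · rintro ⟨z, i⟩ h1 ⟨z', j⟩ h2 hne
      rw [mem_product] at h1 h2
      by_cases hz : z = z'
      · subst hz
        have hij : i ≠ j := fun h => hne (by rw [h])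
        have := hsep i h1.2 j h2.2 hij
        simp only
        rwa [add_sub_add_left_eq_sub]
      · exact hZ.2 z h1.1 z' h2.1 hz i h1.2 j h2.2
    · rintro ⟨z, i⟩ h1
      rw [mem_product] at h1
      have e1 := hZ.1 z h1.1
      have e2 := hb i h1.2
      simp only
      have := abs_add_le z (v i)
      linarith
  by_contra hcon
  push Not at hcon
  have hgrow : ∀ n : ℕ, ∃ Z, Pr Z ∧ Z.card = n := by
    intro n
    induction n with
    | zero => exact ⟨∅, ⟨by simp, by simp⟩, rfl⟩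
    | succ n ih =>
      obtain ⟨Z, hZ, hc⟩ := ih
      obtain ⟨z, hz1, hz2⟩ := hcon Z hZ.1 (hcount Z hZ)
      have hz : z ∉ Z := by
        intro h
        obtain ⟨i, hi⟩ := hG
        have := hz2 z h i hi i hi
        rw [sub_self, abs_zero] at this
        linarith
      refine ⟨insert z Z, ⟨?_, ?_⟩, by rw [card_insert_of_notMem hz, hc]⟩
      · intro w hw
        rcases mem_insert.mp hw with rfl | hw
        · exact hz1
        · exact hZ.1 w hw
      · intro w hw w' hw' hne i hi j hj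
        rcases mem_insert.mp hw with hw1 | hw1 <;> rcases mem_insert.mp hw' with hw2 | hw2
        · exact absurd (hw1.trans hw2.symm) hne
        · rw [hw1]
          exact hz2 w' hw2 i hi j hj
        · rw [hw2, abs_sub_comm]
          exact hz2 w hw1 j hj i hi
        · exact hZ.2 w hw1 w' hw2 hne i hi j hj
  have hG1 : (1 : ℝ) ≤ G.card := by exact_mod_cast card_pos.mpr hG
  obtain ⟨n, hn⟩ := exists_nat_gt (2 * ((H + 1) / s) + 5)
  obtain ⟨Z, hZ, hc⟩ := hgrow n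
  have h1 := hcount Z hZ
  rw [hc] at h1
  have h2 : (n : ℝ) ≤ (n : ℝ) * G.card := le_mul_of_one_le_right (by positivity) hG1
  linarith

/-- **One level.** -/
theorem level (K : Subfield ℝ) {θ : ℝ} (hθ : θ ∉ K) (Q : Finset (ℝ × ℝ))
    (hQ : ∀ q ∈ Q, q.1 ∈ K ∧ q.2 ∈ K) {ε : ℝ} (hε : 0 < ε) :
    ∃ (η : ℝ) (Ξ : Finset (ℝ × ℝ)), 0 < η ∧ η ≤ 1 / 2 ∧ (∀ p ∈ Ξ, |p.1| ≤ 2 ∧ |p.2| ≤ 2) ∧
      (∀ z, |z| ≤ 1 → ∃ p ∈ Ξ, |z - (p.2 - θ * p.1)| ≤ η) ∧
      ∀ q ∈ Q, ((Ξ.image (fun p => q.1 * p.1 + q.2 * p.2)).card : ℝ) ≤ η ^ (-(1 / 2 + ε)) := by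
  classical
  obtain ⟨P, hP2, hPK, hPQ⟩ := exists_P K Q hQ hε
  have hm : (2 : ℝ) ≤ P.card := by exact_mod_cast hP2
  set m : ℝ := (P.card : ℝ) with hmdef
  set M : ℝ := m * m with hM
  have hM4 : 4 ≤ M := by nlinarith
  -- the bound for `P`
  obtain ⟨B, hB1, hB⟩ : ∃ B : ℝ, 1 ≤ B ∧ ∀ x ∈ P, |x| ≤ B := by
    refine ⟨∑ x ∈ P, |x| + 1, ?_, fun x hx => ?_⟩
    · have := sum_nonneg (fun x (_ : x ∈ P) => abs_nonneg x)
      linarith
    · have : |x| ≤ ∑ x ∈ P, |x| :=
        single_le_sum (f := fun x : ℝ => |x|) (fun x _ => abs_nonneg x) hx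
      linarith
  -- the separation
  have hinj : Function.Injective (fun a : {p : ℝ × ℝ // p ∈ P ×ˢ P} => a.1.2 - θ * a.1.1) := by
    rintro ⟨⟨x, y⟩, h1⟩ ⟨⟨x', y'⟩, h2⟩ h
    rw [mem_product] at h1 h2
    simp only at h h1 h2
    have hx : x = x' := by
      by_contra hne
      apply hθ
      have e : θ = (y - y') / (x - x') := by
        rw [eq_div_iff (sub_ne_zero.mpr hne)]
        linarith
      rw [e]
      exact div_mem (sub_mem (hPK _ h1.2) (hPK _ h2.2)) (sub_mem (hPK _ h1.1) (hPK _ h2.1))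
    subst hx
    have hy : y = y' := by linarith
    subst hy
    rfl
  obtain ⟨η₁, hη₁, hsep₁⟩ := exists_sep _ hinj
  -- the number of steps
  set H : ℝ := 1 + |θ| with hH
  have hH0 : 0 < H := by positivity
  set c₀ : ℝ := 2 * (3 + 8 * B / η₁) * (2 * H + 7) with hc₀
  have hc₀pos : 0 < c₀ := by positivity
  set r : ℝ := M ^ (ε / 2) with hr
  have hr1 : 1 < r := Real.one_lt_rpow (by linarith) (by linarith)
  obtain ⟨J, hJ1, hJ⟩ : ∃ J : ℕ, 1 ≤ J ∧ c₀ * ((J : ℝ) + 1) ≤ r ^ J := by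
    have h1 := tendsto_pow_const_div_const_pow_of_one_lt 1 hr1
    have h2 := (h1.comp (tendsto_add_atTop_nat 1)).eventually
      (gt_mem_nhds (show (0 : ℝ) < 1 / (c₀ * r) by positivity))
    obtain ⟨J, h3, h4⟩ := (h2.and (eventually_ge_atTop 1)).exists
    refine ⟨J, h4, ?_⟩
    simp only [Function.comp] at h3
    rw [pow_one, div_lt_div_iff₀ (by positivity) (by positivity), pow_succ] at h3
    push_cast at h3
    have h5 : 0 < r := by linarith
    have h6 : (c₀ * ((J : ℝ) + 1)) * r < r ^ J * r := by linarith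
    exact (lt_of_mul_lt_mul_right h6 h5.le).le
  set lam : ℝ := 1 / (2 * ((J : ℝ) + 1) * B) with hlam
  have hlam0 : 0 < lam := by positivity
  set s : ℝ := (M ^ J)⁻¹ with hs
  have hMJ : 0 < M ^ J := by positivity
  have hs0 : 0 < s := by positivity
  set R : ℕ := (P.card * P.card) ^ J with hR
  have hRr : (R : ℝ) = M ^ J := by rw [hR]; push_cast; rfl
  have hR1 : 1 ≤ R := by
    have : 0 < P.card := by omega
    exact Nat.one_le_iff_ne_zero.mpr (by positivity)
  set σ : ℝ := m ^ (1 + ε) with hσ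
  obtain ⟨ι, hι, f, g, t1, t2, t3, t4⟩ := tower P hP2 θ lam (lam * η₁) s (1 / (2 * ((J : ℝ) + 1))) σ
    (by positivity) hs0.le (by positivity)
    (fun a b hab => by
      rw [← mul_sub, abs_mul, abs_of_pos hlam0]
      exact mul_le_mul_of_nonneg_left (hsep₁ a b hab) hlam0.le)
    (fun x hx => by
      rw [abs_mul, abs_of_pos hlam0]
      calc lam * |x| ≤ lam * B := mul_le_mul_of_nonneg_left (hB x hx) hlam0.le
        _ = 1 / (2 * ((J : ℝ) + 1)) := by rw [hlam]; field_simp)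
    Q hPQ R hR1 J
  set v : ι → ℝ := fun i => g i - θ * f i with hv
  have hJh : (J : ℝ) * (1 / (2 * ((J : ℝ) + 1))) ≤ 1 / 2 := by
    rw [mul_one_div, div_le_div_iff₀ (by positivity) (by norm_num)]
    linarith
  set C₁ : ℝ := 3 + 8 * ((J : ℝ) + 1) * B / η₁ with hC₁
  have hcol : (col v s : ℝ) ≤ C₁ * M ^ J := by
    refine t2.trans (le_of_eq ?_)
    rw [hRr, ← hM, hC₁, hs, hlam]
    field_simp
    ring
  obtain ⟨G, hG1, hG2⟩ := many_cells v hs0
  have hcardι : (Fintype.card ι : ℝ) = M ^ J := by rw [t1]; push_cast; rfl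
  rw [hcardι] at hG2
  have hG3 : M ^ J ≤ 2 * C₁ * G.card := by
    have h1 : (M ^ J) * (M ^ J) ≤ (2 * C₁ * G.card) * (M ^ J) := by
      calc (M ^ J) * (M ^ J) = (M ^ J) ^ 2 := by ring
        _ ≤ 2 * G.card * col v s := hG2
        _ ≤ 2 * G.card * (C₁ * M ^ J) := mul_le_mul_of_nonneg_left hcol (by positivity)
        _ = _ := by ring
    exact le_of_mul_le_mul_right h1 hMJ
  have hC₁pos : 0 < C₁ := by positivity
  have hGpos : (0 : ℝ) < G.card := by
    by_contra h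
    have h' : (G.card : ℝ) = 0 := le_antisymm (not_lt.mp h) (by positivity)
    rw [h', mul_zero] at hG3
    linarith
  have hGne : G.Nonempty := by
    rw [← card_pos]
    exact_mod_cast hGpos
  have hvb : ∀ i ∈ G, |v i| ≤ H := by
    intro i _
    have h1 := (t3 i).1.trans hJh
    have h2 := (t3 i).2.trans hJh
    calc |v i| ≤ |g i| + |θ * f i| := abs_sub _ _
      _ ≤ 1 / 2 + |θ| * (1 / 2) := by
          rw [abs_mul]
          exact add_le_add h2 (mul_le_mul_of_nonneg_left h1 (abs_nonneg _))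
      _ ≤ H := by
          have := abs_nonneg θ
          simp only [hH]
          linarith
  obtain ⟨Z, hZ1, hZ2, hZ3⟩ := few_translates G v hs0 hH0.le hGne hG1 hvb
  have hZcard : (Z.card : ℝ) ≤ r ^ J := by
    have h1 : (Z.card : ℝ) * G.card ≤ (2 * H + 7) * M ^ J := by
      refine hZ2.trans ?_
      have h2 : (H + 1) / s = (H + 1) * M ^ J := by rw [hs, div_inv_eq_mul]
      have h3 : (1 : ℝ) ≤ M ^ J := one_le_pow₀ (by linarith)
      rw [h2]
      nlinarith
    have h4 : (Z.card : ℝ) * G.card ≤ ((2 * H + 7) * (2 * C₁)) * G.card := by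
      refine h1.trans ?_
      have := mul_le_mul_of_nonneg_left hG3 (by positivity : 0 ≤ 2 * H + 7)
      linarith
    have h5 := le_of_mul_le_mul_right h4 hGpos
    refine h5.trans (le_trans ?_ hJ)
    rw [hc₀, hC₁]
    have h6 : (3 : ℝ) ≤ 3 * (J + 1) := by
      have : (0 : ℝ) ≤ J := Nat.cast_nonneg J
      linarith
    have h7 : (3 : ℝ) + 8 * (J + 1) * B / η₁ ≤ (3 + 8 * B / η₁) * (J + 1) := by
      have e : (3 + 8 * B / η₁) * ((J : ℝ) + 1) = 3 * (J + 1) + 8 * (J + 1) * B / η₁ := by ring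
      rw [e]
      linarith
    calc (2 * H + 7) * (2 * (3 + 8 * (J + 1) * B / η₁))
        ≤ (2 * H + 7) * (2 * ((3 + 8 * B / η₁) * (J + 1))) := by gcongr
      _ = 2 * (3 + 8 * B / η₁) * (2 * H + 7) * (J + 1) := by ring
  -- the digits
  set Ξ : Finset (ℝ × ℝ) := (Z ×ˢ (G ×ˢ G)).image
    (fun p => (f p.2.2 - f p.2.1, p.1 + (g p.2.2 - g p.2.1))) with hΞ
  refine ⟨s, Ξ, hs0, ?_, ?_, ?_, ?_⟩
  · rw [hs, inv_le_comm₀ hMJ (by norm_num)]
    calc (1 / 2 : ℝ)⁻¹ = 2 := by norm_num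
      _ ≤ M := by linarith
      _ ≤ M ^ J := le_self_pow₀ (by linarith) (by omega)
  · intro p hp
    obtain ⟨⟨z, i, j⟩, hq, rfl⟩ := mem_image.mp hp
    rw [mem_product, mem_product] at hq
    have a1 := (t3 i).1.trans hJh
    have a2 := (t3 i).2.trans hJh
    have a3 := (t3 j).1.trans hJh
    have a4 := (t3 j).2.trans hJh
    have a5 := hZ1 z hq.1
    simp only
    rw [abs_le] at a1 a2 a3 a4 a5
    constructor
    · rw [abs_le]; constructor <;> linarith [a1.1, a1.2, a3.1, a3.2]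
    · rw [abs_le]; constructor <;> linarith [a2.1, a2.2, a4.1, a4.2, a5.1, a5.2]
  · intro z hz
    obtain ⟨z', hz', i, hi, j, hj, hij⟩ := hZ3 z hz
    refine ⟨(f j - f i, z' + (g j - g i)), mem_image.mpr ⟨(z', (i, j)),
      mem_product.mpr ⟨hz', mem_product.mpr ⟨hi, hj⟩⟩, rfl⟩, ?_⟩
    have e : z - (z' + (g j - g i) - θ * (f j - f i)) = z + v i - (z' + v j) := by
      simp only [hv]; ring
    simp only
    rw [e]
    exact hij
  · intro q hq
    set S1 : Set ℝ := Set.range (fun p : ι × ι => q.1 * (f p.1 - f p.2) + q.2 * (g p.1 - g p.2))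
      with hS1
    have hS1f : S1.Finite := Set.finite_range _
    have hsub : ((Ξ.image (fun p => q.1 * p.1 + q.2 * p.2) : Finset ℝ) : Set ℝ) ⊆
        (fun y : ℝ × ℝ => y.1 + q.2 * y.2) '' (S1 ×ˢ (Z : Set ℝ)) := by
      intro w hw
      rw [mem_coe, mem_image] at hw
      obtain ⟨p, hp, rfl⟩ := hw
      obtain ⟨⟨z, i, j⟩, hq', rfl⟩ := mem_image.mp hp
      rw [mem_product, mem_product] at hq'
      refine ⟨(q.1 * (f j - f i) + q.2 * (g j - g i), z), ⟨⟨(j, i), rfl⟩, hq'.1⟩, ?_⟩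
      simp only
      ring
    have hfin : (S1 ×ˢ (Z : Set ℝ)).Finite := hS1f.prod (Finset.finite_toSet _)
    have hle := (Set.ncard_le_ncard hsub (hfin.image _)).trans (Set.ncard_image_le hfin)
    rw [Set.ncard_prod, Set.ncard_coe_finset, Set.ncard_coe_finset] at hle
    have hM0 : 0 < M := by linarith
    have hm0 : 0 < m := by linarith
    have e1 : σ ^ J = M ^ ((J : ℝ) * ((1 + ε) / 2)) := by
      rw [hσ, hM, ← pow_two, ← Real.rpow_natCast (m ^ (1 + ε)) J, ← Real.rpow_mul hm0.le,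
        ← Real.rpow_natCast m 2, ← Real.rpow_mul hm0.le]
      congr 1
      push_cast
      ring
    have e2 : r ^ J = M ^ ((J : ℝ) * (ε / 2)) := by
      rw [hr, ← Real.rpow_natCast, ← Real.rpow_mul hM0.le]
      congr 1
      ring
    have e3 : s ^ (-(1 / 2 + ε)) = M ^ ((J : ℝ) * (1 / 2 + ε)) := by
      rw [hs, Real.inv_rpow hMJ.le, Real.rpow_neg hMJ.le, inv_inv, ← Real.rpow_natCast,
        ← Real.rpow_mul hM0.le]
    calc ((Ξ.image (fun p => q.1 * p.1 + q.2 * p.2)).card : ℝ) ≤ (S1.ncard : ℝ) * Z.card := by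
          exact_mod_cast hle
      _ ≤ σ ^ J * r ^ J := mul_le_mul (t4 q hq) hZcard (by positivity) (by positivity)
      _ = s ^ (-(1 / 2 + ε)) := by
          rw [e1, e2, e3, ← Real.rpow_add hM0]
          congr 1
          ring

end Pool.Agent.Run7.h70.IHP
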