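import Pool.Agent.Run7.h70.IHP.Digits

set_option autoImplicit false

/-! # The one dimensional construction: expansions and coverings -/

open Filter Topology Finset

namespace Pool.Agent.Run7.h70.IHP

/-- the sum of the expansion with digits `n l / q l` -/
noncomputable def val (q : ℕ → ℕ) (n : ℕ → ℤ) : ℝ := ∑' l, kap q l * ((n l : ℝ) / q l)

theorem term_le {q : ℕ → ℕ} (h2 : ∀ i, 2 ≤ q i) {n : ℕ → ℤ} {L : ℝ}
    (hn : ∀ l, |(n l : ℝ)| ≤ L * q l) (i l : ℕ) :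
    ‖kap q (l + i) * ((n (l + i) : ℝ) / q (l + i))‖ ≤ (L * kap q i) * (1 / 2) ^ l := by
  have hq : (0 : ℝ) < q (l + i) := by
    have := h2 (l + i)
    exact_mod_cast (by omega : 0 < q (l + i))
  have hL : |(n (l + i) : ℝ) / q (l + i)| ≤ L := by
    rw [abs_div, abs_of_pos hq, div_le_iff₀ hq]
    exact hn _
  have hL0 : 0 ≤ L := (abs_nonneg _).trans hL
  rw [Real.norm_eq_abs, abs_mul, abs_of_pos (kap_pos h2 _)]
  calc kap q (l + i) * |(n (l + i) : ℝ) / q (l + i)|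
      ≤ (kap q i * (1 / 2) ^ l) * L :=
        mul_le_mul (kap_add h2 i l) hL (abs_nonneg _) (by have := kap_pos h2 i; positivity)
    _ = (L * kap q i) * (1 / 2) ^ l := by ring

theorem summable_val {q : ℕ → ℕ} (h2 : ∀ i, 2 ≤ q i) {n : ℕ → ℤ} {L : ℝ}
    (hn : ∀ l, |(n l : ℝ)| ≤ L * q l) : Summable (fun l => kap q l * ((n l : ℝ) / q l)) := by
  refine Summable.of_norm_bounded (g := fun l => (L * kap q 0) * (1 / 2 : ℝ) ^ l) ?_ ?_
  · exact (summable_geometric_of_lt_one (by norm_num) (by norm_num)).mul_left _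
  · intro l
    exact term_le h2 hn 0 l

theorem tail_le {q : ℕ → ℕ} (h2 : ∀ i, 2 ≤ q i) {n : ℕ → ℤ} {L : ℝ}
    (hn : ∀ l, |(n l : ℝ)| ≤ L * q l) (i : ℕ) :
    |val q n - ∑ l ∈ range i, kap q l * ((n l : ℝ) / q l)| ≤ 2 * L * kap q i := by
  have h1 := (summable_val h2 hn).sum_add_tsum_nat_add i
  have h3 : val q n - ∑ l ∈ range i, kap q l * ((n l : ℝ) / q l) =
      ∑' l, kap q (l + i) * ((n (l + i) : ℝ) / q (l + i)) := by
    rw [val, ← h1]; ring
  rw [h3]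
  have h4 : HasSum (fun l => (L * kap q i) * (1 / 2 : ℝ) ^ l) ((L * kap q i) * 2) := by
    have := hasSum_geometric_of_lt_one (r := (1 / 2 : ℝ)) (by norm_num) (by norm_num)
    have h5 := this.mul_left (L * kap q i)
    norm_num at h5 ⊢
    exact h5
  have h5 := tsum_of_norm_bounded h4 (fun l => term_le h2 hn i l)
  rw [Real.norm_eq_abs] at h5
  linarith

/-- every number of absolute value at most one is `y - θ x` -/
theorem expand {θ : ℝ} {q : ℕ → ℕ} (hg : ∀ i, Good θ (q i)) (r : ℝ) (hr : |r| ≤ 1) :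
    ∃ m₁ m₂ : ℕ → ℤ, (∀ l, |(m₁ l : ℝ)| ≤ 1 * q l) ∧ (∀ l, |(m₂ l : ℝ)| ≤ (|θ| + 3) * q l) ∧
      r = val q m₂ - θ * val q m₁ := by
  have h2 : ∀ i, 2 ≤ q i := fun i => (hg i).1
  choose f₁ f₂ g h₁ h₂ h₃ h₄ using fun i (z : ℝ) => step (hg i) z
  set z : ℕ → ℝ := fun i => Nat.rec r (fun i z => g i z) i with hz
  have hz1 : ∀ i, z (i + 1) = g i (z i) := fun i => rfl
  have hzb : ∀ i, |z i| ≤ 1 := by
    intro i
    cases i with
    | zero => exact hr
    | succ i => exact h₃ i _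
  set m₁ : ℕ → ℤ := fun i => f₁ i (z i) with hm₁
  set m₂ : ℕ → ℤ := fun i => f₂ i (z i) with hm₂
  have hb1 : ∀ l, |(m₁ l : ℝ)| ≤ 1 * q l := fun l => by rw [one_mul]; exact h₁ l _
  have hb2 : ∀ l, |(m₂ l : ℝ)| ≤ (|θ| + 3) * q l := fun l => h₂ l _ (hzb l)
  refine ⟨m₁, m₂, hb1, hb2, ?_⟩
  have hrec : ∀ i, r = (∑ l ∈ range i, kap q l * ((m₂ l : ℝ) / q l)) -
      θ * (∑ l ∈ range i, kap q l * ((m₁ l : ℝ) / q l)) + kap q i * z i := by
    intro i
    induction i with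
    | zero => simp [kap, hz]
    | succ i ih =>
      rw [sum_range_succ, sum_range_succ, kap_succ, hz1]
      have h5 := h₄ i (z i)
      rw [ih]
      have : kap q i * z i = kap q i * (((m₂ i : ℝ) - θ * m₁ i) / q i +
          2 / (q i : ℝ) ^ 2 * g i (z i)) := by rw [← h5]
      rw [this]
      ring
  have t1 := (summable_val h2 hb1).hasSum.tendsto_sum_nat
  have t2 := (summable_val h2 hb2).hasSum.tendsto_sum_nat
  have t3 : Tendsto (fun i => kap q i * z i) atTop (𝓝 0) := by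
    refine squeeze_zero_norm (fun i => ?_) (kap_tendsto h2)
    rw [Real.norm_eq_abs, abs_mul, abs_of_pos (kap_pos h2 i)]
    exact mul_le_of_le_one_right (kap_pos h2 i).le (hzb i)
  have t4 := (t2.sub (t1.const_mul θ)).add t3
  have t5 : Tendsto (fun _ : ℕ => r) atTop (𝓝 (val q m₂ - θ * val q m₁ + 0)) := by
    refine t4.congr (fun i => ?_)
    exact (hrec i).symm
  have := tendsto_nhds_unique tendsto_const_nhds t5
  rwa [add_zero] at this

/-- the partial sums of level `i` -/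
noncomputable def parts (q : ℕ → ℕ) (L : ℝ) : ℕ → Finset ℝ
  | 0 => {0}
  | i + 1 => (parts q L i ×ˢ Finset.Icc (-⌊L * q i⌋) ⌊L * q i⌋).image
      (fun p : ℝ × ℤ => p.1 + kap q i * ((p.2 : ℝ) / q i))

theorem card_parts {q : ℕ → ℕ} (h2 : ∀ i, 2 ≤ q i) {L : ℝ} (hL : 1 ≤ L) (i : ℕ) :
    ((parts q L i).card : ℝ) ≤ ∏ l ∈ range i, (3 * L) * (q l : ℝ) := by
  induction i with
  | zero => simp [parts]
  | succ i ih =>
    have hq : (2 : ℝ) ≤ q i := by exact_mod_cast h2 i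
    have h0 : (0 : ℤ) ≤ ⌊L * q i⌋ := Int.floor_nonneg.mpr (by positivity)
    have h3 : ((Finset.Icc (-⌊L * (q i : ℝ)⌋) ⌊L * (q i : ℝ)⌋).card : ℝ) ≤ (3 * L) * q i := by
      rw [Int.card_Icc]
      have h4 : ((⌊L * (q i : ℝ)⌋ + 1 - -⌊L * (q i : ℝ)⌋).toNat : ℤ) = 2 * ⌊L * (q i : ℝ)⌋ + 1 := by
        rw [Int.toNat_of_nonneg (by omega)]; ring
      have h5 : ((⌊L * (q i : ℝ)⌋ + 1 - -⌊L * (q i : ℝ)⌋).toNat : ℝ)
          = 2 * (⌊L * (q i : ℝ)⌋ : ℝ) + 1 := by exact_mod_cast h4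
      rw [h5]
      have h6 := Int.floor_le (L * (q i : ℝ))
      have h7 : 1 ≤ L * q i := by nlinarith
      linarith
    rw [prod_range_succ]
    calc ((parts q L (i + 1)).card : ℝ)
        ≤ ((parts q L i ×ˢ Finset.Icc (-⌊L * (q i : ℝ)⌋) ⌊L * (q i : ℝ)⌋).card : ℝ) := by
          exact_mod_cast card_image_le
      _ = ((parts q L i).card : ℝ) * ((Finset.Icc (-⌊L * (q i : ℝ)⌋) ⌊L * (q i : ℝ)⌋).card : ℝ) := by
          rw [card_product]; push_cast; rfl
      _ ≤ (∏ l ∈ range i, (3 * L) * (q l : ℝ)) * ((3 * L) * q i) :=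
          mul_le_mul ih h3 (by positivity) (prod_nonneg fun l _ => by positivity)

theorem mem_parts {q : ℕ → ℕ} {L : ℝ} {n : ℕ → ℤ} (hn : ∀ l, |(n l : ℝ)| ≤ L * q l) (i : ℕ) :
    ∑ l ∈ range i, kap q l * ((n l : ℝ) / q l) ∈ parts q L i := by
  induction i with
  | zero => simp [parts]
  | succ i ih =>
    rw [parts, mem_image]
    refine ⟨(∑ l ∈ range i, kap q l * ((n l : ℝ) / q l), n i), ?_, ?_⟩
    · rw [mem_product]
      refine ⟨ih, ?_⟩
      have h1 := abs_le.mp (hn i)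
      rw [Finset.mem_Icc]
      constructor
      · have : -(n i) ≤ ⌊L * (q i : ℝ)⌋ := Int.le_floor.mpr (by push_cast; linarith)
        simp only
        omega
      · exact Int.le_floor.mpr h1.2
    · rw [sum_range_succ]

/-- a set of real numbers of upper box dimension at most `d` -/
def ThinR (d : ℝ) (A : Set ℝ) : Prop :=
  ∀ ε : ℝ, 0 < ε → ∃ C : ℝ, 0 < C ∧ ∀ δ : ℝ, 0 < δ → δ ≤ 1 →
    ∃ F : Finset ℝ, (F.card : ℝ) ≤ C * δ ^ (-(d + ε)) ∧ ∀ w ∈ A, ∃ f ∈ F, |w - f| ≤ δ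

/-- the set of all sums -/
def sums (q : ℕ → ℕ) (L : ℝ) : Set ℝ :=
  {w | ∃ n : ℕ → ℤ, (∀ l, |(n l : ℝ)| ≤ L * q l) ∧ w = val q n}

theorem thinR_sums {q : ℕ → ℕ} {Q : ℕ} (h2 : ∀ i, 2 ≤ q i) (hQ : ∀ i, q i ≤ i + Q)
    (ht : Tendsto q atTop atTop) {L : ℝ} (hL : 1 ≤ L) : ThinR (1 / 2) (sums q L) := by
  intro ε hε
  obtain ⟨C, hC, hg⟩ := growth h2 hQ ht (K := 3 * L) (by linarith) hε
  have hΛ : 0 < 2 * L := by linarith
  set e : ℝ := 1 / 2 + ε with he
  have he0 : 0 < e := by positivity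
  refine ⟨C * (2 * L) ^ e + 1, by positivity, fun δ hδ hδ1 => ?_⟩
  have hex : ∃ i, 2 * L * kap q i ≤ δ := by
    have h3 := (kap_tendsto h2).const_mul (2 * L)
    rw [mul_zero] at h3
    exact (h3.eventually (ge_mem_nhds hδ)).exists
  classical
  set i := Nat.find hex with hi
  have hi1 : 2 * L * kap q i ≤ δ := Nat.find_spec hex
  refine ⟨parts q L i, ?_, ?_⟩
  · have hδe : 1 ≤ δ ^ (-e) := Real.one_le_rpow_of_pos_of_le_one_of_nonpos hδ hδ1 (by linarith)
    rcases Nat.eq_zero_or_pos i with h0 | h0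
    · rw [h0]
      simp only [parts, card_singleton, Nat.cast_one]
      have : 0 ≤ C * (2 * L) ^ e := by positivity
      nlinarith
    · obtain ⟨j, hj⟩ := Nat.exists_eq_succ_of_ne_zero h0.ne'
      rw [Nat.succ_eq_add_one] at hj
      have hj1 : δ < 2 * L * kap q j := by
        have := Nat.find_min hex (m := j) (by omega)
        push Not at this
        exact this
      have h4 : ((parts q L i).card : ℝ) ≤ C * kap q j ^ (-e) := by
        rw [hj]
        exact (card_parts h2 hL (j + 1)).trans (hg j)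
      have h5 : kap q j ^ (-e) ≤ (2 * L) ^ e * δ ^ (-e) := by
        have hk := kap_pos h2 j
        rw [Real.rpow_neg hk.le, Real.rpow_neg hδ.le, ← div_eq_mul_inv,
          inv_le_iff_one_le_mul₀ (Real.rpow_pos_of_pos hk e), div_mul_eq_mul_div,
          one_le_div (Real.rpow_pos_of_pos hδ e), ← Real.mul_rpow hΛ.le hk.le]
        exact Real.rpow_le_rpow hδ.le hj1.le he0.le
      calc ((parts q L i).card : ℝ) ≤ C * kap q j ^ (-e) := h4
        _ ≤ C * ((2 * L) ^ e * δ ^ (-e)) := mul_le_mul_of_nonneg_left h5 hC.le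
        _ ≤ (C * (2 * L) ^ e + 1) * δ ^ (-e) := by
            have : 0 ≤ δ ^ (-e) := by positivity
            nlinarith
  · rintro w ⟨n, hn, rfl⟩
    exact ⟨_, mem_parts hn i, (tail_le h2 hn i).trans hi1⟩

theorem thinR_mul {d : ℝ} {A : Set ℝ} (h : ThinR d A) (c : ℝ) :
    ThinR d ((fun x => c * x) '' A) := by
  intro ε hε
  obtain ⟨C, hC, hF⟩ := h ε hε
  set M : ℝ := |c| + 1 with hM
  have hM1 : 1 ≤ M := by have := abs_nonneg c; linarith
  have hM0 : 0 < M := by linarith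
  refine ⟨C * M ^ (d + ε), by positivity, fun δ hδ hδ1 => ?_⟩
  obtain ⟨F, hF1, hF2⟩ := hF (δ / M) (by positivity) ((div_le_one hM0).mpr (hδ1.trans hM1))
  classical
  refine ⟨F.image (fun x => c * x), ?_, ?_⟩
  · calc ((F.image (fun x => c * x)).card : ℝ) ≤ (F.card : ℝ) := by exact_mod_cast card_image_le
      _ ≤ C * (δ / M) ^ (-(d + ε)) := hF1
      _ = C * M ^ (d + ε) * δ ^ (-(d + ε)) := by
          rw [Real.div_rpow hδ.le hM0.le, Real.rpow_neg hM0.le]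
          field_simp
  · rintro _ ⟨w, hw, rfl⟩
    obtain ⟨f, hf, hwf⟩ := hF2 w hw
    refine ⟨c * f, mem_image_of_mem _ hf, ?_⟩
    simp only
    rw [← mul_sub, abs_mul]
    calc |c| * |w - f| ≤ M * (δ / M) := mul_le_mul (by linarith) hwf (abs_nonneg _) hM0.le
      _ = δ := by field_simp

/-- **The one dimensional construction.** -/
theorem line {θ : ℝ} (hθ : Irrational θ) :
    ∃ A : ℚ → Set ℝ, (∀ s, ThinR (1 / 2) (A s)) ∧
      ∀ r : ℝ, |r| ≤ 1 → ∃ a : ℝ, ∀ s : ℚ, a + (1 / ((s : ℝ) + θ)) * r ∈ A s := by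
  obtain ⟨q, Q, hg, hQ, ht⟩ := exists_dens hθ
  have h2 : ∀ i, 2 ≤ q i := fun i => (hg i).1
  set L : ℚ → ℝ := fun s => |(s.num : ℝ)| + s.den * (|θ| + 3) with hL
  have hden : ∀ s : ℚ, (1 : ℝ) ≤ s.den := fun s => by exact_mod_cast s.pos
  have hL1 : ∀ s, 1 ≤ L s := by
    intro s
    have h3 := abs_nonneg (s.num : ℝ)
    have h4 := abs_nonneg θ
    have h5 := hden s
    simp only [hL]
    nlinarith
  refine ⟨fun s => (fun x => (1 / (s.den * ((s : ℝ) + θ))) * x) '' sums q (L s),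
    fun s => thinR_mul (thinR_sums h2 hQ ht (hL1 s)) _, fun r hr => ?_⟩
  obtain ⟨m₁, m₂, hb1, hb2, hr'⟩ := expand hg r hr
  refine ⟨val q m₁, fun s => ?_⟩
  have hb : ∀ l, |((s.num * m₁ l + s.den * m₂ l : ℤ) : ℝ)| ≤ L s * q l := by
    intro l
    push_cast
    calc |(s.num : ℝ) * m₁ l + s.den * m₂ l| ≤ |(s.num : ℝ) * m₁ l| + |(s.den : ℝ) * m₂ l| :=
          abs_add_le _ _
      _ = |(s.num : ℝ)| * |(m₁ l : ℝ)| + s.den * |(m₂ l : ℝ)| := by
          rw [abs_mul, abs_mul, abs_of_nonneg (by positivity : (0 : ℝ) ≤ s.den)]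
      _ ≤ |(s.num : ℝ)| * (1 * q l) + s.den * ((|θ| + 3) * q l) :=
          add_le_add (mul_le_mul_of_nonneg_left (hb1 l) (abs_nonneg _))
            (mul_le_mul_of_nonneg_left (hb2 l) (by positivity))
      _ = L s * q l := by simp only [hL]; ring
  refine ⟨val q (fun l => s.num * m₁ l + s.den * m₂ l), ⟨_, hb, rfl⟩, ?_⟩
  have e : val q (fun l => s.num * m₁ l + s.den * m₂ l) =
      (s.num : ℝ) * val q m₁ + s.den * val q m₂ := by
    unfold val
    rw [← tsum_mul_left, ← tsum_mul_left,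
      ← Summable.tsum_add ((summable_val h2 hb1).mul_left _) ((summable_val h2 hb2).mul_left _)]
    refine tsum_congr fun l => ?_
    push_cast
    ring
  have hs : (s : ℝ) + θ ≠ 0 := by
    have h3 : Irrational ((s : ℝ) + θ) := hθ.ratCast_add s
    exact h3.ne_zero
  have hd0 : (s.den : ℝ) ≠ 0 := by have := hden s; positivity
  have hnum : (s.num : ℝ) = s * s.den := by exact_mod_cast (Rat.mul_den_eq_num s).symm
  simp only
  rw [e, hr', hnum]
  field_simp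
  ring

end Pool.Agent.Run7.h70.IHP
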