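import Pool.Agent.Run7.h70.IHP.Space

set_option autoImplicit false

/-! # The trivial lower bound -/

open Filter Topology Finset MeasureTheory

namespace Pool.Agent.Run7.h70.IHP

theorem exists_cover {n : ℕ} {B : Set (E n)} (hB : Bornology.IsBounded B) {δ : ℝ} (hδ : 0 < δ) :
    ∃ U : Fin (coverNum B δ) → Set (E n),
      (∀ i, ∀ x ∈ U i, ∀ y ∈ U i, dist x y ≤ δ) ∧ B ⊆ ⋃ i, U i := by
  have hne : {N | ∃ U : Fin N → Set (E n),
      (∀ i, ∀ x ∈ U i, ∀ y ∈ U i, dist x y ≤ δ) ∧ B ⊆ ⋃ i, U i}.Nonempty := by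
    have h1 : TotallyBounded B :=
      (Bornology.IsBounded.isCompact_closure hB).totallyBounded.subset subset_closure
    obtain ⟨t, ht, hB'⟩ := Metric.totallyBounded_iff.mp h1 (δ / 2) (by linarith)
    refine ⟨ht.toFinset.card,
      fun i => Metric.ball ((ht.toFinset.equivFin.symm i : ht.toFinset) : E n) (δ / 2), ?_, ?_⟩
    · intro i x hx y hy
      rw [Metric.mem_ball] at hx hy
      have := dist_triangle_right x y ((ht.toFinset.equivFin.symm i : ht.toFinset) : E n)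
      linarith
    · intro x hx
      obtain ⟨f, hf, hxf⟩ := Set.mem_iUnion₂.mp (hB' hx)
      refine Set.mem_iUnion.mpr ⟨ht.toFinset.equivFin ⟨f, ht.mem_toFinset.mpr hf⟩, ?_⟩
      rw [Equiv.symm_apply_apply]
      exact hxf
  exact Nat.sInf_mem hne

theorem null {n : ℕ} {t₁ t₂ : ℝ} (ht : t₁ ≠ t₂) {y : ℝ} (hy : y < n / 2) {U V : Set (E n)}
    (hU : Bornology.IsBounded U) (hV : Bornology.IsBounded V)
    (hU' : upperMinkowski U < (y : EReal)) (hV' : upperMinkowski V < (y : EReal)) :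
    volume {r : E n | ∃ a, a + t₁ • r ∈ U ∧ a + t₂ • r ∈ V} = 0 := by
  have hcov : ∀ W : Set (E n), upperMinkowski W < (y : EReal) →
      ∀ᶠ δ : ℝ in 𝓝[>] (0 : ℝ), (coverNum W δ : ℝ) ≤ δ ^ (-y) := by
    intro W hW
    have h3 : ∀ᶠ δ : ℝ in 𝓝[>] (0 : ℝ),
        ((Real.log (coverNum W δ) / Real.log (1 / δ) : ℝ) : EReal) < y :=
      eventually_lt_of_limsup_lt hW (by isBoundedDefault)
    filter_upwards [eventually_small, h3] with δ h1 h2
    have hL := log_inv_pos h1.1 h1.2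
    have h2' : Real.log (coverNum W δ) / Real.log (1 / δ) < y := by exact_mod_cast h2
    rw [div_lt_iff₀ hL] at h2'
    rcases Nat.eq_zero_or_pos (coverNum W δ) with h5 | h5
    · rw [h5, Nat.cast_zero]
      exact (Real.rpow_pos_of_pos h1.1 _).le
    · have h6 : (0 : ℝ) < coverNum W δ := by exact_mod_cast h5
      rw [← Real.log_le_log_iff h6 (Real.rpow_pos_of_pos h1.1 _), Real.log_rpow h1.1]
      rw [one_div, Real.log_inv] at h2'
      linarith
  have ht0 : 0 < |t₂ - t₁| := abs_pos.mpr (sub_ne_zero.mpr ht.symm)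
  set c : ENNReal := volume (Metric.ball (0 : E n) 1) with hc
  have hc1 : c ≠ ⊤ := measure_ball_lt_top.ne
  set K : ℝ := (2 / |t₂ - t₁|) ^ n with hK
  have hmain : ∀ᶠ δ : ℝ in 𝓝[>] (0 : ℝ),
      volume {r : E n | ∃ a, a + t₁ • r ∈ U ∧ a + t₂ • r ∈ V} ≤
        ENNReal.ofReal (K * δ ^ (n - 2 * y)) * c := by
    filter_upwards [eventually_small, hcov U hU', hcov V hV'] with δ h1 hu hv
    obtain ⟨P, hP1, hP2⟩ := exists_cover hU h1.1
    obtain ⟨Q, hQ1, hQ2⟩ := exists_cover hV h1.1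
    set S : Fin (coverNum U δ) × Fin (coverNum V δ) → Set (E n) :=
      fun k => {r : E n | ∃ a, a + t₁ • r ∈ P k.1 ∧ a + t₂ • r ∈ Q k.2} with hS
    have hsub : {r : E n | ∃ a, a + t₁ • r ∈ U ∧ a + t₂ • r ∈ V} ⊆ ⋃ k, S k := by
      rintro r ⟨a, ha1, ha2⟩
      obtain ⟨i, hi⟩ := Set.mem_iUnion.mp (hP2 ha1)
      obtain ⟨j, hj⟩ := Set.mem_iUnion.mp (hQ2 ha2)
      exact Set.mem_iUnion.mpr ⟨(i, j), a, hi, hj⟩
    have hball : ∀ k, volume (S k) ≤ ENNReal.ofReal ((2 * δ / |t₂ - t₁|) ^ n) * c := by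
      intro k
      rcases (S k).eq_empty_or_nonempty with h0 | ⟨r₀, a₀, h01, h02⟩
      · rw [h0, measure_empty]; exact zero_le
      · have hsub2 : S k ⊆ Metric.closedBall r₀ (2 * δ / |t₂ - t₁|) := by
          rintro r ⟨a, ha1, ha2⟩
          rw [Metric.mem_closedBall, le_div_iff₀ ht0]
          have e1 := hP1 k.1 _ ha1 _ h01
          have e2 := hQ1 k.2 _ ha2 _ h02
          rw [dist_eq_norm] at e1 e2 ⊢
          have e3 : (t₂ - t₁) • (r - r₀) =
              (a + t₂ • r - (a₀ + t₂ • r₀)) - (a + t₁ • r - (a₀ + t₁ • r₀)) := by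
            simp only [sub_smul, smul_sub]
            abel
          calc ‖r - r₀‖ * |t₂ - t₁| = ‖(t₂ - t₁) • (r - r₀)‖ := by
                rw [norm_smul, Real.norm_eq_abs, mul_comm]
            _ ≤ ‖a + t₂ • r - (a₀ + t₂ • r₀)‖ + ‖a + t₁ • r - (a₀ + t₁ • r₀)‖ := by
                rw [e3]; exact norm_sub_le _ _
            _ ≤ 2 * δ := by linarith
        refine (measure_mono hsub2).trans (le_of_eq ?_)
        have h0 : 0 ≤ 2 * δ / |t₂ - t₁| := by have := h1.1; positivity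
        rw [Measure.addHaar_closedBall _ _ h0, finrank_euclideanSpace_fin]
    calc volume {r : E n | ∃ a, a + t₁ • r ∈ U ∧ a + t₂ • r ∈ V}
        ≤ volume (⋃ k, S k) := measure_mono hsub
      _ ≤ ∑ k, volume (S k) := measure_iUnion_fintype_le _ _
      _ ≤ ∑ _k : Fin (coverNum U δ) × Fin (coverNum V δ),
            ENNReal.ofReal ((2 * δ / |t₂ - t₁|) ^ n) * c := sum_le_sum fun k _ => hball k
      _ = ENNReal.ofReal ((coverNum U δ : ℝ) * (coverNum V δ : ℝ) *
            (2 * δ / |t₂ - t₁|) ^ n) * c := by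
          rw [sum_const, card_univ, Fintype.card_prod, Fintype.card_fin, Fintype.card_fin,
            nsmul_eq_mul, ← mul_assoc, ENNReal.ofReal_mul (by positivity),
            ENNReal.ofReal_mul (by positivity), ENNReal.ofReal_natCast, ENNReal.ofReal_natCast]
          push_cast
          ring
      _ ≤ ENNReal.ofReal (K * δ ^ (n - 2 * y)) * c := by
          refine mul_le_mul_left (ENNReal.ofReal_le_ofReal ?_) _
          have e4 : (2 * δ / |t₂ - t₁|) ^ n = K * δ ^ (n : ℝ) := by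
            rw [hK, Real.rpow_natCast, ← mul_pow]
            congr 1
            ring
          have e5 : δ ^ ((n : ℝ) - 2 * y) = δ ^ (-y) * δ ^ (-y) * δ ^ (n : ℝ) := by
            rw [← Real.rpow_add h1.1, ← Real.rpow_add h1.1]
            congr 1
            ring
          rw [e4, e5]
          have hK0 : 0 ≤ K * δ ^ (n : ℝ) := by have := h1.1; positivity
          have e6 : (coverNum U δ : ℝ) * coverNum V δ ≤ δ ^ (-y) * δ ^ (-y) :=
            mul_le_mul hu hv (by positivity) (Real.rpow_pos_of_pos h1.1 _).le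
          calc (coverNum U δ : ℝ) * coverNum V δ * (K * δ ^ (n : ℝ))
              ≤ δ ^ (-y) * δ ^ (-y) * (K * δ ^ (n : ℝ)) := mul_le_mul_of_nonneg_right e6 hK0
            _ = K * (δ ^ (-y) * δ ^ (-y) * δ ^ (n : ℝ)) := by ring
  have hlim : Tendsto (fun δ : ℝ => ENNReal.ofReal (K * δ ^ (n - 2 * y)) * c) (𝓝[>] (0 : ℝ))
      (𝓝 0) := by
    have hpos : 0 < (n : ℝ) - 2 * y := by linarith
    have l1 : Tendsto (fun δ : ℝ => δ ^ ((n : ℝ) - 2 * y)) (𝓝[>] (0 : ℝ)) (𝓝 0) := by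
      have := (Real.continuousAt_rpow_const 0 ((n : ℝ) - 2 * y) (Or.inr hpos.le)).tendsto
      rw [Real.zero_rpow hpos.ne'] at this
      exact this.mono_left nhdsWithin_le_nhds
    have l2 := l1.const_mul K
    rw [mul_zero] at l2
    have l3 := (ENNReal.tendsto_ofReal l2)
    rw [ENNReal.ofReal_zero] at l3
    have l4 := ENNReal.Tendsto.mul_const (b := c) l3 (Or.inr hc1)
    rwa [zero_mul] at l4
  exact le_antisymm (ge_of_tendsto hlim hmain) zero_le

/-- **The trivial lower bound.** -/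
theorem lower {n : ℕ} {t₁ t₂ : ℝ} (ht : t₁ ≠ t₂) {B : Set (E n)}
    (h : ∀ r ∈ cube n, ∃ a, a + t₁ • r ∈ B ∧ a + t₂ • r ∈ B) :
    ((n / 2 : ℝ) : EReal) ≤ packingDim B := by
  refine le_sInf ?_
  rintro d ⟨U, hU1, hU2, hU3⟩
  by_contra hcon
  push Not at hcon
  obtain ⟨y, hy1, hy2⟩ := EReal.lt_iff_exists_real_btwn.mp hcon
  have hy : y < (n : ℝ) / 2 := by exact_mod_cast hy2
  have hsub : cube n ⊆ ⋃ i, ⋃ j, {r : E n | ∃ a, a + t₁ • r ∈ U i ∧ a + t₂ • r ∈ U j} := by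
    intro r hr
    obtain ⟨a, ha1, ha2⟩ := h r hr
    obtain ⟨i, hi⟩ := Set.mem_iUnion.mp (hU2 ha1)
    obtain ⟨j, hj⟩ := Set.mem_iUnion.mp (hU2 ha2)
    exact Set.mem_iUnion₂.mpr ⟨i, j, a, hi, hj⟩
  have hnull : volume (⋃ i, ⋃ j, {r : E n | ∃ a, a + t₁ • r ∈ U i ∧ a + t₂ • r ∈ U j}) = 0 := by
    refine measure_iUnion_null fun i => measure_iUnion_null fun j => ?_
    exact null ht hy (hU1 i) (hU1 j) ((hU3 i).trans_lt hy1) ((hU3 j).trans_lt hy1)
  have hcube : volume (cube n) = 0 := measure_mono_null hsub hnull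
  have hball : Metric.ball (WithLp.toLp 2 (fun _ => (1 / 2 : ℝ)) : E n) (1 / 2) ⊆ cube n := by
    intro r hr i
    rw [Metric.mem_ball, dist_eq_norm] at hr
    have h1 := PiLp.norm_apply_le (r - (WithLp.toLp 2 (fun _ => (1 / 2 : ℝ)) : E n)) i
    rw [PiLp.sub_apply, Real.norm_eq_abs] at h1
    have h2 := abs_le.mp (h1.trans hr.le)
    simp only at h2
    constructor <;> linarith [h2.1, h2.2]
  have hpos : 0 < volume (Metric.ball (WithLp.toLp 2 (fun _ => (1 / 2 : ℝ)) : E n) (1 / 2)) :=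
    Metric.measure_ball_pos volume _ (by norm_num)
  have := measure_mono_null hball hcube
  exact hpos.ne' this

theorem packingDim_le {n : ℕ} {B : Set (E n)} (hB : Bornology.IsBounded B) :
    packingDim B ≤ upperMinkowski B :=
  sInf_le ⟨fun _ => B, fun _ => hB, fun _ hx => Set.mem_iUnion.mpr ⟨0, hx⟩, fun _ => le_rfl⟩

end Pool.Agent.Run7.h70.IHP
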