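import Pool.Agent.Run7.h70.IHP.Heights
import Pool.Agent.Run7.h70.IHP.Lower

set_option autoImplicit false

/-! # The one dimensional construction over a number field -/

open Filter Topology Finset

namespace Pool.Agent.Run7.h70.IHP.NF

/-- the scales -/
noncomputable def kap (A : ℝ) (q : ℕ → ℝ) (i : ℕ) : ℝ := ∏ l ∈ range i, A / (q l) ^ 2

theorem kap_succ (A : ℝ) (q : ℕ → ℝ) (i : ℕ) : kap A q (i + 1) = kap A q i * (A / (q i) ^ 2) := by
  rw [kap, prod_range_succ, kap]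

theorem kap_pos {A : ℝ} {q : ℕ → ℝ} (hA : 0 < A) (hq : ∀ l, 0 < q l) (i : ℕ) : 0 < kap A q i := by
  unfold kap
  refine prod_pos fun l _ => ?_
  have := hq l
  positivity

theorem kap_add {A : ℝ} {q : ℕ → ℝ} (hA : 0 < A) (hq : ∀ l, 0 < q l)
    (hs : ∀ l, A / (q l) ^ 2 ≤ 1 / 2) (i l : ℕ) :
    kap A q (l + i) ≤ kap A q i * (1 / 2) ^ l := by
  induction l with
  | zero => simp
  | succ l ih =>
    have h1 := mul_le_mul ih (hs (l + i)) (by have := hq (l + i); positivity)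
      (by have := kap_pos hA hq i; positivity)
    have h2 : l + 1 + i = l + i + 1 := by ring
    rw [h2, kap_succ]
    calc kap A q (l + i) * (A / (q (l + i)) ^ 2) ≤ kap A q i * (1 / 2) ^ l * (1 / 2) := h1
      _ = kap A q i * (1 / 2) ^ (l + 1) := by ring

theorem kap_tendsto {A : ℝ} {q : ℕ → ℝ} (hA : 0 < A) (hq : ∀ l, 0 < q l)
    (hs : ∀ l, A / (q l) ^ 2 ≤ 1 / 2) : Tendsto (kap A q) atTop (𝓝 0) := by
  refine squeeze_zero (fun i => (kap_pos hA hq i).le) (fun i => ?_)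
    (tendsto_pow_atTop_nhds_zero_of_lt_one (r := (1 / 2 : ℝ)) (by norm_num) (by norm_num))
  have := kap_add hA hq hs 0 i
  simpa [kap] using this

/-- growth of the number of the partial sums -/
theorem growth {A : ℝ} {q : ℕ → ℝ} (hA : 0 < A) (hq0 : ∀ l, 0 < q l) {Cq : ℝ} (hCq : 0 < Cq)
    (hQ : ∀ i, q i ≤ Cq * 2 ^ i) (ht : Tendsto q atTop atTop) {B : ℝ} (hB : 0 < B) {ε : ℝ}
    (hε : 0 < ε) :
    ∃ C : ℝ, 0 < C ∧ ∀ i, ∏ l ∈ range (i + 1), B * q l ≤ C * kap A q i ^ (-(1 / 2 + ε)) := by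
  have hev : ∀ᶠ l in atTop, 2 * (B * q l) ≤ (A / (q l) ^ 2) ^ (-(1 / 2 + ε)) := by
    have h1 : Tendsto (fun x : ℝ => x ^ (2 * ε)) atTop atTop := tendsto_rpow_atTop (by linarith)
    have h4 := (h1.comp ht).eventually (eventually_ge_atTop (2 * B * A ^ (1 / 2 + ε)))
    filter_upwards [h4] with l hl
    simp only [Function.comp] at hl
    have e : (A / (q l) ^ 2) ^ (-(1 / 2 + ε)) = q l * (q l) ^ (2 * ε) / A ^ (1 / 2 + ε) := by
      rw [Real.rpow_neg (by have := hq0 l; positivity), Real.div_rpow hA.le (by positivity), inv_div]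
      congr 1
      rw [← Real.rpow_natCast, ← Real.rpow_mul (hq0 l).le, ← Real.rpow_one_add' (hq0 l).le (by positivity)]
      congr 1
      push_cast
      ring
    rw [e, le_div_iff₀ (by positivity)]
    calc 2 * (B * q l) * A ^ (1 / 2 + ε) = q l * (2 * B * A ^ (1 / 2 + ε)) := by ring
      _ ≤ q l * (q l) ^ (2 * ε) := mul_le_mul_of_nonneg_left hl (hq0 l).le
  obtain ⟨l₀, hl₀⟩ := eventually_atTop.mp hev
  set R : ℕ → ℝ := fun i => 2 ^ i * (∏ l ∈ range i, B * q l) * kap A q i ^ (1 / 2 + ε) with hR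
  have hKq : ∀ l, 0 < B * q l := fun l => mul_pos hB (hq0 l)
  have hRpos : ∀ i, 0 < R i := fun i => by
    have h5 : 0 < ∏ l ∈ range i, B * q l := prod_pos fun l _ => hKq l
    have h6 := Real.rpow_pos_of_pos (kap_pos hA hq0 i) (1 / 2 + ε)
    positivity
  have hstep : ∀ i, l₀ ≤ i → R (i + 1) ≤ R i := by
    intro i hi
    have h5 := hl₀ i hi
    have h6 : 0 < A / (q i) ^ 2 := by
      have := hq0 i
      positivity
    have h7 : 2 * (B * q i) * (A / (q i) ^ 2) ^ (1 / 2 + ε) ≤ 1 := by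
      have h8 := mul_le_mul_of_nonneg_right h5 (Real.rpow_pos_of_pos h6 (1 / 2 + ε)).le
      rwa [← Real.rpow_add h6, neg_add_cancel, Real.rpow_zero] at h8
    have e : R (i + 1) = R i * (2 * (B * q i) * (A / (q i) ^ 2) ^ (1 / 2 + ε)) := by
      simp only [hR]
      rw [pow_succ, prod_range_succ, kap_succ, Real.mul_rpow (kap_pos hA hq0 i).le h6.le]
      ring
    rw [e]
    calc R i * _ ≤ R i * 1 := mul_le_mul_of_nonneg_left h7 (hRpos i).le
      _ = R i := mul_one _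
  have hbound : ∀ i, R i ≤ ∑ j ∈ range (l₀ + 1), R j := by
    intro i
    rcases le_or_gt i l₀ with h | h
    · exact single_le_sum (f := R) (fun j _ => (hRpos j).le) (mem_range.mpr (by omega))
    · have h9 : ∀ j, R (l₀ + j) ≤ R l₀ := by
        intro j
        induction j with
        | zero => simp
        | succ j ih => exact (hstep (l₀ + j) (by omega)).trans ih
      have h10 := h9 (i - l₀)
      rw [show l₀ + (i - l₀) = i by omega] at h10
      exact h10.trans (single_le_sum (f := R) (fun j _ => (hRpos j).le) (mem_range.mpr (by omega)))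
  set C₁ : ℝ := ∑ j ∈ range (l₀ + 1), R j with hC₁
  have hC₁pos : 0 < C₁ := sum_pos (fun j _ => hRpos j) ⟨0, mem_range.mpr (by omega)⟩
  refine ⟨B * Cq * C₁, by positivity, fun i => ?_⟩
  have h11 : ∏ l ∈ range i, B * q l ≤ C₁ * kap A q i ^ (-(1 / 2 + ε)) / 2 ^ i := by
    rw [le_div_iff₀ (by positivity), Real.rpow_neg (kap_pos hA hq0 i).le, ← div_eq_mul_inv,
      le_div_iff₀ (Real.rpow_pos_of_pos (kap_pos hA hq0 i) _)]
    calc (∏ l ∈ range i, B * q l) * 2 ^ i * kap A q i ^ (1 / 2 + ε) = R i := by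
          simp only [hR]; ring
      _ ≤ C₁ := hbound i
  rw [prod_range_succ]
  have hk := Real.rpow_pos_of_pos (kap_pos hA hq0 i) (-(1 / 2 + ε))
  calc (∏ l ∈ range i, B * q l) * (B * q i)
      ≤ (C₁ * kap A q i ^ (-(1 / 2 + ε)) / 2 ^ i) * (B * (Cq * 2 ^ i)) := by
        refine mul_le_mul h11 (mul_le_mul_of_nonneg_left (hQ i) hB.le) (hKq i).le (by positivity)
    _ = B * Cq * C₁ * kap A q i ^ (-(1 / 2 + ε)) := by
        field_simp

/-- an infinite sum -/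
noncomputable def ser (κ x : ℕ → ℝ) : ℝ := ∑' l, κ l * x l

/-- a rapidly decreasing sequence -/
def Fast (κ : ℕ → ℝ) : Prop := (∀ i, 0 < κ i) ∧ ∀ i l, κ (l + i) ≤ κ i * (1 / 2) ^ l

theorem term_le {κ x : ℕ → ℝ} (hκ : Fast κ) {W : ℝ} (hx : ∀ l, |x l| ≤ W) (i l : ℕ) :
    ‖κ (l + i) * x (l + i)‖ ≤ (W * κ i) * (1 / 2) ^ l := by
  rw [Real.norm_eq_abs, abs_mul, abs_of_pos (hκ.1 _)]
  calc κ (l + i) * |x (l + i)| ≤ (κ i * (1 / 2) ^ l) * W :=
        mul_le_mul (hκ.2 i l) (hx _) (abs_nonneg _) (by have := hκ.1 i; positivity)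
    _ = (W * κ i) * (1 / 2) ^ l := by ring

theorem summable_ser {κ x : ℕ → ℝ} (hκ : Fast κ) {W : ℝ} (hx : ∀ l, |x l| ≤ W) :
    Summable (fun l => κ l * x l) := by
  refine Summable.of_norm_bounded (g := fun l => (W * κ 0) * (1 / 2 : ℝ) ^ l) ?_ ?_
  · exact (summable_geometric_of_lt_one (by norm_num) (by norm_num)).mul_left _
  · intro l
    exact term_le hκ hx 0 l

theorem tail_le {κ x : ℕ → ℝ} (hκ : Fast κ) {W : ℝ} (hx : ∀ l, |x l| ≤ W) (i : ℕ) :
    |ser κ x - ∑ l ∈ range i, κ l * x l| ≤ 2 * W * κ i := by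
  have h1 := (summable_ser hκ hx).sum_add_tsum_nat_add i
  have h3 : ser κ x - ∑ l ∈ range i, κ l * x l = ∑' l, κ (l + i) * x (l + i) := by
    rw [ser, ← h1]; ring
  rw [h3]
  have h4 : HasSum (fun l => (W * κ i) * (1 / 2 : ℝ) ^ l) ((W * κ i) * 2) := by
    have := hasSum_geometric_of_lt_one (r := (1 / 2 : ℝ)) (by norm_num) (by norm_num)
    have h5 := this.mul_left (W * κ i)
    norm_num at h5 ⊢
    exact h5
  have h5 := tsum_of_norm_bounded h4 (fun l => term_le hκ hx i l)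
  rw [Real.norm_eq_abs] at h5
  linarith

variable {K : Set ℝ}

/-- the value of a digit sequence -/
noncomputable def val (F : Frame K) (A : ℝ) (L : ℕ → ℕ) (m : ℕ → Fin F.D → ℤ) : ℝ :=
  ser (kap A (fun l => (L l : ℝ) ^ F.D)) (fun l => ell F.ω (m l) / L l)

/-- all that is used about the sequence of heights -/
structure Seq (F : Frame K) (θ A : ℝ) (L : ℕ → ℕ) : Prop where
  hA : 1 ≤ A
  hL : ∀ l, 1 ≤ L l
  small : ∀ l, A / ((L l : ℝ) ^ F.D) ^ 2 ≤ 1 / 2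
  cov : ∀ l, ∀ z : ℝ, |z| ≤ 1 → ∃ m₁ m₂ : Fin F.D → ℤ, ∃ z' : ℝ, (∀ i, |(m₁ i : ℝ)| ≤ A * L l) ∧
    (∀ i, |(m₂ i : ℝ)| ≤ A * L l) ∧ |z'| ≤ 1 ∧
    z = (ell F.ω m₂ - θ * ell F.ω m₁) / L l + A / ((L l : ℝ) ^ F.D) ^ 2 * z'
  tend : Tendsto (fun l => (L l : ℝ) ^ F.D) atTop atTop
  slow : ∃ Cq : ℝ, 0 < Cq ∧ ∀ i, (L i : ℝ) ^ F.D ≤ Cq * 2 ^ i

theorem exists_seq (F : Frame K) (θ : ℝ)
    (hθ : ∀ a b : Fin F.D → ℤ, b ≠ 0 → ell F.ω a ≠ θ * ell F.ω b) :
    ∃ (A : ℝ) (L : ℕ → ℕ), Seq F θ A L := by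
  classical
  obtain ⟨c, hc, hgood⟩ := goodL_unbounded F θ hθ
  obtain ⟨A, hA, hcov⟩ := cover F θ hc
  have hD := F.hD
  obtain ⟨N, hN⟩ := exists_nat_gt (2 * A)
  set P : ℕ → Prop := fun L => GoodL F θ c L ∧ N ≤ L with hP
  have hPu : ∀ M, ∃ L, M ≤ L ∧ P L := by
    intro M
    obtain ⟨L, h1, h2⟩ := hgood (max M N)
    exact ⟨L, (le_max_left _ _).trans h1, h2, (le_max_right _ _).trans h1⟩
  obtain ⟨Q, _, hQ⟩ := hPu 0
  set L : ℕ → ℕ := fun i => Nat.findGreatest P (i + Q) with hL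
  have hLP : ∀ i, P (L i) := fun i =>
    Nat.findGreatest_spec (P := P) (Nat.le_add_left Q i) hQ
  have hLle : ∀ i, L i ≤ i + Q := fun i => Nat.findGreatest_le _
  have hLt : Tendsto L atTop atTop := by
    rw [tendsto_atTop]
    intro b
    obtain ⟨q, hq, hg⟩ := hPu b
    filter_upwards [eventually_ge_atTop q] with i hi
    exact hq.trans (Nat.le_findGreatest (by omega) hg)
  have hL1 : ∀ i, 1 ≤ L i := fun i => (hLP i).1.1
  have hL1r : ∀ i, (1 : ℝ) ≤ L i := fun i => by exact_mod_cast hL1 i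
  have hLr : Tendsto (fun l => ((L l : ℕ) : ℝ)) atTop atTop := tendsto_natCast_atTop_atTop.comp hLt
  refine ⟨A, L, ⟨hA, hL1, fun l => ?_, fun l z hz => ?_, ?_, ?_⟩⟩
  · have h1 : 2 * A ≤ (L l : ℝ) := by
      have : (N : ℝ) ≤ L l := by exact_mod_cast (hLP l).2
      linarith
    have h2 : (L l : ℝ) ≤ ((L l : ℝ) ^ F.D) ^ 2 := by
      rw [← pow_mul]
      exact le_self_pow₀ (hL1r l) (by omega)
    have h3 : (0 : ℝ) < ((L l : ℝ) ^ F.D) ^ 2 := by have := hL1r l; positivity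
    rw [div_le_iff₀ h3]
    linarith
  · have hLpos : (0 : ℝ) < L l := by linarith [hL1r l]
    obtain ⟨m₁, m₂, h1, h2, h3⟩ := hcov (L l) (hLP l).1 (z * L l) (by
      rw [abs_mul, abs_of_pos hLpos]
      exact mul_le_of_le_one_left hLpos.le hz)
    have hq : (0 : ℝ) < ((L l : ℝ) ^ F.D) ^ 2 := by positivity
    refine ⟨m₁, m₂, (z - (ell F.ω m₂ - θ * ell F.ω m₁) / L l) * ((L l : ℝ) ^ F.D) ^ 2 / A,
      h1, h2, ?_, ?_⟩
    · rw [abs_div, abs_of_pos (by linarith : 0 < A), div_le_one (by linarith)]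
      have e1 : (z - (ell F.ω m₂ - θ * ell F.ω m₁) / L l) * ((L l : ℝ) ^ F.D) ^ 2 =
          (z * L l - (ell F.ω m₂ - θ * ell F.ω m₁)) * (L l : ℝ) ^ (2 * F.D - 1) := by
        have e2 : ((L l : ℝ) ^ F.D) ^ 2 = L l * (L l : ℝ) ^ (2 * F.D - 1) := by
          rw [← pow_mul, ← pow_succ']
          congr 1
          omega
        rw [e2]
        field_simp
      rw [e1, abs_mul, abs_of_pos (by positivity : (0 : ℝ) < (L l : ℝ) ^ (2 * F.D - 1))]
      exact h3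
    · field_simp
      ring
  · refine tendsto_atTop_mono (fun l => ?_) hLr
    exact le_self_pow₀ (hL1r l) (by omega)
  · have h1 := tendsto_pow_const_div_const_pow_of_one_lt F.D (r := (2 : ℝ)) (by norm_num)
    obtain ⟨C, hC⟩ := h1.bddAbove_range
    have hC0 : ∀ n : ℕ, (n : ℝ) ^ F.D ≤ C * 2 ^ n := by
      intro n
      have h : (n : ℝ) ^ F.D / 2 ^ n ≤ C := hC (Set.mem_range_self n)
      rwa [div_le_iff₀ (by positivity)] at h
    have hCpos : 0 < C := by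
      have := hC0 1
      simp at this
      linarith
    refine ⟨C * 2 ^ Q, by positivity, fun i => ?_⟩
    calc (L i : ℝ) ^ F.D ≤ ((i + Q : ℕ) : ℝ) ^ F.D :=
          pow_le_pow_left₀ (by positivity) (by exact_mod_cast hLle i) _
      _ ≤ C * 2 ^ (i + Q) := hC0 _
      _ = C * 2 ^ Q * 2 ^ i := by rw [pow_add]; ring

section

variable {F : Frame K} {θ A : ℝ} {L : ℕ → ℕ}

theorem Seq.pos (S : Seq F θ A L) (l : ℕ) : 0 < (L l : ℝ) ^ F.D := by
  have : (1 : ℝ) ≤ L l := by exact_mod_cast S.hL l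
  positivity

theorem Seq.fast (S : Seq F θ A L) : Fast (kap A (fun l => (L l : ℝ) ^ F.D)) :=
  ⟨kap_pos (by linarith [S.hA]) S.pos, kap_add (by linarith [S.hA]) S.pos S.small⟩

theorem digit_le (S : Seq F θ A L) {B : ℝ} {m : ℕ → Fin F.D → ℤ}
    (hm : ∀ l i, |(m l i : ℝ)| ≤ B * L l) (l : ℕ) : |ell F.ω (m l) / L l| ≤ F.C * B := by
  have h1 : (0 : ℝ) < L l := by exact_mod_cast S.hL l
  rw [abs_div, abs_of_pos h1, div_le_iff₀ h1]
  have := F.bd (B * L l) (m l) (hm l)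
  linarith

/-- every number of absolute value at most one is `y - θ x` -/
theorem expand (S : Seq F θ A L) (r : ℝ) (hr : |r| ≤ 1) :
    ∃ m₁ m₂ : ℕ → Fin F.D → ℤ, (∀ l i, |(m₁ l i : ℝ)| ≤ A * L l) ∧
      (∀ l i, |(m₂ l i : ℝ)| ≤ A * L l) ∧ r = val F A L m₂ - θ * val F A L m₁ := by
  have hcov : ∀ (l : ℕ) (z : ℝ), ∃ (m₁ m₂ : Fin F.D → ℤ) (z' : ℝ), |z| ≤ 1 →
      (∀ i, |(m₁ i : ℝ)| ≤ A * L l) ∧ (∀ i, |(m₂ i : ℝ)| ≤ A * L l) ∧ |z'| ≤ 1 ∧
      z = (ell F.ω m₂ - θ * ell F.ω m₁) / L l + A / ((L l : ℝ) ^ F.D) ^ 2 * z' := by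
    intro l z
    by_cases hz : |z| ≤ 1
    · obtain ⟨m₁, m₂, z', h⟩ := S.cov l z hz
      exact ⟨m₁, m₂, z', fun _ => h⟩
    · exact ⟨0, 0, 0, fun h => absurd h hz⟩
  choose f₁ f₂ g hfg using hcov
  set z : ℕ → ℝ := fun i => Nat.rec r (fun i z => g i z) i with hz
  have hz1 : ∀ i, z (i + 1) = g i (z i) := fun i => rfl
  have hzb : ∀ i, |z i| ≤ 1 := by
    intro i
    induction i with
    | zero => exact hr
    | succ i ih => rw [hz1]; exact (hfg i _ ih).2.2.1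
  set m₁ : ℕ → Fin F.D → ℤ := fun i => f₁ i (z i) with hm₁
  set m₂ : ℕ → Fin F.D → ℤ := fun i => f₂ i (z i) with hm₂
  have hb1 : ∀ l i, |(m₁ l i : ℝ)| ≤ A * L l := fun l => (hfg l _ (hzb l)).1
  have hb2 : ∀ l i, |(m₂ l i : ℝ)| ≤ A * L l := fun l => (hfg l _ (hzb l)).2.1
  refine ⟨m₁, m₂, hb1, hb2, ?_⟩
  set κ := kap A (fun l => (L l : ℝ) ^ F.D) with hκ
  have hrec : ∀ i, r = (∑ l ∈ range i, κ l * (ell F.ω (m₂ l) / L l)) -
      θ * (∑ l ∈ range i, κ l * (ell F.ω (m₁ l) / L l)) + κ i * z i := by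
    intro i
    induction i with
    | zero => simp [hκ, kap, hz]
    | succ i ih =>
      have h5 := (hfg i (z i) (hzb i)).2.2.2
      have h6 : κ (i + 1) = κ i * (A / ((L i : ℝ) ^ F.D) ^ 2) := kap_succ _ _ _
      rw [sum_range_succ, sum_range_succ, h6, hz1]
      have h7 : κ i * z i = κ i * ((ell F.ω (m₂ i) - θ * ell F.ω (m₁ i)) / L i +
          A / ((L i : ℝ) ^ F.D) ^ 2 * g i (z i)) := by rw [← h5]
      calc r = (∑ l ∈ range i, κ l * (ell F.ω (m₂ l) / L l)) -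
            θ * (∑ l ∈ range i, κ l * (ell F.ω (m₁ l) / L l)) + κ i * z i := ih
        _ = _ := by rw [h7]; ring
  have t1 := (summable_ser S.fast (digit_le S hb1)).hasSum.tendsto_sum_nat
  have t2 := (summable_ser S.fast (digit_le S hb2)).hasSum.tendsto_sum_nat
  have t3 : Tendsto (fun i => κ i * z i) atTop (𝓝 0) := by
    refine squeeze_zero_norm (fun i => ?_)
      (kap_tendsto (by linarith [S.hA]) S.pos S.small)
    rw [Real.norm_eq_abs, abs_mul, abs_of_pos (S.fast.1 i)]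
    exact mul_le_of_le_one_right (S.fast.1 i).le (hzb i)
  have t4 := (t2.sub (t1.const_mul θ)).add t3
  have t5 : Tendsto (fun _ : ℕ => r) atTop (𝓝 (val F A L m₂ - θ * val F A L m₁ + 0)) := by
    refine t4.congr (fun i => ?_)
    exact (hrec i).symm
  have := tendsto_nhds_unique tendsto_const_nhds t5
  rwa [add_zero] at this

end

/-- the partial sums of level `i` -/
noncomputable def parts (F : Frame K) (κ : ℕ → ℝ) (L : ℕ → ℕ) (B : ℝ) : ℕ → Finset ℝ
  | 0 => {0}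
  | i + 1 => (parts F κ L B i ×ˢ
      Fintype.piFinset (fun _ : Fin F.D => Finset.Icc (-⌊B * L i⌋) ⌊B * L i⌋)).image
      (fun p : ℝ × (Fin F.D → ℤ) => p.1 + κ i * (ell F.ω p.2 / L i))

theorem card_parts (F : Frame K) (κ : ℕ → ℝ) {L : ℕ → ℕ} (hL : ∀ l, 1 ≤ L l) {B : ℝ} (hB : 1 ≤ B)
    (i : ℕ) : ((parts F κ L B i).card : ℝ) ≤ ∏ l ∈ range i, (3 * B) ^ F.D * (L l : ℝ) ^ F.D := by
  induction i with
  | zero => simp [parts]
  | succ i ih =>
    have hq : (1 : ℝ) ≤ L i := by exact_mod_cast hL i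
    have h0 : (0 : ℤ) ≤ ⌊B * L i⌋ := Int.floor_nonneg.mpr (by positivity)
    have h3 : ((Finset.Icc (-⌊B * (L i : ℝ)⌋) ⌊B * (L i : ℝ)⌋).card : ℝ) ≤ (3 * B) * L i := by
      rw [Int.card_Icc]
      have h4 : ((⌊B * (L i : ℝ)⌋ + 1 - -⌊B * (L i : ℝ)⌋).toNat : ℤ) = 2 * ⌊B * (L i : ℝ)⌋ + 1 := by
        rw [Int.toNat_of_nonneg (by omega)]; ring
      have h5 : ((⌊B * (L i : ℝ)⌋ + 1 - -⌊B * (L i : ℝ)⌋).toNat : ℝ)
          = 2 * (⌊B * (L i : ℝ)⌋ : ℝ) + 1 := by exact_mod_cast h4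
      rw [h5]
      have h6 := Int.floor_le (B * (L i : ℝ))
      have h7 : 1 ≤ B * L i := by nlinarith
      linarith
    have h8 : ((Fintype.piFinset (fun _ : Fin F.D =>
        Finset.Icc (-⌊B * (L i : ℝ)⌋) ⌊B * (L i : ℝ)⌋)).card : ℝ) ≤ (3 * B) ^ F.D * (L i : ℝ) ^ F.D := by
      rw [Fintype.card_piFinset, prod_const, card_univ, Fintype.card_fin, ← mul_pow]
      push_cast
      exact pow_le_pow_left₀ (by positivity) h3 _
    rw [prod_range_succ]
    calc ((parts F κ L B (i + 1)).card : ℝ)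
        ≤ ((parts F κ L B i ×ˢ Fintype.piFinset (fun _ : Fin F.D =>
            Finset.Icc (-⌊B * (L i : ℝ)⌋) ⌊B * (L i : ℝ)⌋)).card : ℝ) :=
          Nat.cast_le.mpr card_image_le
      _ = ((parts F κ L B i).card : ℝ) * ((Fintype.piFinset (fun _ : Fin F.D =>
            Finset.Icc (-⌊B * (L i : ℝ)⌋) ⌊B * (L i : ℝ)⌋)).card : ℝ) := by
          rw [card_product]; push_cast; rfl
      _ ≤ (∏ l ∈ range i, (3 * B) ^ F.D * (L l : ℝ) ^ F.D) * ((3 * B) ^ F.D * (L i : ℝ) ^ F.D) :=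
          mul_le_mul ih h8 (by positivity) (prod_nonneg fun l _ => by positivity)

theorem mem_parts (F : Frame K) (κ : ℕ → ℝ) {L : ℕ → ℕ} {B : ℝ} {m : ℕ → Fin F.D → ℤ}
    (hm : ∀ l i, |(m l i : ℝ)| ≤ B * L l) (i : ℕ) :
    ∑ l ∈ range i, κ l * (ell F.ω (m l) / L l) ∈ parts F κ L B i := by
  induction i with
  | zero => simp [parts]
  | succ i ih =>
    rw [parts, mem_image]
    refine ⟨(∑ l ∈ range i, κ l * (ell F.ω (m l) / L l), m i), ?_, ?_⟩
    · rw [mem_product]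
      refine ⟨ih, ?_⟩
      rw [Fintype.mem_piFinset]
      intro j
      have h1 := abs_le.mp (hm i j)
      rw [Finset.mem_Icc]
      constructor
      · have : -(m i j) ≤ ⌊B * (L i : ℝ)⌋ := Int.le_floor.mpr (by push_cast; linarith)
        simp only
        omega
      · exact Int.le_floor.mpr h1.2
    · rw [sum_range_succ]

/-- the set of all sums -/
def sums (F : Frame K) (A : ℝ) (L : ℕ → ℕ) (B : ℝ) : Set ℝ :=
  {w | ∃ m : ℕ → Fin F.D → ℤ, (∀ l i, |(m l i : ℝ)| ≤ B * L l) ∧ w = val F A L m}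

theorem thinR_sums {F : Frame K} {θ A : ℝ} {L : ℕ → ℕ} (S : Seq F θ A L) {B : ℝ} (hB : 1 ≤ B) :
    ThinR (1 / 2) (sums F A L B) := by
  intro ε hε
  have hA0 : 0 < A := by linarith [S.hA]
  have hFC := F.hC
  obtain ⟨Cq, hCq, hslow⟩ := S.slow
  obtain ⟨C, hC, hg⟩ := growth hA0 S.pos hCq hslow S.tend (B := (3 * B) ^ F.D) (by positivity) hε
  set κ := kap A (fun l => (L l : ℝ) ^ F.D) with hκ
  set W : ℝ := F.C * B with hW
  have hW0 : 0 < W := by positivity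
  set e : ℝ := 1 / 2 + ε with he
  have he0 : 0 < e := by positivity
  refine ⟨C * (2 * W) ^ e + 1, by positivity, fun δ hδ hδ1 => ?_⟩
  have hex : ∃ i, 2 * W * κ i ≤ δ := by
    have h3 := (kap_tendsto hA0 S.pos S.small).const_mul (2 * W)
    rw [mul_zero] at h3
    exact (h3.eventually (ge_mem_nhds hδ)).exists
  classical
  set i := Nat.find hex with hi
  have hi1 : 2 * W * κ i ≤ δ := Nat.find_spec hex
  refine ⟨parts F κ L B i, ?_, ?_⟩
  · have hδe : 1 ≤ δ ^ (-e) := Real.one_le_rpow_of_pos_of_le_one_of_nonpos hδ hδ1 (by linarith)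
    rcases Nat.eq_zero_or_pos i with h0 | h0
    · rw [h0]
      simp only [parts, card_singleton, Nat.cast_one]
      have : 0 ≤ C * (2 * W) ^ e := by positivity
      nlinarith
    · obtain ⟨j, hj⟩ := Nat.exists_eq_succ_of_ne_zero h0.ne'
      rw [Nat.succ_eq_add_one] at hj
      have hj1 : δ < 2 * W * κ j := by
        have := Nat.find_min hex (m := j) (by omega)
        push Not at this
        exact this
      have h4 : ((parts F κ L B i).card : ℝ) ≤ C * κ j ^ (-e) := by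
        rw [hj]
        exact (card_parts F κ S.hL hB (j + 1)).trans (hg j)
      have h5 : κ j ^ (-e) ≤ (2 * W) ^ e * δ ^ (-e) := by
        have hk := S.fast.1 j
        rw [← hκ] at hk
        rw [Real.rpow_neg hk.le, Real.rpow_neg hδ.le, ← div_eq_mul_inv,
          inv_le_iff_one_le_mul₀ (Real.rpow_pos_of_pos hk e), div_mul_eq_mul_div,
          one_le_div (Real.rpow_pos_of_pos hδ e), ← Real.mul_rpow (by positivity) hk.le]
        exact Real.rpow_le_rpow hδ.le hj1.le he0.le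
      calc ((parts F κ L B i).card : ℝ) ≤ C * κ j ^ (-e) := h4
        _ ≤ C * ((2 * W) ^ e * δ ^ (-e)) := mul_le_mul_of_nonneg_left h5 hC.le
        _ ≤ (C * (2 * W) ^ e + 1) * δ ^ (-e) := by
            have : 0 ≤ δ ^ (-e) := by positivity
            nlinarith
  · rintro w ⟨m, hm, rfl⟩
    exact ⟨_, mem_parts F κ hm i, (tail_le S.fast (digit_le S hm) i).trans hi1⟩

end Pool.Agent.Run7.h70.IHP.NF
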