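import Pool.Agent.Run7.h70.IHP.Approx

set_option autoImplicit false

/-! # Discretised configurations with few slices and many differences do not exist -/

open Filter Topology Finset
open scoped Pointwise

namespace Pool.Agent.Run7.h70.IHP

open Pool.Agent.Run7.h84.US (graph_lemma)

/-- the slice map -/
noncomputable def phi {n : ℕ} (c : ℝ) (p : (Fin n → ℤ) × (Fin n → ℤ)) : Fin n → ℤ :=
  p.1 + sc c p.2

/-- the paths of length three -/
noncomputable def Pth {n : ℕ} (E : Finset ((Fin n → ℤ) × (Fin n → ℤ))) (w x : Fin n → ℤ) :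
    Finset ((Fin n → ℤ) × (Fin n → ℤ)) :=
  ((E.image Prod.fst) ×ˢ (E.image Prod.snd)).filter
    fun q => (w, q.2) ∈ E ∧ (q.1, q.2) ∈ E ∧ (q.1, x) ∈ E

theorem card_pth {n : ℕ} (E : Finset ((Fin n → ℤ) × (Fin n → ℤ))) {c : ℝ} (hc : c ≠ 0)
    (w x : Fin n → ℤ) :
    ((Pth E w x).card : ℝ) ≤
      ((((E.image (phi c)) ×ˢ ((E.image (phi c)) ×ˢ (E.image (phi c)))).filter
        fun t => t.1 - t.2.1 + t.2.2 = w + sc c x).card : ℝ) *
        ((2 * ⌈1 / |c|⌉₊ + 1) ^ n : ℕ) := by
  set m : ℕ := ⌈1 / |c|⌉₊ with hm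
  set S := E.image (phi c) with hS
  set g : (Fin n → ℤ) × (Fin n → ℤ) → (Fin n → ℤ) × ((Fin n → ℤ) × (Fin n → ℤ)) :=
    fun q => (phi c (w, q.2), phi c (q.1, q.2), phi c (q.1, x)) with hg
  have h1 : (Pth E w x).card ≤ (2 * m + 1) ^ n * ((Pth E w x).image g).card := by
    refine card_le_mul_card_image _ _ fun b hb => ?_
    obtain ⟨q₀, hq₀, rfl⟩ := mem_image.mp hb
    rw [← card_box]
    refine card_le_card_of_injOn (fun q => q.2 - q₀.2) ?_ ?_
    · intro q hq
      rw [mem_coe, mem_filter] at hq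
      rw [mem_coe, mem_box]
      intro i
      have h2 : w + sc c q.2 = w + sc c q₀.2 := congrArg Prod.fst hq.2
      have h3 := sc_fibre hc (add_left_cancel h2) i
      change |q.2 i - q₀.2 i| ≤ (m : ℤ)
      exact_mod_cast h3
    · intro q hq q' hq' hqq
      rw [mem_coe, mem_filter] at hq hq'
      have h2 : q.2 = q'.2 := sub_left_injective hqq
      have h3 : q.1 + sc c x = q₀.1 + sc c x := congrArg (fun t => t.2.2) hq.2
      have h4 : q'.1 + sc c x = q₀.1 + sc c x := congrArg (fun t => t.2.2) hq'.2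
      exact Prod.ext ((add_right_cancel h3).trans (add_right_cancel h4).symm) h2
  have h2 : (Pth E w x).image g ⊆ (S ×ˢ (S ×ˢ S)).filter
      fun t => t.1 - t.2.1 + t.2.2 = w + sc c x := by
    intro t ht
    obtain ⟨q, hq, rfl⟩ := mem_image.mp ht
    obtain ⟨_, h3, h4, h5⟩ := mem_filter.mp hq
    refine mem_filter.mpr ⟨mem_product.mpr ⟨mem_image_of_mem _ h3,
      mem_product.mpr ⟨mem_image_of_mem _ h4, mem_image_of_mem _ h5⟩⟩, ?_⟩
    simp only [hg, phi]
    abel
  have h3 : (Pth E w x).card ≤ (2 * m + 1) ^ n * ((S ×ˢ (S ×ˢ S)).filter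
      fun t => t.1 - t.2.1 + t.2.2 = w + sc c x).card :=
    h1.trans (Nat.mul_le_mul_left _ (card_le_card h2))
  calc ((Pth E w x).card : ℝ) ≤ (((2 * m + 1) ^ n * ((S ×ˢ (S ×ˢ S)).filter
        fun t => t.1 - t.2.1 + t.2.2 = w + sc c x).card : ℕ) : ℝ) := by exact_mod_cast h3
    _ = _ := by push_cast; ring

/-- sum sets from paths -/
theorem card_sum {n : ℕ} (E : Finset ((Fin n → ℤ) × (Fin n → ℤ))) {c : ℝ} (hc : c ≠ 0)
    (W X : Finset (Fin n → ℤ)) {P : ℝ} (hP : ∀ w ∈ W, ∀ x ∈ X, P ≤ ((Pth E w x).card : ℝ)) :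
    ((W + X.image (sc c)).card : ℝ) * P ≤
      ((E.image (phi c)).card : ℝ) ^ 3 * ((2 * ⌈1 / |c|⌉₊ + 1) ^ n : ℕ) := by
  set S := E.image (phi c) with hS
  set T := W + X.image (sc c) with hT
  set D : ℝ := (((2 * ⌈1 / |c|⌉₊ + 1) ^ n : ℕ) : ℝ) with hD
  set tau : (Fin n → ℤ) × ((Fin n → ℤ) × (Fin n → ℤ)) → (Fin n → ℤ) :=
    fun t => t.1 - t.2.1 + t.2.2 with htau
  have h1 : ∀ v ∈ T, P ≤ (((S ×ˢ (S ×ˢ S)).filter fun t => tau t = v).card : ℝ) * D := by
    intro v hv
    rw [hT, Finset.mem_add] at hv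
    obtain ⟨w, hw, y, hy, rfl⟩ := hv
    obtain ⟨x, hx, rfl⟩ := mem_image.mp hy
    exact (hP w hw x hx).trans (card_pth E hc w x)
  have h2 : ∑ v ∈ T, (((S ×ˢ (S ×ˢ S)).filter fun t => tau t = v).card : ℝ) ≤ (S.card : ℝ) ^ 3 := by
    have h3 : ∑ v ∈ T, ((S ×ˢ (S ×ˢ S)).filter fun t => tau t = v).card ≤
        (S ×ˢ (S ×ˢ S)).card := by
      rw [← card_biUnion]
      · refine card_le_card fun t ht => ?_
        obtain ⟨v, _, hv⟩ := mem_biUnion.mp ht
        exact (mem_filter.mp hv).1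
      · intro v _ v' _ hvv
        rw [Function.onFun, disjoint_left]
        intro t ht ht'
        exact hvv ((mem_filter.mp ht).2.symm.trans (mem_filter.mp ht').2)
    have h4 : (S ×ˢ (S ×ˢ S)).card = S.card ^ 3 := by
      rw [card_product, card_product]
      ring
    rw [h4] at h3
    exact_mod_cast h3
  calc ((T.card : ℝ)) * P = ∑ _v ∈ T, P := by rw [sum_const, nsmul_eq_mul]
    _ ≤ ∑ v ∈ T, (((S ×ˢ (S ×ˢ S)).filter fun t => tau t = v).card : ℝ) * D := sum_le_sum h1
    _ = (∑ v ∈ T, (((S ×ˢ (S ×ˢ S)).filter fun t => tau t = v).card : ℝ)) * D := by rw [sum_mul]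
    _ ≤ (S.card : ℝ) ^ 3 * D := mul_le_mul_of_nonneg_right h2 (by positivity)

/-- **No discretised configurations.** -/
theorem no_config {n : ℕ} {N : ℕ → ℝ} (hN : Tendsto N atTop atTop)
    (E : ℕ → Finset ((Fin n → ℤ) × (Fin n → ℤ))) (T : Set ℝ) {ν : ℝ}
    (hν : ν ∈ Subfield.closure T)
    (hE : Lo N 2 (fun j => ((E j).card : ℝ)))
    (h1 : Up N 1 (fun j => (((E j).image Prod.fst).card : ℝ)))
    (h2 : Up N 1 (fun j => (((E j).image Prod.snd).card : ℝ)))
    (h3 : ∀ c ∈ insert 1 T, Up N 1 (fun j => (((E j).image (phi c)).card : ℝ)))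
    (C : ℕ) (h4 : ∀ j, ∀ v, ((E j).filter fun p => phi ν p = v).card ≤ C) : False := by
  classical
  set U : ℕ → Finset (Fin n → ℤ) := fun j => (E j).image Prod.fst with hU
  set V : ℕ → Finset (Fin n → ℤ) := fun j => (E j).image Prod.snd with hV
  set M : ℕ → ℝ := fun j => ((U j).card : ℝ) + (V j).card with hM
  have hMup : Up N 1 M := h1.add hN h2
  have hM0 : ∀ j, 0 ≤ M j := fun j => by positivity
  have hM2 : Up N 2 (fun j => M j * M j) :=
    (hMup.mul hN hMup hM0).congr_exp (by norm_num)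
  have hMpos : ∀ᶠ j in atTop, 0 < M j := by
    filter_upwards [hE.pos hN] with j hj
    have hne : (E j).Nonempty := by rw [← card_pos]; exact_mod_cast hj
    have h5 : 0 < (U j).card := card_pos.mpr (hne.image _)
    have h6 : (0 : ℝ) < (U j).card := by exact_mod_cast h5
    simp only [hM]
    positivity
  -- the graph lemma
  have hgl : ∀ j, ∃ W X : Finset (Fin n → ℤ), 0 < M j → 0 < ((E j).card : ℝ) →
      W ⊆ U j ∧ X ⊆ V j ∧
      (((E j).card : ℝ) / (M j) ^ 2) ^ 2 / 24 * (M j) ^ 2 ≤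
        (((W ×ˢ X).filter fun q => (q.1, q.2) ∈ E j).card : ℝ) ∧
      ∀ w ∈ W, ∀ x ∈ X, (((E j).card : ℝ) / (M j) ^ 2) ^ 6 / 12288 * (M j) ^ 2 ≤
        ((Pth (E j) w x).card : ℝ) := by
    intro j
    by_cases hj : 0 < M j ∧ 0 < ((E j).card : ℝ)
    · obtain ⟨hj1, hj2⟩ := hj
      have hsum : ∑ u ∈ U j, (((V j).filter fun v => (u, v) ∈ E j).card : ℝ) = ((E j).card : ℝ) := by
        have e1 : (E j).card = ∑ u ∈ U j, ((E j).filter fun p => p.1 = u).card :=
          card_eq_sum_card_fiberwise (fun p hp => mem_image_of_mem _ hp)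
        rw [e1]
        push_cast
        refine sum_congr rfl fun u _ => ?_
        congr 1
        refine card_bij' (fun v _ => (u, v)) (fun p _ => p.2) ?_ ?_ ?_ ?_
        · intro v hv
          exact mem_filter.mpr ⟨(mem_filter.mp hv).2, rfl⟩
        · intro p hp
          obtain ⟨hp1, hp2⟩ := mem_filter.mp hp
          refine mem_filter.mpr ⟨mem_image_of_mem _ hp1, ?_⟩
          rw [← hp2]
          exact hp1
        · intro v _
          rfl
        · intro p hp
          obtain ⟨_, hp2⟩ := mem_filter.mp hp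
          exact Prod.ext hp2.symm rfl
      obtain ⟨A', hA', B', hB', h5, h6⟩ := graph_lemma (U j) (V j) (fun u v => (u, v) ∈ E j) (M j)
        (((E j).card : ℝ) / (M j) ^ 2) hj1 (by positivity)
        (by simp only [hM]; linarith [Nat.cast_nonneg (α := ℝ) (V j).card])
        (by simp only [hM]; linarith [Nat.cast_nonneg (α := ℝ) (U j).card])
        (by rw [hsum, div_mul_cancel₀ _ (by positivity)])
      exact ⟨A', B', fun _ _ => ⟨hA', hB', h5, fun w hw x hx => h6 w hw x hx⟩⟩
    · exact ⟨∅, ∅, fun h h' => absurd ⟨h, h'⟩ hj⟩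
  choose W X hWX using hgl
  have hev : ∀ᶠ j in atTop, 0 < M j ∧ 0 < ((E j).card : ℝ) := hMpos.and (hE.pos hN)
  -- exponents
  have hedge : Lo N 2 (fun j => (((W j ×ˢ X j).filter fun q => (q.1, q.2) ∈ E j).card : ℝ)) := by
    have e1 : Lo N 2 (fun j => (((E j).card : ℝ) * (E j).card) / (M j * M j) * (1 / 24)) :=
      (((hE.mul hN hE).div hN hM2 (by
        filter_upwards [hMpos] with j hj
        positivity)).cmul hN (by norm_num)).congr_exp (by norm_num)
    refine e1.mono ?_
    filter_upwards [hev] with j hj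
    refine le_trans (le_of_eq ?_) (hWX j hj.1 hj.2).2.2.1
    have := hj.1.ne'
    field_simp
  have hpath : Lo N 2 (fun j => (((E j).card : ℝ) / (M j) ^ 2) ^ 6 / 12288 * (M j) ^ 2) := by
    have a1 : Lo N 0 (fun j => ((E j).card : ℝ) / (M j * M j)) :=
      (hE.div hN hM2 (by
        filter_upwards [hMpos] with j hj
        positivity)).congr_exp (by norm_num)
    have a2 : Lo N 2 (fun j => M j * M j) := by
      refine hE.mono (Eventually.of_forall fun j => ?_)
      have b1 : (E j) ⊆ U j ×ˢ V j := fun p hp =>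
        mem_product.mpr ⟨mem_image_of_mem _ hp, mem_image_of_mem _ hp⟩
      have b2 := card_le_card b1
      rw [card_product] at b2
      have b3 : ((E j).card : ℝ) ≤ (U j).card * (V j).card := by exact_mod_cast b2
      have b4 : (0 : ℝ) ≤ (U j).card := Nat.cast_nonneg _
      have b5 : (0 : ℝ) ≤ (V j).card := Nat.cast_nonneg _
      exact b3.trans (mul_le_mul (by simp only [hM]; linarith) (by simp only [hM]; linarith) b5
        (hM0 j))
    have a3 := ((((((a1.mul hN a1).mul hN a1).mul hN a1).mul hN a1).mul hN a1).mul hN a2).cmul hN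
      (show (0 : ℝ) < 1 / 12288 by norm_num)
    refine (a3.congr_exp (show (0 : ℝ) + 0 + 0 + 0 + 0 + 0 + 2 = 2 by norm_num)).mono
      (Eventually.of_forall fun j => le_of_eq ?_)
    rw [← pow_two (M j)]
    ring
  have hWsub : ∀ᶠ j in atTop, ((W j).card : ℝ) ≤ (U j).card := by
    filter_upwards [hev] with j hj
    exact_mod_cast card_le_card (hWX j hj.1 hj.2).1
  have hXsub : ∀ᶠ j in atTop, ((X j).card : ℝ) ≤ (V j).card := by
    filter_upwards [hev] with j hj
    exact_mod_cast card_le_card (hWX j hj.1 hj.2).2.1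
  have hprod : ∀ j, (((W j ×ˢ X j).filter fun q => (q.1, q.2) ∈ E j).card : ℝ) ≤
      (W j).card * (X j).card := by
    intro j
    have := card_le_card (filter_subset (fun q => (q.1, q.2) ∈ E j) (W j ×ˢ X j))
    rw [card_product] at this
    exact_mod_cast this
  have hw1 : Up N 1 (fun j => ((W j).card : ℝ)) := h1.mono hWsub
  have hx1 : Up N 1 (fun j => ((X j).card : ℝ)) := h2.mono hXsub
  have hpp : ∀ᶠ j in atTop, 0 < ((W j).card : ℝ) ∧ 0 < ((X j).card : ℝ) := by
    filter_upwards [hedge.pos hN] with j hj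
    have h5 := hj.trans_le (hprod j)
    constructor
    · by_contra h6
      have h7 : ((W j).card : ℝ) = 0 := le_antisymm (not_lt.mp h6) (by positivity)
      rw [h7, zero_mul] at h5
      exact lt_irrefl _ h5
    · by_contra h6
      have h7 : ((X j).card : ℝ) = 0 := le_antisymm (not_lt.mp h6) (by positivity)
      rw [h7, mul_zero] at h5
      exact lt_irrefl _ h5
  have hw2 : Lo N 1 (fun j => ((W j).card : ℝ)) := by
    refine ((hedge.div hN hx1 (hpp.mono fun j hj => hj.2)).congr_exp (by norm_num)).mono ?_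
    filter_upwards [hpp] with j hj
    rw [div_le_iff₀ hj.2]
    exact hprod j
  have hx2 : Lo N 1 (fun j => ((X j).card : ℝ)) := by
    refine ((hedge.div hN hw1 (hpp.mono fun j hj => hj.1)).congr_exp (by norm_num)).mono ?_
    filter_upwards [hpp] with j hj
    rw [div_le_iff₀ hj.1, mul_comm]
    exact hprod j
  -- the slices
  have hok : ∀ c ∈ insert 1 T, c ≠ 0 → Up N 1 (fun j => ((W j + (X j).image (sc c)).card : ℝ)) := by
    intro c hcT hc
    have a1 := h3 c hcT
    have a2 := (((a1.mul hN a1 (fun j => by positivity)).mul hN a1 (fun j => by positivity)).cmul hN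
      (C := (((2 * ⌈1 / |c|⌉₊ + 1) ^ n : ℕ) : ℝ)) (by positivity)).div hN hpath
    refine (a2.congr_exp (show (1 : ℝ) + 1 + 1 - 2 = 1 by norm_num)).mono ?_
    filter_upwards [hev] with j hj
    have a3 : 0 < (((E j).card : ℝ) / (M j) ^ 2) ^ 6 / 12288 * (M j) ^ 2 := by
      have := hj.1
      have := hj.2
      positivity
    rw [le_div_iff₀ a3]
    refine (card_sum (E j) hc (W j) (X j) (hWX j hj.1 hj.2).2.2.2).trans (le_of_eq ?_)
    ring
  have hbase : Base N W X := ⟨hN, hw1, hw2, hx1, hx2, by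
    have := hok 1 (Set.mem_insert _ _) one_ne_zero
    have e : (fun j => ((W j + (X j).image (sc 1)).card : ℝ)) = fun j => ((W j + X j).card : ℝ) := by
      funext j
      rw [image_sc_one]
    rwa [e] at this⟩
  have hfield := hbase.field (T := T) (fun σ hσ => by
    by_cases h0 : σ = 0
    · rw [h0]
      exact hbase.zero
    · exact hok σ (Set.mem_insert_of_mem _ hσ) h0) ν hν
  -- the contradiction
  have hfin : Up N 1 (fun j => (((W j ×ˢ X j).filter fun q => (q.1, q.2) ∈ E j).card : ℝ)) := by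
    refine (hfield.cmul hN (C := (C : ℝ)) (by positivity)).mono (Eventually.of_forall fun j => ?_)
    set Q := (W j ×ˢ X j).filter fun q => (q.1, q.2) ∈ E j with hQ
    have b1 : Q.card ≤ C * (Q.image (phi ν)).card := by
      refine card_le_mul_card_image _ _ fun v _ => ?_
      refine le_trans (card_le_card ?_) (h4 j v)
      intro p hp
      obtain ⟨hp1, hp2⟩ := mem_filter.mp hp
      exact mem_filter.mpr ⟨(mem_filter.mp hp1).2, hp2⟩
    have b2 : Q.image (phi ν) ⊆ W j + (X j).image (sc ν) := by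
      intro v hv
      obtain ⟨p, hp, rfl⟩ := mem_image.mp hv
      have hp1 := mem_product.mp (mem_filter.mp hp).1
      exact Finset.add_mem_add hp1.1 (mem_image_of_mem _ hp1.2)
    have b3 : (Q.card : ℝ) ≤ C * (W j + (X j).image (sc ν)).card := by
      exact_mod_cast b1.trans (Nat.mul_le_mul_left _ (card_le_card b2))
    linarith
  exact hfin.not_lo hN hedge (by norm_num)

end Pool.Agent.Run7.h70.IHP
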