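import Pool.Agent.Run7.h70.IHP.Level
import Pool.Agent.Run7.h70.IHP.NFLine

set_option autoImplicit false

/-! # The construction for arbitrary countable fields -/

open Filter Topology Finset

namespace Pool.Agent.Run7.h70.IHP.CF

open Pool.Agent.Run7.h70.IHP.NF (ser Fast summable_ser)

/-- the scales -/
noncomputable def kap (η : ℕ → ℝ) (i : ℕ) : ℝ := ∏ l ∈ range i, η l

theorem kap_succ (η : ℕ → ℝ) (i : ℕ) : kap η (i + 1) = kap η i * η i := prod_range_succ _ _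

theorem kap_pos {η : ℕ → ℝ} (h0 : ∀ l, 0 < η l) (i : ℕ) : 0 < kap η i := prod_pos fun l _ => h0 l

theorem kap_fast {η : ℕ → ℝ} (h0 : ∀ l, 0 < η l) (h1 : ∀ l, η l ≤ 1 / 2) : Fast (kap η) := by
  refine ⟨kap_pos h0, fun i l => ?_⟩
  induction l with
  | zero => simp
  | succ l ih =>
    have h2 : l + 1 + i = l + i + 1 := by ring
    rw [h2, kap_succ]
    calc kap η (l + i) * η (l + i) ≤ kap η i * (1 / 2) ^ l * (1 / 2) :=
          mul_le_mul ih (h1 _) (h0 _).le (by have := kap_pos h0 i; positivity)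
      _ = kap η i * (1 / 2) ^ (l + 1) := by ring

theorem kap_le {η : ℕ → ℝ} (h0 : ∀ l, 0 < η l) (h1 : ∀ l, η l ≤ 1 / 2) (i : ℕ) :
    kap η i ≤ (1 / 2) ^ i := by
  have := (kap_fast h0 h1).2 0 i
  simpa [kap] using this

theorem kap_tendsto {η : ℕ → ℝ} (h0 : ∀ l, 0 < η l) (h1 : ∀ l, η l ≤ 1 / 2) :
    Tendsto (kap η) atTop (𝓝 0) :=
  squeeze_zero (fun i => (kap_pos h0 i).le) (kap_le h0 h1)
    (tendsto_pow_atTop_nhds_zero_of_lt_one (r := (1 / 2 : ℝ)) (by norm_num) (by norm_num))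

/-- growth -/
theorem growth {η : ℕ → ℝ} (h0 : ∀ l, 0 < η l) (h1 : ∀ l, η l ≤ 1 / 2) {Q : ℕ} (hQ : 1 ≤ Q)
    (hη : ∀ l, 1 / η l ≤ (l : ℝ) + Q) (N : ℕ → ℕ) {ε : ℝ} (hε : 0 < ε)
    (hN : ∀ᶠ l in atTop, (N l : ℝ) ≤ η l ^ (-(1 / 2 + ε / 2))) :
    ∃ C : ℝ, 0 < C ∧ ∀ i, ∏ l ∈ range (i + 1), (N l : ℝ) ≤ C * kap η i ^ (-(1 / 2 + ε)) := by
  set a : ℝ := 1 / 2 + ε / 2 with ha
  have ha0 : 0 < a := by positivity
  obtain ⟨l₀, hl₀⟩ := eventually_atTop.mp hN
  set R : ℕ → ℝ := fun i => (∏ l ∈ range i, (N l : ℝ)) * kap η i ^ a with hR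
  have hR0 : ∀ i, 0 ≤ R i := fun i => by
    have h5 : 0 ≤ ∏ l ∈ range i, (N l : ℝ) := prod_nonneg fun l _ => by positivity
    have h6 := (Real.rpow_pos_of_pos (kap_pos h0 i) a).le
    exact mul_nonneg h5 h6
  have hstep : ∀ i, l₀ ≤ i → R (i + 1) ≤ R i := by
    intro i hi
    have h5 := hl₀ i hi
    have h7 : (N i : ℝ) * η i ^ a ≤ 1 := by
      have h8 := mul_le_mul_of_nonneg_right h5 (Real.rpow_pos_of_pos (h0 i) a).le
      rwa [← Real.rpow_add (h0 i), neg_add_cancel, Real.rpow_zero] at h8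
    have e : R (i + 1) = R i * ((N i : ℝ) * η i ^ a) := by
      simp only [hR]
      rw [prod_range_succ, kap_succ, Real.mul_rpow (kap_pos h0 i).le (h0 i).le]
      ring
    rw [e]
    exact mul_le_of_le_one_right (hR0 i) h7
  have hbound : ∀ i, R i ≤ ∑ j ∈ range (l₀ + 1), R j := by
    intro i
    rcases le_or_gt i l₀ with h | h
    · exact single_le_sum (f := R) (fun j _ => hR0 j) (mem_range.mpr (by omega))
    · have h9 : ∀ j, R (l₀ + j) ≤ R l₀ := by
        intro j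
        induction j with
        | zero => simp
        | succ j ih => exact (hstep (l₀ + j) (by omega)).trans ih
      have h10 := h9 (i - l₀)
      rw [show l₀ + (i - l₀) = i by omega] at h10
      exact h10.trans (single_le_sum (f := R) (fun j _ => hR0 j) (mem_range.mpr (by omega)))
  set C₁ : ℝ := ∑ j ∈ range (l₀ + 1), R j + 1 with hC₁
  have hC₁pos : 0 < C₁ := by
    have := sum_nonneg (fun j (_ : j ∈ range (l₀ + 1)) => hR0 j)
    linarith
  -- the polynomial factor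
  obtain ⟨k, hk⟩ := exists_nat_ge a
  set r : ℝ := 2 ^ (ε / 2) with hr
  have hr1 : 1 < r := Real.one_lt_rpow (by norm_num) (by linarith)
  obtain ⟨D, hD⟩ := (tendsto_pow_const_div_const_pow_of_one_lt k hr1).bddAbove_range
  have hD' : ∀ n : ℕ, (n : ℝ) ^ k ≤ D * r ^ n := by
    intro n
    have h : (n : ℝ) ^ k / r ^ n ≤ D := hD (Set.mem_range_self n)
    rwa [div_le_iff₀ (by positivity)] at h
  have hD0 : 0 < D := by
    have := hD' 1
    simp only [Nat.cast_one, one_pow, pow_one] at this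
    by_contra h
    push Not at h
    nlinarith
  refine ⟨C₁ * (D * r ^ Q), by positivity, fun i => ?_⟩
  have hκ := kap_pos h0 i
  have hκ' := kap_pos h0 (i + 1)
  have h11 : ∏ l ∈ range (i + 1), (N l : ℝ) ≤ C₁ * kap η (i + 1) ^ (-a) := by
    rw [Real.rpow_neg hκ'.le, ← div_eq_mul_inv, le_div_iff₀ (Real.rpow_pos_of_pos hκ' _)]
    have := hbound (i + 1)
    simp only [hR] at this
    simp only [hC₁, hR]
    linarith
  have h12 : kap η (i + 1) ^ (-a) = kap η i ^ (-a) * η i ^ (-a) := by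
    rw [kap_succ, Real.mul_rpow hκ.le (h0 i).le]
  have h13 : η i ^ (-a) ≤ D * r ^ Q * kap η i ^ (-(ε / 2)) := by
    have e1 : η i ^ (-a) = (1 / η i) ^ a := by
      rw [one_div, Real.inv_rpow (h0 i).le, Real.rpow_neg (h0 i).le]
    have hone : (1 : ℝ) ≤ (i : ℝ) + Q := by
      have : (1 : ℝ) ≤ Q := by exact_mod_cast hQ
      have : (0 : ℝ) ≤ i := Nat.cast_nonneg i
      linarith
    have e2 : (1 / η i) ^ a ≤ ((i : ℝ) + Q) ^ a :=
      Real.rpow_le_rpow (by have := h0 i; positivity) (hη i) ha0.le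
    have e3 : ((i : ℝ) + Q) ^ a ≤ ((i : ℝ) + Q) ^ k := by
      rw [← Real.rpow_natCast]
      exact Real.rpow_le_rpow_of_exponent_le hone hk
    have e4 : ((i : ℝ) + Q) ^ k ≤ D * r ^ (i + Q) := by
      have := hD' (i + Q)
      push_cast at this
      exact this
    have e5 : r ^ i ≤ kap η i ^ (-(ε / 2)) := by
      have e6 : kap η i ^ (-(ε / 2)) = (kap η i)⁻¹ ^ (ε / 2) := by
        rw [Real.inv_rpow hκ.le, Real.rpow_neg hκ.le]
      have e7 : r ^ i = ((2 : ℝ) ^ i) ^ (ε / 2) := by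
        rw [hr, ← Real.rpow_natCast, ← Real.rpow_mul (by norm_num), ← Real.rpow_natCast,
          ← Real.rpow_mul (by norm_num)]
        congr 1
        ring
      rw [e6, e7]
      refine Real.rpow_le_rpow (by positivity) ?_ (by positivity)
      rw [le_inv_comm₀ (by positivity) hκ]
      calc kap η i ≤ (1 / 2) ^ i := kap_le h0 h1 i
        _ = ((2 : ℝ) ^ i)⁻¹ := by rw [one_div, inv_pow]
    calc η i ^ (-a) = (1 / η i) ^ a := e1
      _ ≤ D * r ^ (i + Q) := e2.trans (e3.trans e4)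
      _ = D * r ^ Q * r ^ i := by rw [pow_add]; ring
      _ ≤ D * r ^ Q * kap η i ^ (-(ε / 2)) := mul_le_mul_of_nonneg_left e5 (by positivity)
  calc ∏ l ∈ range (i + 1), (N l : ℝ) ≤ C₁ * (kap η i ^ (-a) * η i ^ (-a)) := by
        rw [← h12]; exact h11
    _ ≤ C₁ * (kap η i ^ (-a) * (D * r ^ Q * kap η i ^ (-(ε / 2)))) := by
        have := (Real.rpow_pos_of_pos hκ (-a)).le
        gcongr
    _ = C₁ * (D * r ^ Q) * (kap η i ^ (-a) * kap η i ^ (-(ε / 2))) := by ring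
    _ = C₁ * (D * r ^ Q) * kap η i ^ (-(1 / 2 + ε)) := by
        rw [← Real.rpow_add hκ]
        congr 2
        rw [ha]
        ring

/-- the indices -/
def Idx (K : Subfield ℝ) : Type := {p : ℝ × ℝ // p.1 ∈ K ∧ p.2 ∈ K ∧ p ≠ 0}

/-- the time of an index -/
noncomputable def time (K : Subfield ℝ) (θ : ℝ) (p : Idx K) : ℝ :=
  p.1.2 / (p.1.1 + θ * p.1.2)

instance (K : Subfield ℝ) : Nonempty (Idx K) :=
  ⟨⟨(1, 0), K.one_mem, K.zero_mem, fun h => one_ne_zero (congrArg Prod.fst h)⟩⟩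

theorem countable_idx (K : Subfield ℝ) [Countable K] : Countable (Idx K) := by
  have : Function.Injective (fun p : Idx K => ((⟨p.1.1, p.2.1⟩ : K), (⟨p.1.2, p.2.2.1⟩ : K))) := by
    rintro ⟨⟨a, b⟩, h1, h2, h3⟩ ⟨⟨a', b'⟩, h1', h2', h3'⟩ h
    simp only [Prod.mk.injEq, Subtype.mk.injEq] at h
    exact Subtype.ext (Prod.ext h.1 h.2)
  exact this.countable

theorem denom_ne (K : Subfield ℝ) {θ : ℝ} (hθ : θ ∉ K) {u v : ℝ} (hu : u ∈ K)
    (hv : v ∈ K) (hne : (u, v) ≠ 0) : u + θ * v ≠ 0 := by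
  intro h
  by_cases hv0 : v = 0
  · rw [hv0, mul_zero, add_zero] at h
    exact hne (by rw [h, hv0]; rfl)
  · apply hθ
    have h1 : θ = -u / v := by
      rw [eq_div_iff hv0]
      linarith
    rw [h1]
    exact div_mem (neg_mem hu) hv

/-- the level data -/
theorem exists_levels (K : Subfield ℝ) [Countable K] {θ : ℝ} (hθ : θ ∉ K) :
    ∃ (η : ℕ → ℝ) (Ξ : ℕ → Finset (ℝ × ℝ)) (Q : ℕ), (∀ l, 0 < η l) ∧ (∀ l, η l ≤ 1 / 2) ∧ 1 ≤ Q ∧
      (∀ l, 1 / η l ≤ (l : ℝ) + Q) ∧ (∀ l, ∀ p ∈ Ξ l, |p.1| ≤ 2 ∧ |p.2| ≤ 2) ∧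
      (∀ l, ∀ z, |z| ≤ 1 → ∃ p ∈ Ξ l, |z - (p.2 - θ * p.1)| ≤ η l) ∧
      ∀ q : Idx K, ∀ ε : ℝ, 0 < ε → ∀ᶠ l in atTop,
        (((Ξ l).image (fun p => q.1.1 * p.1 + q.1.2 * p.2)).card : ℝ) ≤ η l ^ (-(1 / 2 + ε)) := by
  classical
  have := countable_idx K
  obtain ⟨e, he⟩ := exists_surjective_nat (Idx K)
  choose η' Ξ' h1 h2 h3 h4 h5 using fun m : ℕ => level K hθ ((range (m + 1)).image fun j => (e j).1)
    (fun q hq => by
      obtain ⟨j, _, rfl⟩ := mem_image.mp hq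
      exact ⟨(e j).2.1, (e j).2.2.1⟩) (ε := 1 / ((m : ℝ) + 1)) (by positivity)
  obtain ⟨Q, hQ⟩ := exists_nat_gt (1 / η' 0)
  set P : ℕ → ℕ → Prop := fun l m => 1 / η' m ≤ (l : ℝ) + Q with hP
  have hP0 : ∀ l, P l 0 := fun l => by
    have : (0 : ℝ) ≤ l := Nat.cast_nonneg l
    simp only [hP]
    linarith
  set m : ℕ → ℕ := fun l => Nat.findGreatest (P l) l with hm
  have hPm : ∀ l, P l (m l) := fun l => Nat.findGreatest_spec (P := P l) (Nat.zero_le l) (hP0 l)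
  have hmt : Tendsto m atTop atTop := by
    rw [tendsto_atTop]
    intro b
    obtain ⟨c, hc⟩ := exists_nat_gt (1 / η' b)
    filter_upwards [eventually_ge_atTop b, eventually_ge_atTop c] with l hl1 hl2
    refine Nat.le_findGreatest hl1 ?_
    have h6 : (c : ℝ) ≤ l := by exact_mod_cast hl2
    have h7 : (0 : ℝ) ≤ Q := Nat.cast_nonneg Q
    simp only [hP]
    linarith
  have hQ1 : 1 ≤ Q := by
    have h6 : (0 : ℝ) < Q := lt_trans (by have := h1 0; positivity) hQ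
    exact_mod_cast h6
  refine ⟨fun l => η' (m l), fun l => Ξ' (m l), Q, fun l => h1 _, fun l => h2 _, hQ1,
    fun l => hPm l, fun l => h3 _, fun l => h4 _, fun q ε hε => ?_⟩
  obtain ⟨j, hj⟩ := he q
  have hsm : ∀ᶠ n : ℕ in atTop, 1 / ((n : ℝ) + 1) ≤ ε :=
    (tendsto_one_div_add_atTop_nhds_zero_nat (𝕜 := ℝ)).eventually (ge_mem_nhds hε)
  filter_upwards [hmt.eventually (eventually_ge_atTop j), hmt.eventually hsm] with l hl1 hl2
  have h6 := h5 (m l) q.1 (mem_image.mpr ⟨j, mem_range.mpr (by omega), by rw [hj]⟩)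
  refine h6.trans ?_
  refine Real.rpow_le_rpow_of_exponent_ge (h1 _) ((h2 _).trans (by norm_num)) ?_
  linarith

/-- the partial sums -/
noncomputable def parts (κ : ℕ → ℝ) (S : ℕ → Finset ℝ) : ℕ → Finset ℝ
  | 0 => {0}
  | i + 1 => (parts κ S i ×ˢ S i).image (fun p : ℝ × ℝ => p.1 + κ i * p.2)

theorem card_parts (κ : ℕ → ℝ) (S : ℕ → Finset ℝ) (i : ℕ) :
    ((parts κ S i).card : ℝ) ≤ ∏ l ∈ range i, ((S l).card : ℝ) := by
  induction i with
  | zero => simp [parts]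
  | succ i ih =>
    rw [prod_range_succ]
    calc ((parts κ S (i + 1)).card : ℝ) ≤ ((parts κ S i ×ˢ S i).card : ℝ) :=
          Nat.cast_le.mpr card_image_le
      _ = ((parts κ S i).card : ℝ) * (S i).card := by rw [card_product]; push_cast; rfl
      _ ≤ (∏ l ∈ range i, ((S l).card : ℝ)) * (S i).card :=
          mul_le_mul_of_nonneg_right ih (by positivity)

theorem mem_parts (κ : ℕ → ℝ) (S : ℕ → Finset ℝ) {x : ℕ → ℝ} (hx : ∀ l, x l ∈ S l) (i : ℕ) :
    ∑ l ∈ range i, κ l * x l ∈ parts κ S i := by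
  induction i with
  | zero => simp [parts]
  | succ i ih =>
    rw [parts, mem_image]
    exact ⟨(∑ l ∈ range i, κ l * x l, x i), mem_product.mpr ⟨ih, hx i⟩, by rw [sum_range_succ]⟩

theorem thinR_series {η : ℕ → ℝ} (h0 : ∀ l, 0 < η l) (h1 : ∀ l, η l ≤ 1 / 2) {Q : ℕ} (hQ : 1 ≤ Q)
    (hη : ∀ l, 1 / η l ≤ (l : ℝ) + Q) (S : ℕ → Finset ℝ) {W : ℝ} (hW : 0 < W)
    (hSW : ∀ l, ∀ x ∈ S l, |x| ≤ W)
    (hS : ∀ ε : ℝ, 0 < ε → ∀ᶠ l in atTop, ((S l).card : ℝ) ≤ η l ^ (-(1 / 2 + ε))) :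
    ThinR (1 / 2) {w | ∃ x : ℕ → ℝ, (∀ l, x l ∈ S l) ∧ w = ser (kap η) x} := by
  intro ε hε
  obtain ⟨C, hC, hg⟩ := growth h0 h1 hQ hη (fun l => (S l).card) hε (hS (ε / 2) (by linarith))
  set κ := kap η with hκ
  have hfast := kap_fast h0 h1
  set e : ℝ := 1 / 2 + ε with he
  have he0 : 0 < e := by positivity
  refine ⟨C * (2 * W) ^ e + 1, by positivity, fun δ hδ hδ1 => ?_⟩
  have hex : ∃ i, 2 * W * κ i ≤ δ := by
    have h3 := (kap_tendsto h0 h1).const_mul (2 * W)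
    rw [mul_zero] at h3
    exact (h3.eventually (ge_mem_nhds hδ)).exists
  classical
  set i := Nat.find hex with hi
  have hi1 : 2 * W * κ i ≤ δ := Nat.find_spec hex
  refine ⟨parts κ S i, ?_, ?_⟩
  · have hδe : 1 ≤ δ ^ (-e) := Real.one_le_rpow_of_pos_of_le_one_of_nonpos hδ hδ1 (by linarith)
    rcases Nat.eq_zero_or_pos i with h00 | h00
    · rw [h00]
      simp only [parts, card_singleton, Nat.cast_one]
      have : 0 ≤ C * (2 * W) ^ e := by positivity
      nlinarith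
    · obtain ⟨j, hj⟩ := Nat.exists_eq_succ_of_ne_zero h00.ne'
      rw [Nat.succ_eq_add_one] at hj
      have hj1 : δ < 2 * W * κ j := by
        have := Nat.find_min hex (m := j) (by omega)
        push Not at this
        exact this
      have h4 : ((parts κ S i).card : ℝ) ≤ C * κ j ^ (-e) := by
        rw [hj]
        exact (card_parts κ S (j + 1)).trans (hg j)
      have h5 : κ j ^ (-e) ≤ (2 * W) ^ e * δ ^ (-e) := by
        have hk := hfast.1 j
        rw [← hκ] at hk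
        rw [Real.rpow_neg hk.le, Real.rpow_neg hδ.le, ← div_eq_mul_inv,
          inv_le_iff_one_le_mul₀ (Real.rpow_pos_of_pos hk e), div_mul_eq_mul_div,
          one_le_div (Real.rpow_pos_of_pos hδ e), ← Real.mul_rpow (by positivity) hk.le]
        exact Real.rpow_le_rpow hδ.le hj1.le he0.le
      calc ((parts κ S i).card : ℝ) ≤ C * κ j ^ (-e) := h4
        _ ≤ C * ((2 * W) ^ e * δ ^ (-e)) := mul_le_mul_of_nonneg_left h5 hC.le
        _ ≤ (C * (2 * W) ^ e + 1) * δ ^ (-e) := by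
            have : 0 ≤ δ ^ (-e) := by positivity
            nlinarith
  · rintro w ⟨x, hx, rfl⟩
    exact ⟨_, mem_parts κ S hx i, (NF.tail_le hfast (fun l => hSW l _ (hx l)) i).trans hi1⟩

/-- **All countable fields.** -/
theorem lines (K : Subfield ℝ) [Countable K] {θ : ℝ} (hθ : θ ∉ K) : Lines (time K θ) := by
  classical
  obtain ⟨η, Ξ, Q, h0, h1, hQ, hη, hΞ, hcov, hcard⟩ := exists_levels K hθ
  set κ := kap η with hκ
  have hfast : Fast κ := kap_fast h0 h1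
  set S : Idx K → ℕ → Finset ℝ := fun q l => (Ξ l).image (fun p => q.1.1 * p.1 + q.1.2 * p.2) with hS
  set W : Idx K → ℝ := fun q => |q.1.1| * 2 + |q.1.2| * 2 + 1 with hW
  have hSW : ∀ q l, ∀ x ∈ S q l, |x| ≤ W q := by
    intro q l x hx
    obtain ⟨p, hp, rfl⟩ := mem_image.mp hx
    have e1 := mul_le_mul_of_nonneg_left (hΞ l p hp).1 (abs_nonneg q.1.1)
    have e2 := mul_le_mul_of_nonneg_left (hΞ l p hp).2 (abs_nonneg q.1.2)
    calc |q.1.1 * p.1 + q.1.2 * p.2| ≤ |q.1.1 * p.1| + |q.1.2 * p.2| := abs_add_le _ _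
      _ ≤ W q := by rw [abs_mul, abs_mul]; simp only [hW]; linarith
  refine ⟨fun q => (fun x => (1 / (q.1.1 + θ * q.1.2)) * x) ''
      {w | ∃ x : ℕ → ℝ, (∀ l, x l ∈ S q l) ∧ w = ser κ x},
    fun q => thinR_mul (thinR_series h0 h1 hQ hη (S q) (W := W q) (by positivity) (hSW q)
      (fun ε hε => hcard q ε hε)) _, fun r hr => ?_⟩
  -- the expansion
  have hc : ∀ (l : ℕ) (z : ℝ), ∃ p : ℝ × ℝ, |z| ≤ 1 → p ∈ Ξ l ∧ |z - (p.2 - θ * p.1)| ≤ η l := by
    intro l z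
    by_cases hz : |z| ≤ 1
    · obtain ⟨p, hp⟩ := hcov l z hz
      exact ⟨p, fun _ => hp⟩
    · exact ⟨0, fun h => absurd h hz⟩
  choose d hd using hc
  set z : ℕ → ℝ := fun i =>
    Nat.rec r (fun i z => (z - ((d i z).2 - θ * (d i z).1)) / η i) i with hz
  have hz1 : ∀ i, z (i + 1) = (z i - ((d i (z i)).2 - θ * (d i (z i)).1)) / η i := fun i => rfl
  have hzb : ∀ i, |z i| ≤ 1 := by
    intro i
    induction i with
    | zero => exact hr
    | succ i ih =>
      rw [hz1, abs_div, abs_of_pos (h0 i), div_le_one (h0 i)]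
      exact (hd i _ ih).2
  set x : ℕ → ℝ := fun i => (d i (z i)).1 with hx
  set y : ℕ → ℝ := fun i => (d i (z i)).2 with hy
  have hmem : ∀ i, d i (z i) ∈ Ξ i := fun i => (hd i _ (hzb i)).1
  have hxb : ∀ i, |x i| ≤ 2 := fun i => (hΞ i _ (hmem i)).1
  have hyb : ∀ i, |y i| ≤ 2 := fun i => (hΞ i _ (hmem i)).2
  have hrec : ∀ i, r = (∑ l ∈ range i, κ l * y l) - θ * (∑ l ∈ range i, κ l * x l) + κ i * z i := by
    intro i
    induction i with
    | zero => simp [hκ, kap, hz]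
    | succ i ih =>
      have h6 : κ (i + 1) = κ i * η i := kap_succ _ _
      rw [sum_range_succ, sum_range_succ, h6, hz1]
      have h7 : κ i * η i * ((z i - ((d i (z i)).2 - θ * (d i (z i)).1)) / η i) =
          κ i * (z i - (y i - θ * x i)) := by
        have := (h0 i).ne'
        field_simp
        rfl
      rw [h7]
      calc r = (∑ l ∈ range i, κ l * y l) - θ * (∑ l ∈ range i, κ l * x l) + κ i * z i := ih
        _ = _ := by ring
  have t1 := (summable_ser hfast hxb).hasSum.tendsto_sum_nat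
  have t2 := (summable_ser hfast hyb).hasSum.tendsto_sum_nat
  have t3 : Tendsto (fun i => κ i * z i) atTop (𝓝 0) := by
    refine squeeze_zero_norm (fun i => ?_) (kap_tendsto h0 h1)
    rw [Real.norm_eq_abs, abs_mul, abs_of_pos (hfast.1 i)]
    exact mul_le_of_le_one_right (hfast.1 i).le (hzb i)
  have t4 := (t2.sub (t1.const_mul θ)).add t3
  have t5 : Tendsto (fun _ : ℕ => r) atTop (𝓝 (ser κ y - θ * ser κ x + 0)) := by
    refine t4.congr (fun i => ?_)
    exact (hrec i).symm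
  have hr' : r = ser κ y - θ * ser κ x := by
    have := tendsto_nhds_unique tendsto_const_nhds t5
    rwa [add_zero] at this
  refine ⟨ser κ x, fun q => ?_⟩
  refine ⟨ser κ (fun l => q.1.1 * x l + q.1.2 * y l), ⟨_, fun l => mem_image_of_mem _ (hmem l), rfl⟩, ?_⟩
  have e : ser κ (fun l => q.1.1 * x l + q.1.2 * y l) = q.1.1 * ser κ x + q.1.2 * ser κ y := by
    unfold ser
    rw [← tsum_mul_left, ← tsum_mul_left,
      ← Summable.tsum_add ((summable_ser hfast hxb).mul_left _)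
        ((summable_ser hfast hyb).mul_left _)]
    exact tsum_congr fun l => by ring
  have hden := denom_ne K hθ q.2.1 q.2.2.1 q.2.2.2
  simp only [time]
  rw [e, hr']
  field_simp
  ring

end Pool.Agent.Run7.h70.IHP.CF
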