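import Pool.Agent.Run7.h70.IHP.Line

set_option autoImplicit false

/-! # From the line to `ℝ^n`; dimensions -/

open Filter Topology Finset

namespace Pool.Agent.Run7.h70.IHP

/-- Euclidean space `ℝ^n`. -/
abbrev E (n : ℕ) := EuclideanSpace ℝ (Fin n)

/-- The least number of sets of diameter at most `δ` covering `B` (for bounded `B`). -/
noncomputable def coverNum {n : ℕ} (B : Set (E n)) (δ : ℝ) : ℕ :=
  sInf {N | ∃ U : Fin N → Set (E n),
    (∀ i, ∀ x ∈ U i, ∀ y ∈ U i, dist x y ≤ δ) ∧ B ⊆ ⋃ i, U i}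

/-- Upper Minkowski dimension (upper box-counting dimension). -/
noncomputable def upperMinkowski {n : ℕ} (B : Set (E n)) : EReal :=
  limsup (fun δ : ℝ => ((Real.log (coverNum B δ) / Real.log (1 / δ) : ℝ) : EReal)) (𝓝[>] 0)

/-- Packing dimension, as the countably stable version of the upper Minkowski dimension: the infimum
of the numbers `d` such that `B` is covered by countably many bounded sets of upper Minkowski dimension
at most `d`. -/
noncomputable def packingDim {n : ℕ} (B : Set (E n)) : EReal :=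
  sInf {d | ∃ U : ℕ → Set (E n), (∀ i, Bornology.IsBounded (U i)) ∧ B ⊆ ⋃ i, U i ∧
    ∀ i, upperMinkowski (U i) ≤ d}

/-- the cube `[0,1]^n` -/
def cube (n : ℕ) : Set (E n) := {r | ∀ i, r i ∈ Set.Icc (0 : ℝ) 1}

/-- sets of upper box dimension at most `d`, with quantitative coverings by balls -/
def Thin {n : ℕ} (d : ℝ) (B : Set (E n)) : Prop :=
  ∀ ε : ℝ, 0 < ε → ∃ C : ℝ, 0 < C ∧ ∀ δ : ℝ, 0 < δ → δ ≤ 1 →
    ∃ F : Finset (E n), (F.card : ℝ) ≤ C * δ ^ (-(d + ε)) ∧ ∀ x ∈ B, ∃ f ∈ F, dist x f ≤ δ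

theorem thin_bounded {n : ℕ} {d : ℝ} {B : Set (E n)} (h : Thin d B) : Bornology.IsBounded B := by
  obtain ⟨C, _, hF⟩ := h 1 one_pos
  obtain ⟨F, _, hF2⟩ := hF 1 one_pos le_rfl
  have h1 : Bornology.IsBounded (⋃ f ∈ (F : Set (E n)), Metric.closedBall f 1) :=
    (Bornology.isBounded_biUnion F.finite_toSet).mpr fun f _ => Metric.isBounded_closedBall
  refine h1.subset fun x hx => ?_
  obtain ⟨f, hf, hxf⟩ := hF2 x hx
  exact Set.mem_biUnion hf (Metric.mem_closedBall.mpr hxf)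

theorem coverNum_le {n : ℕ} {B : Set (E n)} {δ : ℝ} (F : Finset (E n))
    (h : ∀ x ∈ B, ∃ f ∈ F, dist x f ≤ δ / 2) : coverNum B δ ≤ F.card := by
  refine Nat.sInf_le ⟨fun i => Metric.closedBall ((F.equivFin.symm i : F) : E n) (δ / 2), ?_, ?_⟩
  · intro i x hx y hy
    rw [Metric.mem_closedBall] at hx hy
    have := dist_triangle_right x y ((F.equivFin.symm i : F) : E n)
    linarith
  · intro x hx
    obtain ⟨f, hf, hxf⟩ := h x hx
    refine Set.mem_iUnion.mpr ⟨F.equivFin ⟨f, hf⟩, ?_⟩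
    rw [Equiv.symm_apply_apply]
    exact Metric.mem_closedBall.mpr hxf

theorem log_inv_pos {δ : ℝ} (h0 : 0 < δ) (h1 : δ < 1) : 0 < Real.log (1 / δ) :=
  Real.log_pos (by rw [lt_div_iff₀ h0]; linarith)

theorem eventually_small : ∀ᶠ δ : ℝ in 𝓝[>] (0 : ℝ), 0 < δ ∧ δ < 1 := Ioo_mem_nhdsGT one_pos

theorem eventually_log (A : ℝ) : ∀ᶠ δ : ℝ in 𝓝[>] (0 : ℝ), A < Real.log (1 / δ) := by
  have hlog : Tendsto Real.log (𝓝[>] (0 : ℝ)) atBot := Real.tendsto_log_nhdsGT_zero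
  filter_upwards [hlog.eventually (eventually_lt_atBot (-A))] with δ h
  rw [one_div, Real.log_inv]
  linarith

theorem thin_upper {n : ℕ} {d : ℝ} (hd : 0 ≤ d) {B : Set (E n)} (h : Thin d B) :
    upperMinkowski B ≤ (d : EReal) := by
  refine le_of_forall_gt fun x hx => ?_
  obtain ⟨y, hy1, hy2⟩ := EReal.lt_iff_exists_real_btwn.mp hx
  have hy : d < y := by exact_mod_cast hy1
  refine lt_of_le_of_lt ?_ hy2
  have hε : 0 < (y - d) / 2 := by linarith
  obtain ⟨C, hC, hF⟩ := h _ hε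
  set e : ℝ := d + (y - d) / 2 with he
  have he0 : 0 < e := by linarith
  refine limsup_le_of_le (by isBoundedDefault) ?_
  set C' : ℝ := C * 2 ^ e with hC'
  have hC'0 : 0 < C' := by positivity
  filter_upwards [eventually_small, eventually_log (|Real.log C'| / ((y - d) / 2))] with δ h1 h2
  have hL := log_inv_pos h1.1 h1.2
  rw [EReal.coe_le_coe_iff, div_le_iff₀ hL]
  rw [div_lt_iff₀ hε] at h2
  rcases Nat.eq_zero_or_pos (coverNum B δ) with h5 | h5
  · rw [h5, Nat.cast_zero, Real.log_zero]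
    have : 0 < y := by linarith
    positivity
  · obtain ⟨F, hF1, hF2⟩ := hF (δ / 2) (by linarith [h1.1]) (by linarith [h1.2])
    have h3 : (coverNum B δ : ℝ) ≤ C' * δ ^ (-e) := by
      have h6 : (coverNum B δ : ℝ) ≤ F.card := by exact_mod_cast coverNum_le F hF2
      refine h6.trans (hF1.trans (le_of_eq ?_))
      rw [Real.div_rpow h1.1.le (by norm_num), Real.rpow_neg (by norm_num : (0 : ℝ) ≤ 2)]
      simp only [hC']
      field_simp
    have h7 := Real.log_le_log (by exact_mod_cast h5) h3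
    rw [Real.log_mul hC'0.ne' (Real.rpow_pos_of_pos h1.1 _).ne', Real.log_rpow h1.1] at h7
    have h8 : Real.log (1 / δ) = -Real.log δ := by rw [one_div, Real.log_inv]
    have h9 := le_abs_self (Real.log C')
    have h10 : y = e + (y - d) / 2 := by simp only [he]; ring
    rw [h8] at h2 ⊢
    nlinarith

theorem thin_biUnion {n : ℕ} {d : ℝ} {ι : Type*} (S : Finset ι) {B : ι → Set (E n)}
    (h : ∀ s, Thin d (B s)) : Thin d (⋃ s ∈ S, B s) := by
  classical
  intro ε hε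
  choose C hC hF using fun s => h s ε hε
  refine ⟨∑ s ∈ S, C s + 1, by have := sum_nonneg (fun s (_ : s ∈ S) => (hC s).le); linarith,
    fun δ hδ hδ1 => ?_⟩
  choose F hF1 hF2 using fun s => hF s δ hδ hδ1
  refine ⟨S.biUnion F, ?_, ?_⟩
  · have h0 : 0 ≤ δ ^ (-(d + ε)) := by positivity
    calc ((S.biUnion F).card : ℝ) ≤ ∑ s ∈ S, ((F s).card : ℝ) := by exact_mod_cast card_biUnion_le
      _ ≤ ∑ s ∈ S, C s * δ ^ (-(d + ε)) := sum_le_sum fun s _ => hF1 s
      _ = (∑ s ∈ S, C s) * δ ^ (-(d + ε)) := by rw [sum_mul]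
      _ ≤ (∑ s ∈ S, C s + 1) * δ ^ (-(d + ε)) := by nlinarith
  · intro x hx
    simp only [Set.mem_iUnion] at hx
    obtain ⟨s, hs, hx⟩ := hx
    obtain ⟨f, hf, hxf⟩ := hF2 s x hx
    exact ⟨f, mem_biUnion.mpr ⟨s, hs, hf⟩, hxf⟩

theorem thin_smul {n : ℕ} {d : ℝ} {B : Set (E n)} (h : Thin d B) (c : ℝ) :
    Thin d ((fun x => c • x) '' B) := by
  classical
  intro ε hε
  obtain ⟨C, hC, hF⟩ := h ε hε
  set M : ℝ := |c| + 1 with hM
  have hM1 : 1 ≤ M := by have := abs_nonneg c; linarith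
  have hM0 : 0 < M := by linarith
  refine ⟨C * M ^ (d + ε), by positivity, fun δ hδ hδ1 => ?_⟩
  obtain ⟨F, hF1, hF2⟩ := hF (δ / M) (by positivity) ((div_le_one hM0).mpr (hδ1.trans hM1))
  refine ⟨F.image (fun x => c • x), ?_, ?_⟩
  · calc ((F.image (fun x => c • x)).card : ℝ) ≤ (F.card : ℝ) := by exact_mod_cast card_image_le
      _ ≤ C * (δ / M) ^ (-(d + ε)) := hF1
      _ = C * M ^ (d + ε) * δ ^ (-(d + ε)) := by
          rw [Real.div_rpow hδ.le hM0.le, Real.rpow_neg hM0.le]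
          field_simp
  · rintro _ ⟨w, hw, rfl⟩
    obtain ⟨f, hf, hwf⟩ := hF2 w hw
    refine ⟨c • f, mem_image_of_mem _ hf, ?_⟩
    simp only
    rw [dist_smul₀, Real.norm_eq_abs]
    calc |c| * dist w f ≤ M * (δ / M) := mul_le_mul (by linarith) hwf dist_nonneg hM0.le
      _ = δ := by field_simp

/-- products -/
theorem thin_pi (n : ℕ) {d : ℝ} (hd : 0 ≤ d) {A : Set ℝ} (h : ThinR d A) :
    Thin (n * d) {x : E n | ∀ i, x i ∈ A} := by
  classical
  intro ε hε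
  have hn1 : (0 : ℝ) < (n : ℝ) + 1 := by positivity
  obtain ⟨C, hC, hF⟩ := h (ε / (n + 1)) (by positivity)
  set e : ℝ := d + ε / (n + 1) with he
  have he0 : 0 < e := by positivity
  refine ⟨C ^ n * ((n : ℝ) + 1) ^ (n * d + ε), by positivity, fun δ hδ hδ1 => ?_⟩
  have hδ' : 0 < δ / (n + 1) := by positivity
  have hδ'1 : δ / (n + 1) ≤ 1 := (div_le_one hn1).mpr (by linarith [Nat.cast_nonneg (α := ℝ) n])
  obtain ⟨F, hF1, hF2⟩ := hF (δ / (n + 1)) hδ' hδ'1
  refine ⟨(Fintype.piFinset (fun _ : Fin n => F)).image (fun v => (WithLp.toLp 2 v : E n)), ?_, ?_⟩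
  · have h1 : (((Fintype.piFinset (fun _ : Fin n => F)).image
        (fun v => (WithLp.toLp 2 v : E n))).card : ℝ) ≤ (F.card : ℝ) ^ n := by
      refine (Nat.cast_le.mpr card_image_le).trans (le_of_eq ?_)
      rw [Fintype.card_piFinset]
      simp
    have h2 : (F.card : ℝ) ^ n ≤ (C * (δ / (n + 1)) ^ (-e)) ^ n :=
      pow_le_pow_left₀ (by positivity) hF1 n
    have h3 : ((δ / (n + 1)) ^ (-e)) ^ n ≤ (δ / (n + 1)) ^ (-(n * d + ε)) := by
      rw [← Real.rpow_mul_natCast hδ'.le]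
      refine Real.rpow_le_rpow_of_exponent_ge hδ' hδ'1 ?_
      have h4 : (n : ℝ) * (ε / (n + 1)) ≤ ε := by
        rw [mul_div_assoc', div_le_iff₀ hn1]
        nlinarith
      simp only [he]
      nlinarith
    calc (((Fintype.piFinset (fun _ : Fin n => F)).image
        (fun v => (WithLp.toLp 2 v : E n))).card : ℝ) ≤ (F.card : ℝ) ^ n := h1
      _ ≤ (C * (δ / (n + 1)) ^ (-e)) ^ n := h2
      _ = C ^ n * ((δ / (n + 1)) ^ (-e)) ^ n := by rw [mul_pow]
      _ ≤ C ^ n * (δ / (n + 1)) ^ (-(n * d + ε)) :=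
          mul_le_mul_of_nonneg_left h3 (by positivity)
      _ = C ^ n * ((n : ℝ) + 1) ^ (n * d + ε) * δ ^ (-(n * d + ε)) := by
          rw [Real.div_rpow hδ.le hn1.le, Real.rpow_neg hn1.le]
          field_simp
  · intro x hx
    choose f hf hxf using fun i => hF2 (x i) (hx i)
    refine ⟨WithLp.toLp 2 f, mem_image_of_mem _ (Fintype.mem_piFinset.mpr hf), ?_⟩
    rw [EuclideanSpace.dist_eq]
    have h5 : ∑ i, dist (x i) ((WithLp.toLp 2 f : E n) i) ^ 2 ≤ ((n : ℝ) + 1) ^ 2 * (δ / (n + 1)) ^ 2 := by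
      calc ∑ i, dist (x i) ((WithLp.toLp 2 f : E n) i) ^ 2 ≤ ∑ _i : Fin n, (δ / (n + 1)) ^ 2 := by
            refine sum_le_sum fun i _ => ?_
            refine pow_le_pow_left₀ dist_nonneg ?_ 2
            rw [Real.dist_eq]
            exact hxf i
        _ = n * (δ / (n + 1)) ^ 2 := by simp
        _ ≤ ((n : ℝ) + 1) ^ 2 * (δ / (n + 1)) ^ 2 := by
            refine mul_le_mul_of_nonneg_right ?_ (by positivity)
            nlinarith [Nat.cast_nonneg (α := ℝ) n]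
    calc √(∑ i, dist (x i) ((WithLp.toLp 2 f : E n) i) ^ 2)
        ≤ √(((n : ℝ) + 1) ^ 2 * (δ / (n + 1)) ^ 2) := Real.sqrt_le_sqrt h5
      _ = δ := by
          rw [← mul_pow, Real.sqrt_sq (by positivity)]
          field_simp

/-- the one dimensional property of a family of times -/
def Lines {ι : Type*} (τ : ι → ℝ) : Prop :=
  ∃ A : ι → Set ℝ, (∀ s, ThinR (1 / 2) (A s)) ∧
    ∀ r : ℝ, |r| ≤ 1 → ∃ a : ℝ, ∀ s, a + τ s * r ∈ A s

theorem Lines.affine {ι : Type*} {τ : ι → ℝ} (h : Lines τ) (α β : ℝ) :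
    Lines (fun s => α + β * τ s) := by
  obtain ⟨A, hA, hr⟩ := h
  set M : ℝ := |β| + 1 with hM
  have hM0 : 0 < M := by positivity
  refine ⟨fun s => (fun x => M * x) '' A s, fun s => thinR_mul (hA s) M, fun r h1 => ?_⟩
  have h2 : |β / M * r| ≤ 1 := by
    rw [abs_mul, abs_div, abs_of_pos hM0]
    have h3 : |β| / M ≤ 1 := (div_le_one hM0).mpr (by linarith)
    calc |β| / M * |r| ≤ 1 * 1 := mul_le_mul h3 h1 (abs_nonneg _) zero_le_one
      _ = 1 := one_mul 1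
  obtain ⟨a, ha⟩ := hr _ h2
  refine ⟨M * a - α * r, fun s => ⟨_, ha s, ?_⟩⟩
  simp only
  field_simp
  ring

theorem Lines.comp {ι κ : Type*} {τ : ι → ℝ} (h : Lines τ) (f : κ → ι) :
    Lines (fun s => τ (f s)) := by
  obtain ⟨A, hA, hr⟩ := h
  exact ⟨fun s => A (f s), fun s => hA _, fun r h1 => (hr r h1).imp fun a ha s => ha (f s)⟩

/-- bounded form -/
theorem Lines.bounded {ι : Type*} {τ : ι → ℝ} (h : Lines τ) (n : ℕ) :
    ∃ B : ι → Set (E n), (∀ s, Thin (n / 2 : ℝ) (B s)) ∧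
      ∀ r : E n, (∀ i, |r i| ≤ 1) → ∃ a : E n, ∀ s, a + τ s • r ∈ B s := by
  obtain ⟨A, hA, hr⟩ := h
  refine ⟨fun s => {x : E n | ∀ i, x i ∈ A s}, fun s => ?_, fun r h1 => ?_⟩
  · have := thin_pi n (by norm_num) (hA s)
    rwa [mul_one_div] at this
  · choose a ha using fun i => hr (r i) (h1 i)
    refine ⟨WithLp.toLp 2 a, fun s i => ?_⟩
    have := ha i s
    simpa [smul_eq_mul] using this

theorem Lines.finite {ι : Type*} {τ : ι → ℝ} (h : Lines τ) (n : ℕ) (S : Finset ι) :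
    ∃ B : Set (E n), Bornology.IsBounded B ∧ upperMinkowski B ≤ ((n / 2 : ℝ) : EReal) ∧
      ∀ r ∈ cube n, ∃ a : E n, ∀ s ∈ S, a + τ s • r ∈ B := by
  obtain ⟨B, hB, hr⟩ := h.bounded n
  refine ⟨⋃ s ∈ S, B s, thin_bounded (thin_biUnion S hB), thin_upper (by positivity)
    (thin_biUnion S hB), fun r h1 => ?_⟩
  obtain ⟨a, ha⟩ := hr r (fun i => by
    have := h1 i
    rw [abs_of_nonneg this.1]
    exact this.2)
  exact ⟨a, fun s hs => Set.mem_biUnion hs (ha s)⟩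

theorem Lines.infinite {ι : Type*} [Countable ι] [Nonempty ι] {τ : ι → ℝ} (h : Lines τ) (n : ℕ) :
    ∃ B : Set (E n), packingDim B ≤ ((n / 2 : ℝ) : EReal) ∧
      ∀ r : E n, ∃ a : E n, ∀ s, a + τ s • r ∈ B := by
  obtain ⟨B, hB, hr⟩ := h.bounded n
  obtain ⟨e, he⟩ := exists_surjective_nat (ι × ℕ)
  have hthin : ∀ i, Thin (n / 2 : ℝ) ((fun x => ((e i).2 : ℝ) • x) '' B (e i).1) := fun i =>
    thin_smul (hB _) _
  refine ⟨⋃ i, (fun x => ((e i).2 : ℝ) • x) '' B (e i).1, ?_, fun r => ?_⟩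
  · exact sInf_le ⟨_, fun i => thin_bounded (hthin i), Set.Subset.rfl,
      fun i => thin_upper (by positivity) (hthin i)⟩
  · obtain ⟨M, hM⟩ := exists_nat_gt (∑ i, |r i|)
    have hM0 : (0 : ℝ) < M := lt_of_le_of_lt (sum_nonneg fun i _ => abs_nonneg _) hM
    obtain ⟨a, ha⟩ := hr ((1 / (M : ℝ)) • r) (fun i => by
      have h1 : |r i| ≤ ∑ i, |r i| := single_le_sum (f := fun i => |r i|)
        (fun i _ => abs_nonneg _) (mem_univ i)
      rw [PiLp.smul_apply, smul_eq_mul, abs_mul, abs_of_pos (by positivity), one_div,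
        inv_mul_le_iff₀ hM0]
      linarith)
    refine ⟨(M : ℝ) • a, fun s => ?_⟩
    obtain ⟨i, hi⟩ := he (s, M)
    refine Set.mem_iUnion.mpr ⟨i, ?_⟩
    rw [hi]
    refine ⟨_, ha s, ?_⟩
    simp only
    rw [smul_add, smul_smul, smul_smul]
    congr 2
    field_simp

end Pool.Agent.Run7.h70.IHP
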